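import Pool.Agent.H4.BD.KKs
import Pool.Agent.H85.VK.Coch

/-!
# Project BD: the alternating function

A valid cell `(z, s, a)` with `z ∈ W_s` is the coset `W_s` itself, `z` its longest element, and its first
letters are the letters in `s` (`fl_par`).  The sum over the faces in `W_(s \ v)` is the sum over the labels
(`lin_par`).
-/

set_option autoImplicit false
set_option linter.unusedSectionVars false

open Finset

namespace Pool.Agent.H4.BD

open Pool.Agent.H4.FC Pool.Agent.H78.RC Pool.Agent.H97.BLD Pool.Agent.H37.TM Pool.Agent.H85.VK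

variable {S : Type} [Fintype S] [DecidableEq S]
  {Lb : Type} [DecidableEq Lb] [VLb S Lb]

open Classical in
/-- the alternating function on the cells which contain the identity -/
noncomputable def AA (M : CoxeterMatrix S) (μ : S × Lb → ℕ) (x y : Cel M Lb) : ZMod 2 :=
  if Ok M x y ∧ x.1 ∈ par M x.2.1 ∧ y.1 ∈ par M y.2.1 then eP μ x.2.2 y.2.2 else 0

variable {M : CoxeterMatrix S}

/-- the first letters of the longest element of `W_s` -/
theorem fl_par {s : Finset S} {z : M.Group} (hz : Mx M s z) (hp : z ∈ par M s) : fl M z = s := by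
  ext t
  constructor
  · intro ht
    rw [mem_fl] at ht
    have h1 : len M (z⁻¹ * M.simple t) + 1 = len M z⁻¹ := by
      rw [← len_inv M (z⁻¹ * M.simple t), mul_inv_rev, inv_inv, simple_inv, len_inv M z]
      exact ht
    exact descent_par M (inv_mem hp) h1
  · intro ht
    rw [mem_fl]
    have h1 : z⁻¹ * (M.simple t * z) ∈ par M s :=
      mul_mem (inv_mem hp) (mul_mem (simple_mem_par M ht) hp)
    have h2 := hz.len_add h1
    rw [mul_inv_cancel_left] at h2
    rcases len_simple_mul M z t with h3 | h3 <;> omega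

/-- the longest element of `W_J` -/
theorem exists_lg {J : Finset S} (hJ : Sph M J) : ∃ y, Mx M J y ∧ y ∈ par M J := by
  obtain ⟨y, h1, h2⟩ := exists_mx hJ 1
  rw [mul_one] at h2
  have h3 := inv_mem h2
  rw [inv_inv] at h3
  exact ⟨y, h1, h3⟩

/-- the labels of the letters different from `v` -/
theorem rs_erase {A : Finset S} {a : Finset (S × Lb)} (ha : Lab A a) {q : S × Lb} (hq : q ∈ a) :
    rs (A.erase q.1) a = a.erase q := by
  ext p
  unfold rs
  rw [mem_filter, mem_erase, mem_erase]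
  constructor
  · rintro ⟨h1, h2, h3⟩
    refine ⟨?_, h1⟩
    rintro rfl
    exact h2 rfl
  · rintro ⟨h1, h2⟩
    refine ⟨h2, fun h3 => h1 ?_, ha.1 p h2⟩
    obtain ⟨j, hj, hu⟩ := ha.2 q.1 (ha.1 q hq)
    have h4 := hu q.2 hq
    have h5 := hu p.2 (by rw [← h3]; exact h2)
    exact Prod.ext h3 (h5.trans h4.symm)

/-- sums over the letters are sums over the labels -/
theorem sum_lab {A : Finset S} {a : Finset (S × Lb)} (ha : Lab A a)
    (g : Finset (S × Lb) → ZMod 2) :
    ∑ v ∈ A, g (rs (A.erase v) a) = ∑ q ∈ a, g (a.erase q) := by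
  symm
  refine sum_bij (fun q _ => q.1) (fun q hq => ha.1 q hq) ?_ ?_ ?_
  · intro q hq p hp h
    obtain ⟨j, hj, hu⟩ := ha.2 q.1 (ha.1 q hq)
    have h4 := hu q.2 hq
    have h5 := hu p.2 (by rw [h]; exact hp)
    exact Prod.ext h (h4.trans h5.symm)
  · intro v hv
    obtain ⟨j, hj, -⟩ := ha.2 v hv
    exact ⟨(v, j), hj, rfl⟩
  · intro q hq
    rw [rs_erase ha hq]

/-- a function on the boundary of the coset `W_s` -/
theorem lin_par {x : Cel M Lb} (hx : Vld M x) (hp : x.1 ∈ par M x.2.1) (f : Cel M Lb → ZMod 2)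
    (g : Finset (S × Lb) → ZMod 2)
    (h1 : ∀ x', Vld M x' → x'.1 ∈ par M x'.2.1 → x'.2.2 ⊆ x.2.2 →
      f x' = g x'.2.2)
    (h0 : ∀ x', x'.1 ∉ par M x'.2.1 → f x' = 0) :
    lin f (bdC M x) = ∑ q ∈ x.2.2, g (x.2.2.erase q) := by
  have hf : fl M x.1 = x.2.1 := fl_par hx.2.1 hp
  have hl : Lab x.2.1 x.2.2 := by
    have h := hx.2.2.1
    rwa [hf] at h
  rw [lin_bdC, ← sum_lab hl]
  refine sum_congr rfl fun v hv => ?_
  have hs' : Sph M (x.2.1.erase v) := hx.1.mono (erase_subset _ _)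
  obtain ⟨y, hy1, hy2⟩ := exists_lg hs'
  have hyc : y ∈ cs M x.1 x.2.1 (x.2.1.erase v) := by
    rw [mem_cs hx.1]
    exact ⟨mul_mem (inv_mem hp) (par_mono M (erase_subset _ _) hy2), hy1⟩
  rw [sum_eq_single y]
  · have hfy : fl M y = x.2.1.erase v := fl_par hy1 hy2
    have h2 := h1 (face M x v y) (vld_face hx hyc) hy2 (rs_subset _ _)
    rw [h2]
    show g (rs (fl M y) x.2.2) = _
    rw [hfy]
  · intro w hw hne
    refine h0 _ fun h => hne ?_
    rw [mem_cs hx.1] at hw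
    exact hw.2.unique hy1 (mul_mem (inv_mem h) hy2)
  · intro h
    exact absurd hyc h

/-- faces of the other cosets -/
theorem lin_not_par {x : Cel M Lb} (hx : Vld M x) (hp : x.1 ∉ par M x.2.1) (f : Cel M Lb → ZMod 2)
    (h0 : ∀ x', x'.1 ∉ par M x'.2.1 → f x' = 0) : lin f (bdC M x) = 0 := by
  rw [lin_bdC]
  refine sum_eq_zero fun v hv => sum_eq_zero fun y hy => h0 _ fun h => hp ?_
  rw [mem_cs hx.1] at hy
  have h1 : y ∈ par M x.2.1 := par_mono M (erase_subset _ _) h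
  have h2 : x.1 = y * (x.1⁻¹ * y)⁻¹ := by group
  rw [h2]
  exact mul_mem h1 (inv_mem hy.1)

theorem AA_rel {μ : S × Lb → ℕ} (hμ : Function.Injective μ) {x y : Cel M Lb} (h : Ok M x y) :
    dX (bdC M) (AA M μ) x y = AA M μ x y + AA M μ y x := by
  classical
  have n1 : ∀ x' y' : Cel M Lb, x'.1 ∉ par M x'.2.1 → AA M μ x' y' = 0 := fun x' y' h1 =>
    if_neg fun h2 => h1 h2.2.1
  have n2 : ∀ x' y' : Cel M Lb, y'.1 ∉ par M y'.2.1 → AA M μ x' y' = 0 := fun x' y' h1 =>
    if_neg fun h2 => h1 h2.2.2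
  unfold dX
  by_cases hx : x.1 ∈ par M x.2.1
  · by_cases hy : y.1 ∈ par M y.2.1
    · have h1 : AA M μ x y = eP μ x.2.2 y.2.2 := if_pos ⟨h, hx, hy⟩
      have h2 : AA M μ y x = eP μ y.2.2 x.2.2 := if_pos ⟨h.symm, hy, hx⟩
      rw [h1, h2, ← dP_eP hμ h.2.2]
      unfold dP
      congr 1
      · refine lin_par h.1 hx _ (fun a => eP μ a y.2.2) (fun x' hx' hp hs => ?_)
          fun x' hx' => n1 x' y hx'
        exact if_pos ⟨⟨hx', h.2.1, disjoint_of_subset_left hs h.2.2⟩, hp, hy⟩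
      · refine lin_par h.2.1 hy _ (fun b => eP μ x.2.2 b) (fun y' hy' hp hs => ?_)
          fun y' hy' => n2 x y' hy'
        exact if_pos ⟨⟨h.1, hy', disjoint_of_subset_right hs h.2.2⟩, hx, hp⟩
    · rw [n2 x y hy, n1 y x hy, lin_not_par h.2.1 hy _ fun y' hy' => n2 x y' hy']
      have h1 : (fun x' => AA M μ x' y) = fun _ => 0 := funext fun x' => n2 x' y hy
      rw [h1, lin_bdC]
      simp
  · rw [n1 x y hx, n2 y x hx, lin_not_par h.1 hx _ fun x' hx' => n1 x' y hx']
    have h1 : (fun y' => AA M μ x y') = fun _ => 0 := funext fun y' => n1 x y' hx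
    rw [h1, lin_bdC]
    simp

theorem AA_base (μ : S × Lb → ℕ) : AA M μ (b0 M Lb) (b0 M Lb) = 1 := by
  have h1 : AA M μ (b0 M Lb) (b0 M Lb) = eP μ (∅ : Finset (S × Lb)) ∅ :=
    if_pos ⟨ok_b0, one_mem _, one_mem _⟩
  rw [h1]
  unfold eP altF
  rw [union_empty, if_pos (altP_empty μ _ true)]

theorem AA_finS (μ : S × Lb → ℕ) : FinS (AA M μ) := by
  classical
  have hU : (⋃ s : Finset S, ((parF M s : Finset M.Group) : Set M.Group)).Finite :=
    Set.finite_iUnion fun s => finite_toSet _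
  refine (hU.prod hU).subset ?_
  rintro ⟨z, z'⟩ ⟨s, a, t, b, hne⟩
  have h1 : Ok M ((z, s, a) : Cel M Lb) (z', t, b) ∧ z ∈ par M s ∧ z' ∈ par M t := by
    by_contra h
    exact hne (if_neg h)
  exact ⟨Set.mem_iUnion.2 ⟨s, (mem_parF h1.1.1.1 z).2 h1.2.1⟩,
    Set.mem_iUnion.2 ⟨t, (mem_parF h1.1.2.1.1 z').2 h1.2.2⟩⟩

theorem KK_AA {Q : (Finset (S × Lb) → Finset (S × Lb) → ZMod 2) → Finset S → Finset S → ZMod 2}
    (hQ : IsCoef M Q) (μ : S × Lb → ℕ) {s t : Finset S} (hs : Sph M s) (ht : Sph M t) :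
    KK M Q (AA M μ) s t = Q (eP μ) s t := by
  classical
  obtain ⟨z, hz1, hz2⟩ := exists_lg hs
  obtain ⟨z', hz1', hz2'⟩ := exists_lg ht
  have hQ0 : ∀ A B, Q (fun _ _ => 0) A B = 0 := by
    intro A B
    have h1 := hQ.add (fun _ _ => 0) (fun _ _ => 0) A B
    simp only [add_zero] at h1
    have key : ∀ a : ZMod 2, a = a + a → a = 0 := by decide
    exact key _ h1
  unfold KK
  rw [finsum_eq_single _ (z, z')]
  · rw [if_pos ⟨hz1, hz1'⟩]
    have e1 : fl M z = s := fl_par hz1 hz2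
    have e2 : fl M z' = t := fl_par hz1' hz2'
    show Q (fun a b => AA M μ (z, s, a) (z', t, b)) (fl M z) (fl M z') = _
    rw [e1, e2]
    refine hQ.congr _ _ s t hs ht fun a b ha hb ha' hb' hab => ?_
    have hx : Vld M ((z, s, a) : Cel M Lb) := by
      refine ⟨hs, hz1, ?_, ha'⟩
      show Lab (fl M z) a
      rwa [e1]
    have hy : Vld M ((z', t, b) : Cel M Lb) := by
      refine ⟨ht, hz1', ?_, hb'⟩
      show Lab (fl M z') b
      rwa [e2]
    have hO : Ok M ((z, s, a) : Cel M Lb) (z', t, b) := ⟨hx, hy, hab⟩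
    exact if_pos ⟨hO, hz2, hz2'⟩
  · rintro ⟨w, w'⟩ hne
    by_cases h : Mx M s w ∧ Mx M t w'
    · rw [if_pos h]
      have h1 : (fun a b => AA M μ ((w, s, a) : Cel M Lb) (w', t, b)) = fun _ _ => 0 := by
        funext a b
        refine if_neg fun h2 => hne ?_
        have h3 : w = z := h.1.unique hz1 (mul_mem (inv_mem h2.2.1) hz2)
        have h4 : w' = z' := h.2.unique hz1' (mul_mem (inv_mem h2.2.2) hz2')
        rw [h3, h4]
      show Q (fun a b => AA M μ (w, s, a) (w', t, b)) (fl M w) (fl M w') = 0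
      rw [h1, hQ0]
    · rw [if_neg h]

end Pool.Agent.H4.BD
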