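import Pool.Agent.H73.LK.Ind
import Pool.Agent.H93.AA.L2

/-!
# Project BD: from the homology of the nerves modulo two to complex coefficients

`ex_of_sub`: if the mod 2 homology of the nerve of `sub M U` vanishes in size `j`, the complex chains of the nerve of
`M` on the subsets of `U` are exact in size `j`.
-/

set_option autoImplicit false
set_option linter.unusedSectionVars false

open Finset

namespace Pool.Agent.H4.BD

open Pool.Agent.H4.FC Pool.Agent.H78.RC Pool.Agent.H73.LK Pool.Agent.H93.AA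
  Pool.Agent.H78.RA

private theorem coh_mem {V : Type} {Y : Finset V} {τ : Finset {v // v ∈ Y}} {v : V} :
    v ∈ τ.map (ind_emb Y) ↔ ∃ h : v ∈ Y, (⟨v, h⟩ : {v // v ∈ Y}) ∈ τ := by
  rw [mem_map]
  constructor
  · rintro ⟨w, hw, rfl⟩
    exact ⟨w.2, hw⟩
  · rintro ⟨h, hw⟩
    exact ⟨⟨v, h⟩, hw, rfl⟩

private theorem coh_par {V : Type} (M : CoxeterMatrix V) (Y : Finset V) (σ : Finset {v // v ∈ Y}) :
    (par (sub M Y) σ).map (ind_hom M Y) = par M (σ.map (ind_emb Y)) := by
  unfold par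
  rw [MonoidHom.map_closure]
  congr 1
  ext w
  constructor
  · rintro ⟨x, ⟨v, hv, rfl⟩, rfl⟩
    exact ⟨v.1, coh_mem.2 ⟨v.2, hv⟩, (ind_hom_simple M Y v).symm⟩
  · rintro ⟨v, hv, rfl⟩
    obtain ⟨h, hw⟩ := coh_mem.1 hv
    exact ⟨(sub M Y).simple ⟨v, h⟩, ⟨⟨v, h⟩, hw, rfl⟩, ind_hom_simple M Y ⟨v, h⟩⟩

private theorem coh_sph {V : Type} [Fintype V] [DecidableEq V] {M : CoxeterMatrix V} {Y : Finset V}
    {σ : Finset {v // v ∈ Y}} : Sph (sub M Y) σ ↔ Sph M (σ.map (ind_emb Y)) := by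
  unfold Sph
  rw [← coh_par]
  exact ((par (sub M Y) σ).equivMapOfInjective _ (ind_hom_injective M Y)).toEquiv.finite_iff

theorem ex_of_sub {S : Type} [Fintype S] [DecidableEq S] {M : CoxeterMatrix S} {j : ℕ}
    (U : Finset S) (h : HL (sub M U) j) {ν : S → ℕ} (hν : Function.Injective ν) :
    Ex ℂ ν (fun σ => Sph M σ ∧ σ.card = j ∧ σ ⊆ U)
      (fun σ => Sph M σ ∧ σ.card = j + 1 ∧ σ ⊆ U) := by
  classical
  apply ex_two ν hν
  · rintro τ v hv ⟨h1, h2, h3⟩
    refine ⟨h1.mono (Finset.subset_insert _ _), ?_, (Finset.subset_insert _ _).trans h3⟩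
    rw [Finset.card_insert_of_notMem hv] at h2
    omega
  intro z hz hz0
  -- sums over the complement
  have hsum : ∀ (c : Finset S → ZMod 2), (∀ σ, c σ ≠ 0 → σ ⊆ U) → ∀ T : Finset {v // v ∈ U},
      ∑ v ∈ Tᶜ, c ((insert v T).map (ind_emb U))
        = ∑ v ∈ (T.map (ind_emb U))ᶜ, c (insert v (T.map (ind_emb U))) := by
    intro c hc T
    have h1 : ∀ v ∈ Tᶜ, c ((insert v T).map (ind_emb U))
        = (fun u => c (insert u (T.map (ind_emb U)))) (ind_emb U v) := by
      intro v _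
      rw [Finset.map_insert]
    rw [Finset.sum_congr rfl h1, ← Finset.sum_map Tᶜ (ind_emb U)
      (fun u => c (insert u (T.map (ind_emb U))))]
    apply Finset.sum_subset
    · intro v hv
      obtain ⟨hU, hw⟩ := coh_mem.1 hv
      rw [Finset.mem_compl] at hw ⊢
      intro h2
      obtain ⟨_, h3⟩ := coh_mem.1 h2
      exact hw h3
    · intro v hv hv'
      by_contra h0
      have h2 := hc _ h0
      have hU : v ∈ U := h2 (Finset.mem_insert_self _ _)
      apply hv'
      rw [coh_mem]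
      refine ⟨hU, ?_⟩
      rw [Finset.mem_compl] at hv ⊢
      intro h3
      exact hv (coh_mem.2 ⟨hU, h3⟩)
  have hb : ∀ (c : Finset S → ZMod 2) τ, bd ν c τ = ∑ v ∈ τᶜ, c (insert v τ) := fun c τ => bd_two ν c τ
  have hmapsub : ∀ T : Finset {v // v ∈ U}, T.map (ind_emb U) ⊆ U := fun T v hv =>
    (coh_mem.1 hv).1
  obtain ⟨y, hy1, hy2⟩ := h (fun T => z (T.map (ind_emb U))) (by
    intro T h0
    obtain ⟨a, b, _⟩ := hz _ h0
    rw [Finset.card_map] at b
    exact ⟨coh_sph.2 a, b⟩) (by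
    intro T
    have h1 := hsum z (fun σ h0 => (hz σ h0).2.2) T
    rw [← hb, hz0] at h1
    have h2 : ∑ v ∈ Tᶜ, z ((insert v T).map (ind_emb U)) = 0 := h1
    rw [← h2])
  -- the preimage
  set pr : Finset S → Finset {v // v ∈ U} := fun σ => univ.filter fun w => w.1 ∈ σ with hpr
  have hpm : ∀ T : Finset {v // v ∈ U}, pr (T.map (ind_emb U)) = T := by
    intro T
    ext w
    rw [hpr, Finset.mem_filter, coh_mem]
    exact ⟨fun ⟨_, _, h2⟩ => h2, fun h => ⟨Finset.mem_univ _, w.2, h⟩⟩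
  have hmp : ∀ σ, σ ⊆ U → (pr σ).map (ind_emb U) = σ := by
    intro σ hσ
    ext v
    rw [coh_mem]
    constructor
    · rintro ⟨h1, h2⟩
      exact (Finset.mem_filter.1 h2).2
    · intro h1
      exact ⟨hσ h1, Finset.mem_filter.2 ⟨Finset.mem_univ _, h1⟩⟩
  refine ⟨fun σ => if σ ⊆ U then y (pr σ) else 0, ?_, ?_⟩
  · intro σ h0
    by_cases hσ : σ ⊆ U
    · have h1 : y (pr σ) ≠ 0 := by
        intro h1
        apply h0
        show (if σ ⊆ U then y (pr σ) else 0) = 0
        rw [if_pos hσ, h1]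
      obtain ⟨a, b⟩ := hy1 _ h1
      have h2 := hmp σ hσ
      refine ⟨?_, ?_, hσ⟩
      · rw [← h2]
        exact coh_sph.1 a
      · rw [← h2, Finset.card_map]
        exact b
    · exact absurd (if_neg hσ) h0
  · funext τ
    rw [hb]
    by_cases hτ : τ ⊆ U
    · have h1 := hsum (fun σ => if σ ⊆ U then y (pr σ) else 0) (fun σ h0 => by
        by_contra h1
        exact h0 (if_neg h1)) (pr τ)
      rw [hmp τ hτ] at h1
      have h2 : ∑ v ∈ τᶜ, (if insert v τ ⊆ U then y (pr (insert v τ)) else 0)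
          = ∑ v ∈ (pr τ)ᶜ, y (insert v (pr τ)) := by
        refine h1.symm.trans ?_
        apply Finset.sum_congr rfl
        intro v _
        rw [if_pos (hmapsub _), hpm]
      refine h2.trans ?_
      have h3 := hy2 (pr τ)
      rw [hmp τ hτ] at h3
      rw [← h3]
    · have h1 : z τ = 0 := by
        by_contra h0
        exact hτ (hz τ h0).2.2
      rw [h1]
      apply Finset.sum_eq_zero
      intro v _
      exact if_neg fun h2 => hτ ((Finset.subset_insert _ _).trans h2)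

end Pool.Agent.H4.BD
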