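import Pool.Agent.H4.BD.Defs
import Pool.Agent.H10.CI.CDefs

/-!
# Project BD: coarse embeddings

Points of the group for the residues, moved with a coarse embedding of the group.
-/

set_option autoImplicit false
set_option linter.unusedSectionVars false

open Finset

namespace Pool.Agent.H4.BD

open Pool.Agent.H4.FC Pool.Agent.H78.RC Pool.Agent.H97.BLD Pool.Agent.H10.CI

theorem IsRr.comp {S Δ P Λ : Type} [Group P] [Group Λ] {M : CoxeterMatrix S}
    {δ : Δ → Δ → M.Group} {rr : Finset S → Δ → P} (h : IsRr M δ rr) {f : P → Λ}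
    (hf : CoarseEmb f) : IsRr M δ fun T x => f (rr T x) := by
  classical
  have key : ∀ x y : P, x * (x⁻¹ * y) = y := fun x y => mul_inv_cancel_left x y
  refine ⟨fun T x y hxy => congrArg f (h.const T x y hxy), ?_, ?_⟩
  · obtain ⟨E, hE⟩ := h.near
    have h1 : (⋃ a ∈ (E : Set P), {z : Λ | ∃ g : P, (f g)⁻¹ * f (g * a) = z}).Finite :=
      E.finite_toSet.biUnion fun a _ => hf.lip a
    refine ⟨h1.toFinset, fun T x hT => ?_⟩
    rw [Set.Finite.mem_toFinset, Set.mem_iUnion₂]
    exact ⟨_, hE T x hT, rr ∅ x, by rw [key]⟩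
  · intro E
    obtain ⟨N, hN⟩ := h.far (hf.prop_fin E.finite_toSet).toFinset
    refine ⟨N, fun x y hxy => hN x y ?_⟩
    rw [Set.Finite.mem_toFinset]
    exact ⟨rr ∅ x, by rw [key]; exact hxy⟩

end Pool.Agent.H4.BD
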