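import Pool.Agent.H4.BD.SDefs
import Pool.Agent.H93.AA.Defs
import Pool.Agent.H37.TM.Lift
import Pool.Agent.H73.LK.Defs
import Pool.Agent.H84.RX.Lst

/-!
# Project BD: Q1 for lattices of buildings. Definitions

`M : CoxeterMatrix S` (`S` finite), `W = M.Group`, `len` the length, `par M J` the parabolic subgroup `W_J`,
`Sph M J`: it is finite, `parF M J` its elements, `HL M j` the vanishing of the mod 2 homology of the nerve,
`nG M` the graph on the irreducible spherical sets `Irr M` (nested or orthogonal), `IsBuilding M δ`,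
`residue M δ J x`.
-/

set_option autoImplicit false

open Finset

namespace Pool.Agent.H4.BD

open Pool.Agent.H4.FC Pool.Agent.H78.RC Pool.Agent.H97.BLD Pool.Agent.H93.AA Pool.Agent.H37.TM

/-! ### Functions on pairs of cells -/

section gen

/-- the coboundary of a function on pairs of cells; `bd` is the boundary of a cell -/
noncomputable def dX {X : Type} (bd : X → (X →₀ ZMod 2)) (φ : X → X → ZMod 2) (x y : X) : ZMod 2 :=
  lin (fun x' => φ x' y) (bd x) + lin (fun y' => φ x y') (bd y)

/-- `y` is obtained from `x` by taking faces several times -/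
def Rch {X : Type} (bd : X → (X →₀ ZMod 2)) : X → X → Prop :=
  Relation.ReflTransGen fun x y => bd x y ≠ 0

/-- the coboundary of a function on lists -/
def dL {P : Type} (h : List P → ZMod 2) (l : List P) : ZMod 2 :=
  ∑ i ∈ range l.length, h (l.eraseIdx i)

end gen

/-! ### The Coxeter group -/

section cox

variable {S : Type} [Fintype S] [DecidableEq S]

open Classical in
/-- the first letters of `w` (the left descents) -/
noncomputable def fl (M : CoxeterMatrix S) (w : M.Group) : Finset S :=
  univ.filter fun s => len M (M.simple s * w) < len M w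

omit [Fintype S] [DecidableEq S] in
/-- all elements of `T` are right descents of `z`: `z` is the longest element of the coset `z W_T` -/
def Mx (M : CoxeterMatrix S) (T : Finset S) (z : M.Group) : Prop :=
  ∀ t ∈ T, len M (z * M.simple t) < len M z

open Classical in
omit [Fintype S] [DecidableEq S] in
/-- the longest elements of the cosets of `W_J` in the coset `z W_T` -/
noncomputable def cs (M : CoxeterMatrix S) (z : M.Group) (T J : Finset S) : Finset M.Group :=
  ((parF M T).image fun u => z * u).filter fun y => Mx M J y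

/-- the labels which are allowed at the letters -/
class VLb (S Lb : Type) : Type where
  /-- the label `q.2` is allowed at the letter `q.1` -/
  vl : S × Lb → Prop

variable {Lb : Type} [DecidableEq Lb] [VLb S Lb]

omit [Fintype S] [DecidableEq S] [DecidableEq Lb] in
/-- `a` is a labelling of the set of letters `A`: one label for every letter -/
def Lab (A : Finset S) (a : Finset (S × Lb)) : Prop :=
  (∀ q ∈ a, q.1 ∈ A) ∧ ∀ t ∈ A, ∃! j, (t, j) ∈ a

omit [Fintype S] [DecidableEq Lb] in
/-- the labels of the letters in `X` -/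
def rs (X : Finset S) (a : Finset (S × Lb)) : Finset (S × Lb) := a.filter fun q => q.1 ∈ X

/-- cells `(z, s, a)`: a coset `z W_s` (`z` its longest element), and labels `a` of the letters `fl M z` -/
abbrev Cel (M : CoxeterMatrix S) (Lb : Type) := M.Group × Finset S × Finset (S × Lb)

omit [DecidableEq Lb] in
/-- the face of a cell in the direction `v`, `y` the longest element of a coset of `W_(s \ v)` in `z W_s` -/
noncomputable def face (M : CoxeterMatrix S) (c : Cel M Lb) (v : S) (y : M.Group) : Cel M Lb :=
  (y, c.2.1.erase v, rs (fl M y) c.2.2)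

omit [DecidableEq Lb] in
/-- the boundary of a cell -/
noncomputable def bdC (M : CoxeterMatrix S) (c : Cel M Lb) : Cel M Lb →₀ ZMod 2 :=
  ∑ v ∈ c.2.1, ∑ y ∈ cs M c.1 c.2.1 (c.2.1.erase v), Finsupp.single (face M c v y) 1

/-- the cells which occur: the labels are allowed -/
def Vld (M : CoxeterMatrix S) (c : Cel M Lb) : Prop :=
  Sph M c.2.1 ∧ Mx M c.2.1 c.1 ∧ Lab (fl M c.1) c.2.2 ∧ ∀ q ∈ c.2.2, VLb.vl q

/-- the pairs of cells which occur: no common labelled letter -/
def Ok (M : CoxeterMatrix S) (c c' : Cel M Lb) : Prop := Vld M c ∧ Vld M c' ∧ Disjoint c.2.2 c'.2.2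

omit [Fintype S] [DecidableEq S] [DecidableEq Lb] in
/-- the base cell -/
def b0 (M : CoxeterMatrix S) (Lb : Type) : Cel M Lb := (1, ∅, ∅)

omit [Fintype S] [DecidableEq S] [DecidableEq Lb] in
/-- only finitely many pairs of cosets occur -/
def FinS {M : CoxeterMatrix S} (φ : Cel M Lb → Cel M Lb → ZMod 2) : Prop :=
  {q : M.Group × M.Group | ∃ s a t b, φ (q.1, s, a) (q.2, t, b) ≠ 0}.Finite

/-- Coherent coefficients on the pairs of labelled simplices of the nerve. -/
structure IsCoef (M : CoxeterMatrix S)
    (Q : (Finset (S × Lb) → Finset (S × Lb) → ZMod 2) → Finset S → Finset S → ZMod 2) : Prop where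
  add : ∀ g g' A B, Q (fun a b => g a b + g' a b) A B = Q g A B + Q g' A B
  congr : ∀ g g' A B, Sph M A → Sph M B →
    (∀ a b, Lab A a → Lab B b → (∀ q ∈ a, VLb.vl q) → (∀ q ∈ b, VLb.vl q) → Disjoint a b →
      g a b = g' a b) → Q g A B = Q g' A B
  left : ∀ g A A' B, Sph M A → Sph M B → A' ⊆ A → Q (fun a b => g (rs A' a) b) A B = Q g A' B
  right : ∀ g A B B', Sph M A → Sph M B → B' ⊆ B → Q (fun a b => g a (rs B' b)) A B = Q g A B'
  swap : ∀ g A B, Q g A B = Q (fun a b => g b a) B A

open Classical in
/-- the sum over all pairs of cells of the types `s`, `t` -/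
noncomputable def KK (M : CoxeterMatrix S)
    (Q : (Finset (S × Lb) → Finset (S × Lb) → ZMod 2) → Finset S → Finset S → ZMod 2)
    (φ : Cel M Lb → Cel M Lb → ZMod 2) (s t : Finset S) : ZMod 2 :=
  ∑ᶠ q : M.Group × M.Group, if Mx M s q.1 ∧ Mx M t q.2 then
    Q (fun a b => φ (q.1, s, a) (q.2, t, b)) (fl M q.1) (fl M q.2) else 0

end cox

/-! ### The building -/

section bld

variable {S Δ : Type}

/-- All panels are finite; the panel of type `s` of the chamber `c` has `q s c + 1` chambers. -/
def Reg (M : CoxeterMatrix S) (δ : Δ → Δ → M.Group) (q : S → Δ → ℕ) : Prop :=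
  ∀ s c, {d | δ c d = M.simple s}.Finite ∧ {d | δ c d = M.simple s}.ncard = q s c

/-- A set of chambers, closed towards `c`, which contains all the outer chambers of a panel with a new first
letter, and an odd number of the outer chambers of the other panels. -/
structure Sel (M : CoxeterMatrix S) (δ : Δ → Δ → M.Group) (c : Δ) (C : Set Δ) : Prop where
  base : c ∈ C
  down : ∀ x y u, δ x y = M.simple u → len M (δ c y) = len M (δ c x) + 1 → y ∈ C → x ∈ C
  new : ∀ x ∈ C, ∀ u t y, δ x y = M.simple u → len M (δ c x * M.simple u) = len M (δ c x) + 1 →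
    M.simple t * δ c x = δ c x * M.simple u → y ∈ C
  odd : ∀ x ∈ C, ∀ u, len M (δ c x * M.simple u) = len M (δ c x) + 1 →
    (∀ t, M.simple t * δ c x ≠ δ c x * M.simple u) → Odd {y | y ∈ C ∧ δ x y = M.simple u}.ncard

/-- the labels are neighbours of `c`, the allowed labels of a letter are different neighbours -/
def LabOk {Lb : Type} [VLb S Lb] (M : CoxeterMatrix S) (δ : Δ → Δ → M.Group) (c : Δ)
    (lab : S × Lb → Δ) : Prop :=
  (∀ q, δ c (lab q) = M.simple q.1) ∧
    ∀ t j j', VLb.vl (t, j) → VLb.vl (t, j') → lab (t, j) = lab (t, j') → j = j'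

/-- the chambers in the set `C` over the coset of the cell, with the first letters labelled as in the cell -/
def XX {Lb : Type} (M : CoxeterMatrix S) (δ : Δ → Δ → M.Group) (c : Δ) (lab : S × Lb → Δ) (C : Set Δ)
    (e : Cel M Lb) : Set Δ :=
  {x | x ∈ C ∧ e.1⁻¹ * δ c x ∈ par M e.2.1 ∧ ∀ q ∈ e.2.2, δ (lab q) x = M.simple q.1 * δ c x}

/-- Points of the group for the residues. -/
structure IsRr {P : Type} [Group P] (M : CoxeterMatrix S) (δ : Δ → Δ → M.Group)
    (rr : Finset S → Δ → P) : Prop where
  const : ∀ T x y, δ x y ∈ par M T → rr T x = rr T y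
  near : ∃ E : Finset P, ∀ T x, Sph M T → (rr ∅ x)⁻¹ * rr T x ∈ E
  far : ∀ E : Finset P, ∃ N : ℕ, ∀ x y, (rr ∅ x)⁻¹ * rr ∅ y ∈ E → len M (δ x y) ≤ N

end bld

section bld2

variable {S Δ : Type} [Fintype S] [DecidableEq S] {Lb : Type} [DecidableEq Lb] [VLb S Lb]

/-- The sum of the function `h` over the simplices `(R_∅(x), R_(T1)(x), …, R_s(x))`, `∅ ⊂ T1 ⊂ … ⊂ s` a maximal
flag, of the cube of the chamber `x` in the directions `s`. -/
noncomputable def cb {P : Type} (rr : Finset S → Δ → P) (x : Δ) (s : Finset S)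
    (h : List P → ZMod 2) : ZMod 2 :=
  if s = ∅ then h [rr ∅ x] else
    ∑ v ∈ s.attach, cb rr x (s.erase v.1) (fun l => h (l ++ [rr s x]))
termination_by s.card
decreasing_by exact card_erase_lt_of_mem v.2

open Classical in
/-- the intersection numbers of the cells of the building -/
noncomputable def hh {P : Type} (M : CoxeterMatrix S) (δ : Δ → Δ → M.Group) (c : Δ)
    (lab : S × Lb → Δ) (C : Set Δ) (rr : Finset S → Δ → P) (H : List P → List P → ZMod 2)
    (e e' : Cel M Lb) : ZMod 2 :=
  if Ok M e e' then ∑ᶠ x ∈ XX M δ c lab C e, ∑ᶠ y ∈ XX M δ c lab C e',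
    cb rr x e.2.1 (fun l => cb rr y e'.2.1 (fun l' => H l l')) else 0

end bld2

/-! ### Projections on the functions constant on residues -/

/-- The orthogonal projections on the functions which are constant on the residues of type `T`. -/
structure IsPT {S Δ : Type} (M : CoxeterMatrix S) (δ : Δ → Δ → M.Group)
    (PT : Finset S → lp (fun _ : Δ => ℂ) 2 →L[ℂ] lp (fun _ : Δ => ℂ) 2) : Prop where
  inV : ∀ T f x y, δ x y ∈ par M T → (PT T f) x = (PT T f) y
  fixV : ∀ T f, (∀ x y, δ x y ∈ par M T → f x = f y) → PT T f = f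
  sa : ∀ T f g, inner ℂ (PT T f) g = inner ℂ f (PT T g)

end Pool.Agent.H4.BD
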