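import Pool.Agent.H4.BD.FinM
import Pool.Agent.H4.BD.Coh
import Pool.Agent.H4.BD.Crs
import Pool.Agent.H8.BD.Dav

/-!
# Project BD: the theorem
-/

set_option autoImplicit false

open Finset

namespace Pool.Agent.H4.BD

open Pool.Agent.H4.FC Pool.Agent.H78.RC Pool.Agent.H97.BLD Pool.Agent.H37.TM Pool.Agent.H84.RX
  Pool.Agent.H65.RM

/-- without chambers there are no chains -/
theorem l2zeroB_of_empty {S Δ : Type} [Fintype S] [DecidableEq S] [IsEmpty Δ]
    (M : CoxeterMatrix S) (δ : Δ → Δ → M.Group) (i : ℕ) : L2ZeroB M δ i := by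
  intro ν _ z hz _ ε hε
  have h1 : ∀ U T R, z U T R = 0 := by
    intro U T R
    by_contra h
    obtain ⟨-, -, -, x, -⟩ := hz.supp U T R h
    exact isEmptyElim x
  refine ⟨fun _ _ _ => 0, ⟨fun U T R h => absurd rfl h, fun U T => ?_⟩, ?_⟩
  · have h2 : (fun _ : Set Δ => ‖(0 : ℂ)‖ ^ 2) = fun _ => 0 := by
      funext R
      simp
    rw [h2]
    exact summable_zero
  · have h2 : ∀ U T R, ‖z U T R - bdB M δ ν (fun _ _ _ => 0) U T R‖ ^ 2 = 0 := by
      intro U T R
      have h3 : ¬ (U ⊆ T ∧ ∃ x, R = residue M δ U x) := fun h => by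
        obtain ⟨-, x, -⟩ := h
        exact isEmptyElim x
      unfold bdB
      rw [h1, if_neg h3]
      simp
    simp only [h2, tsum_zero, sum_const_zero]
    exact hε

/-- **Group actions on buildings**: let the building of type `M` be thick and locally finite, such that for every
letter all panels have an even number of chambers or the letter is right-angled. If a group acts on it with finite
stabilizers and finitely many orbits of chambers, and embeds coarsely into a group which acts properly on an acyclic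
homology manifold of dimension `n`, then the `ℓ²`-homology of the Davis realization of the building vanishes above the degree `n / 2`. -/
theorem bld_singer {S : Type} [Fintype S] [DecidableEq S] (M : CoxeterMatrix S) (Δ : Type)
    (δ : Δ → Δ → M.Group) (P Λ U : Type) [Group P] [MulAction P Δ] [Group Λ] [DecidableEq U]
    [MulAction Λ U] (K B : Set (Finset U)) (n : ℕ) (hδ : IsBuilding M δ)
    (hfin : ∀ s c, {d | δ c d = M.simple s}.Finite)
    (hth : ∀ s c, 2 ≤ {d | δ c d = M.simple s}.ncard)
    (hpar : ∀ s, (∀ c, Odd {d | δ c d = M.simple s}.ncard) ∨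
      ∀ t, t ≠ s → M s t = 2 ∨ M s t = 0) (hP : GAct P M δ)
    (f : P → Λ) (hf : Pool.Agent.H10.CI.CoarseEmb f)
    (hM : Mfd K B n) (hK : Acyc K) (hA : PAct Λ K B) (i : ℕ) (hi : n < 2 * i) :
    L2ZeroB M δ i := by
  classical
  rcases isEmpty_or_nonempty Δ with hΔ | hΔ
  · exact l2zeroB_of_empty M δ i
  have hq : Reg M δ (fun s c => {d | δ c d = M.simple s}.ncard) := fun s c => ⟨hfin s c, rfl⟩
  obtain ⟨m, hm⟩ := Pool.Agent.H8.BD.exists_panel_bound hP hfin
  refine Pool.Agent.H8.BD.l2zeroB_of_ex hδ hfin hm i fun ν hν j hj U' => ?_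
  obtain ⟨rr, hrr⟩ := exists_rr hδ hq hP
  obtain ⟨H, hH⟩ := exists_inter_list hM hK hA
  obtain ⟨k, rfl⟩ : ∃ k, j = k + 1 := ⟨j - 1, by omega⟩
  exact ex_of_sub U' (hl_all hδ hq hth hpar (hrr.comp hf) hH (by omega) U') hν

end Pool.Agent.H4.BD
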