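import Pool.Agent.H4.BD.Cox

/-!
# Project BD: the boundary of the cells

Faces of valid cells are valid, the boundary of the boundary is zero, faces of faces have near positions.
-/

set_option autoImplicit false
set_option linter.unusedSectionVars false

open Finset

namespace Pool.Agent.H4.BD

open Pool.Agent.H4.FC Pool.Agent.H78.RC Pool.Agent.H97.BLD Pool.Agent.H37.TM

variable {S : Type} [Fintype S] [DecidableEq S] {M : CoxeterMatrix S}
  {Lb : Type} [DecidableEq Lb] [VLb S Lb]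

theorem rs_rs {X Y : Finset S} (h : Y ⊆ X) (a : Finset (S × Lb)) : rs Y (rs X a) = rs Y a := by
  ext q
  unfold rs
  rw [mem_filter, mem_filter, mem_filter, and_assoc]
  exact and_congr_right fun _ => ⟨fun h1 => h1.2, fun h1 => ⟨h h1, h1⟩⟩

theorem rs_subset (X : Finset S) (a : Finset (S × Lb)) : rs X a ⊆ a := filter_subset _ _

theorem Lab.rs {A B : Finset S} {a : Finset (S × Lb)} (ha : Lab A a) (h : B ⊆ A) :
    Lab B (rs B a) := by
  refine ⟨fun q hq => (mem_filter.1 hq).2, fun t ht => ?_⟩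
  obtain ⟨j, hj, hu⟩ := ha.2 t (h ht)
  exact ⟨j, mem_filter.2 ⟨hj, ht⟩, fun j' hj' => hu j' (mem_filter.1 hj').1⟩

theorem Lab.eq_empty {a : Finset (S × Lb)} (ha : Lab (∅ : Finset S) a) : a = ∅ :=
  eq_empty_of_forall_notMem fun q hq => notMem_empty _ (ha.1 q hq)

theorem Lab.empty_of {A : Finset S} (ha : Lab A (∅ : Finset (S × Lb))) : A = ∅ := by
  refine eq_empty_of_forall_notMem fun t ht => ?_
  obtain ⟨j, hj, -⟩ := ha.2 t ht
  exact notMem_empty _ hj

/-- the faces -/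
theorem bdC_ne {x x' : Cel M Lb} (h : bdC M x x' ≠ 0) :
    ∃ v ∈ x.2.1, ∃ y ∈ cs M x.1 x.2.1 (x.2.1.erase v), x' = face M x v y := by
  classical
  unfold bdC at h
  rw [Finsupp.finsetSum_apply] at h
  obtain ⟨v, hv, h1⟩ := exists_ne_zero_of_sum_ne_zero h
  rw [Finsupp.finsetSum_apply] at h1
  obtain ⟨y, hy, h2⟩ := exists_ne_zero_of_sum_ne_zero h1
  rw [Finsupp.single_apply] at h2
  refine ⟨v, hv, y, hy, ?_⟩
  by_contra h3
  exact h2 (if_neg fun h4 => h3 h4.symm)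

theorem vld_face {x : Cel M Lb} (hx : Vld M x) {v : S} {y : M.Group}
    (hy : y ∈ cs M x.1 x.2.1 (x.2.1.erase v)) : Vld M (face M x v y) := by
  rw [mem_cs hx.1] at hy
  exact ⟨hx.1.mono (erase_subset _ _), hy.2, hx.2.2.1.rs (fl_coset hx.2.1 hy.1),
    fun q hq => hx.2.2.2 q (rs_subset _ _ hq)⟩

theorem Ok.symm {x y : Cel M Lb} (h : Ok M x y) : Ok M y x := ⟨h.2.1, h.1, h.2.2.symm⟩

theorem ok_face {x y x' : Cel M Lb} (h : Ok M x y) (hx : bdC M x x' ≠ 0) : Ok M x' y := by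
  obtain ⟨v, -, z, hz, rfl⟩ := bdC_ne hx
  exact ⟨vld_face h.1 hz, h.2.1, disjoint_of_subset_left (rs_subset _ _) h.2.2⟩

theorem sz_face {x x' : Cel M Lb} (hx : bdC M x x' ≠ 0) : x'.2.1.card < x.2.1.card := by
  obtain ⟨v, hv, z, hz, rfl⟩ := bdC_ne hx
  exact card_erase_lt_of_mem hv

theorem ok_self {x : Cel M Lb} (h : Ok M x x) : x = b0 M Lb := by
  obtain ⟨⟨-, h2, h3⟩, -, h4⟩ := h
  obtain ⟨z, s, a⟩ := x
  have h5 : a = ∅ := disjoint_self_iff_empty a |>.1 h4
  subst h5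
  have h6 : z = 1 := (fl_eq_empty M).1 h3.1.empty_of
  subst h6
  have h7 : s = ∅ := by
    refine eq_empty_of_forall_notMem fun v hv => ?_
    have h8 := (mx_iff.1 h2) v hv
    rw [one_mul, len_simple, len_one] at h8
    omega
  subst h7
  rfl

theorem bdC_b0 : bdC M (b0 M Lb) = 0 := sum_empty

theorem vld_b0 : Vld M (b0 M Lb) := by
  refine ⟨?_, mx_empty 1, ?_⟩
  · exact (mx_empty (M := M) 1).sph
  · rw [show (b0 M Lb).1 = 1 from rfl, fl_one]
    exact ⟨⟨fun q hq => absurd hq (notMem_empty q), fun t ht => absurd ht (notMem_empty t)⟩,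
      fun q hq => absurd hq (notMem_empty q)⟩

theorem ok_b0 : Ok M (b0 M Lb) (b0 M Lb) := ⟨vld_b0, vld_b0, disjoint_empty_left _⟩

/-- a function on the boundary -/
theorem lin_bdC {N : Type} [AddCommGroup N] [Module (ZMod 2) N] (f : Cel M Lb → N) (x : Cel M Lb) :
    lin f (bdC M x) = ∑ v ∈ x.2.1, ∑ y ∈ cs M x.1 x.2.1 (x.2.1.erase v), f (face M x v y) := by
  unfold bdC
  rw [map_sum]
  refine sum_congr rfl fun v _ => ?_
  rw [map_sum]
  exact sum_congr rfl fun y _ => lin_single _ _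

theorem add_self_two {N : Type} [AddCommGroup N] [Module (ZMod 2) N] (x : N) : x + x = 0 := by
  have h1 : (2 : ZMod 2) • x = x + x := two_smul _ x
  rw [← h1, show (2 : ZMod 2) = 0 from rfl, zero_smul]

/-- symmetric double sums over the pairs of different elements -/
theorem sum_pairs {N : Type} [AddCommGroup N] [Module (ZMod 2) N] (s : Finset S)
    (H : S → S → N) (hH : ∀ v w, H v w = H w v) : ∑ v ∈ s, ∑ w ∈ s.erase v, H v w = 0 := by
  rw [sum_sigma']
  refine sum_involution (fun q _ => ⟨q.2, q.1⟩) ?_ ?_ ?_ ?_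
  · rintro ⟨v, w⟩ _
    show H v w + H w v = 0
    rw [hH w v]
    exact add_self_two _
  · rintro ⟨v, w⟩ hq _ h
    rw [mem_sigma] at hq
    have h1 : w = v := congrArg Sigma.fst h
    exact (mem_erase.1 hq.2).1 h1
  · rintro ⟨v, w⟩ hq
    rw [mem_sigma] at hq ⊢
    have h1 := mem_erase.1 hq.2
    exact ⟨h1.2, mem_erase.2 ⟨h1.1.symm, hq.1⟩⟩
  · rintro ⟨v, w⟩ _
    rfl

theorem face_face {x : Cel M Lb} (hx : Vld M x) {v w : S} {y y' : M.Group}
    (hy : y ∈ cs M x.1 x.2.1 (x.2.1.erase v))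
    (hy' : y' ∈ cs M y (x.2.1.erase v) ((x.2.1.erase v).erase w)) :
    face M (face M x v y) w y' = (y', (x.2.1.erase v).erase w, rs (fl M y') x.2.2) := by
  have hs' : Sph M (x.2.1.erase v) := hx.1.mono (erase_subset _ _)
  rw [mem_cs hx.1] at hy
  rw [mem_cs hs'] at hy'
  show (y', (x.2.1.erase v).erase w, rs (fl M y') (rs (fl M y) x.2.2)) = _
  rw [rs_rs (fl_coset hy.2 hy'.1)]

/-- the boundary of the boundary is zero -/
theorem bdC_bdC {x : Cel M Lb} (hx : Vld M x) : lin (bdC M) (bdC M x) = 0 := by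
  classical
  rw [lin_bdC]
  have h1 : ∀ v ∈ x.2.1, ∑ y ∈ cs M x.1 x.2.1 (x.2.1.erase v), bdC M (face M x v y) =
      ∑ w ∈ x.2.1.erase v, ∑ y' ∈ cs M x.1 x.2.1 ((x.2.1.erase v).erase w),
        Finsupp.single (((y', (x.2.1.erase v).erase w, rs (fl M y') x.2.2)) : Cel M Lb)
          (1 : ZMod 2) := by
    intro v _
    have h2 : ∀ y ∈ cs M x.1 x.2.1 (x.2.1.erase v), bdC M (face M x v y) =
        ∑ w ∈ x.2.1.erase v, ∑ y' ∈ cs M y (x.2.1.erase v) ((x.2.1.erase v).erase w),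
          Finsupp.single (((y', (x.2.1.erase v).erase w, rs (fl M y') x.2.2)) : Cel M Lb)
            (1 : ZMod 2) := by
      intro y hy
      show ∑ w ∈ x.2.1.erase v, ∑ y' ∈ cs M y (x.2.1.erase v) ((x.2.1.erase v).erase w),
        Finsupp.single (face M (face M x v y) w y') (1 : ZMod 2) = _
      refine sum_congr rfl fun w _ => sum_congr rfl fun y' hy' => ?_
      rw [face_face hx hy hy']
    rw [sum_congr rfl h2, sum_comm]
    refine sum_congr rfl fun w _ => ?_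
    exact (sum_cs hx.1 (erase_subset _ _) x.1 _).symm
  rw [sum_congr rfl h1]
  refine sum_pairs x.2.1 (fun v w => ∑ y' ∈ cs M x.1 x.2.1 ((x.2.1.erase v).erase w),
    Finsupp.single (((y', (x.2.1.erase v).erase w, rs (fl M y') x.2.2)) : Cel M Lb)
      (1 : ZMod 2)) fun v w => ?_
  rw [erase_right_comm]

/-! ### Supports -/

theorem mem_parF_sph {s : Finset S} {u : M.Group} (h : u ∈ parF M s) :
    Sph M s ∧ u ∈ par M s := by
  by_cases hf : (par M s : Set M.Group).Finite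
  · have hs : Sph M s := hf.to_subtype
    exact ⟨hs, (mem_parF hs u).1 h⟩
  · exfalso
    unfold parF at h
    rw [dif_neg hf] at h
    exact notMem_empty _ h

theorem rch_par {x x' : Cel M Lb} (h : Rch (bdC M) x x') :
    x = x' ∨ (Sph M x.2.1 ∧ x.1⁻¹ * x'.1 ∈ par M x.2.1 ∧ x'.2.1 ⊆ x.2.1) := by
  classical
  unfold Rch at h
  induction h with
  | refl => exact Or.inl rfl
  | tail h1 h2 ih =>
    rename_i y z
    obtain ⟨v, hv, w, hw, h3⟩ := bdC_ne h2
    unfold cs at hw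
    rw [mem_filter, mem_image] at hw
    obtain ⟨⟨u, hu, huw⟩, -⟩ := hw
    obtain ⟨hs, hu'⟩ := mem_parF_sph hu
    have h5 : z.1 = y.1 * u := by
      rw [h3, huw]
      rfl
    have h6 : z.2.1 ⊆ y.2.1 := by
      rw [h3]
      exact erase_subset _ _
    right
    rcases ih with rfl | ⟨h7, h8, h9⟩
    · refine ⟨hs, ?_, h6⟩
      rw [h5, inv_mul_cancel_left]
      exact hu'
    · refine ⟨h7, ?_, h6.trans h9⟩
      rw [h5, ← mul_assoc]
      exact mul_mem h8 (par_mono M h9 hu')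

/-- functions which are reached from a function with finite support -/
theorem finS_rch {D φ : Cel M Lb → Cel M Lb → ZMod 2} (hD : FinS D)
    (h : ∀ x y, φ x y ≠ 0 → ∃ x' y', Rch (bdC M) x x' ∧ Rch (bdC M) y y' ∧ D x' y' ≠ 0) :
    FinS φ := by
  classical
  have hU : (insert (1 : M.Group) (⋃ s : Finset S,
      ((parF M s : Finset M.Group) : Set M.Group))).Finite :=
    (Set.finite_iUnion fun s => finite_toSet _).insert _
  obtain ⟨U, hUdef⟩ : ∃ U : Set M.Group, U = insert (1 : M.Group) (⋃ s : Finset S,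
      ((parF M s : Finset M.Group) : Set M.Group)) := ⟨_, rfl⟩
  rw [← hUdef] at hU
  have key : ∀ x x' : Cel M Lb, Rch (bdC M) x x' → ∃ u ∈ U, x.1 = x'.1 * u⁻¹ := by
    intro x x' h1
    rcases rch_par h1 with rfl | ⟨h2, h3, -⟩
    · refine ⟨1, ?_, by rw [inv_one, mul_one]⟩
      rw [hUdef]
      exact Set.mem_insert _ _
    · refine ⟨x.1⁻¹ * x'.1, ?_, by group⟩
      rw [hUdef]
      right
      rw [Set.mem_iUnion]
      exact ⟨x.2.1, (mem_parF h2 _).2 h3⟩
  have hD0 : {q : M.Group × M.Group | ∃ s a t b, D (q.1, s, a) (q.2, t, b) ≠ 0}.Finite := hD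
  refine ((hD0.prod (hU.prod hU)).image fun q => (q.1.1 * q.2.1⁻¹, q.1.2 * q.2.2⁻¹)).subset ?_
  rintro ⟨z, z'⟩ ⟨s, a, t, b, hne⟩
  obtain ⟨x', y', hx, hy, hD'⟩ := h _ _ hne
  obtain ⟨u, hu, hu'⟩ := key _ _ hx
  obtain ⟨w, hw, hw'⟩ := key _ _ hy
  refine ⟨((x'.1, y'.1), (u, w)), ⟨?_, hu, hw⟩, ?_⟩
  · exact ⟨x'.2.1, x'.2.2, y'.2.1, y'.2.2, hD'⟩
  · exact Prod.ext hu'.symm hw'.symm

end Pool.Agent.H4.BD
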