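import Pool.Agent.H97.BLD.Bd
import Pool.Agent.H97.BLD.Wk
import Pool.Agent.H4.BD.Defs

/-!
# Project BD: parallel panels

`panel_equiv`: if all letters of `J` commute with `v` (and are different from `v`), then the `v`-panels of two chambers at
distance in `par M J` have the same number of chambers; `panel_proj`: in a residue of type `{v} ∪ J` every `v`-panel
contains exactly one chamber of every residue of type `J`.
-/

set_option autoImplicit false
set_option linter.unusedSectionVars false

open Finset

namespace Pool.Agent.H4.BD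

open Pool.Agent.H4.FC Pool.Agent.H78.RC Pool.Agent.H97.BLD

variable {S Δ : Type} [Fintype S] [DecidableEq S] {M : CoxeterMatrix S} {δ : Δ → Δ → M.Group}

private theorem selP_comm {v t : S} (h : M v t = 2) :
    M.simple v * M.simple t = M.simple t * M.simple v := by
  have h1 := M.toCoxeterSystem.simple_mul_simple_pow v t
  rw [M.toCoxeterSystem_simple, h, pow_two] at h1
  have h2 : M.simple v * M.simple t = (M.simple v * M.simple t)⁻¹ :=
    eq_inv_of_mul_eq_one_left h1
  rw [mul_inv_rev, simple_inv, simple_inv] at h2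
  exact h2

private theorem selP_not_mem {v : S} {J : Finset S} (hv : v ∉ J) : M.simple v ∉ par M J := by
  intro h
  refine hv (descent_par M h ?_)
  rw [simple_sq, len_one, len_simple]

private theorem selP_len {v t : S} (h : t ≠ v) : len M (M.simple t * M.simple v) = 2 := by
  rcases len_simple_mul M (M.simple v) t with h1 | h1
  · rw [h1, len_simple]
  · exfalso
    rw [len_simple] at h1
    have h2 : M.simple t * M.simple v = 1 := (len_eq_zero M).1 (by omega)
    rw [mul_eq_one_iff_eq_inv, simple_inv] at h2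
    exact selP_not_mem (M := M) (v := v) (J := {t}) (fun h3 => h (mem_singleton.1 h3).symm)
      (h2 ▸ simple_mem_par M (mem_singleton_self t))

/-- the map between two adjacent parallel panels -/
private theorem selP_map (h : IsBuilding M δ) {v t : S} (hne : t ≠ v) (hc : M v t = 2) {x y d : Δ}
    (hxy : δ x y = M.simple t) (hd : δ x d = M.simple v) :
    ∃! d', δ y d' = M.simple v ∧ δ d' d = M.simple t := by
  have h1 : δ y d = M.simple v * M.simple t := by
    have h2 := h.step_up t x y d (h.symm_simple hxy) (by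
      rw [hd, selP_len hne, len_simple])
    rw [h2, hd, selP_comm hc]
  have hle : Le M (M.simple v) (δ y d) := by
    unfold Le
    rw [h1, ← mul_assoc, simple_inv, simple_sq, one_mul, len_simple, len_simple, selP_comm hc,
      selP_len hne]
  have e1 : (M.simple v)⁻¹ * δ y d = M.simple t := by
    rw [h1, inv_mul_cancel_left]
  obtain ⟨d', h3, h4⟩ := h.exists_geo hle
  refine ⟨d', ⟨h3, h4.trans e1⟩, fun d'' hd'' => ?_⟩
  exact h.geo_unique hle hd''.1 (hd''.2.trans e1.symm) h3 h4

private theorem selP_adj (h : IsBuilding M δ) {v t : S} (hne : t ≠ v) (hc : M v t = 2) {x y : Δ}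
    (hxy : δ x y = M.simple t) :
    Nonempty ({d | δ x d = M.simple v} ≃ {d | δ y d = M.simple v}) := by
  have hyx := h.symm_simple hxy
  choose f hf hfu using fun d : {d | δ x d = M.simple v} => selP_map h hne hc hxy d.2
  choose g hg hgu using fun d : {d | δ y d = M.simple v} => selP_map h hne hc hyx d.2
  refine ⟨⟨fun d => ⟨f d, (hf d).1⟩, fun d => ⟨g d, (hg d).1⟩, fun d => ?_, fun d => ?_⟩⟩
  · apply Subtype.ext
    exact (hgu ⟨f d, (hf d).1⟩ d.1 ⟨d.2, h.symm_simple (hf d).2⟩).symm
  · apply Subtype.ext
    exact (hfu ⟨g d, (hg d).1⟩ d.1 ⟨d.2, h.symm_simple (hg d).2⟩).symm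

/-- **Parallel panels.** -/
theorem panel_equiv (h : IsBuilding M δ) {v : S} {J : Finset S} (hJ : ∀ t ∈ J, t ≠ v ∧ M v t = 2)
    {x y : Δ} (hxy : δ x y ∈ par M J) :
    Nonempty ({d | δ x d = M.simple v} ≃ {d | δ y d = M.simple v}) := by
  have key : ∀ w ∈ par M J, ∀ x, δ x y = w →
      Nonempty ({d | δ x d = M.simple v} ≃ {d | δ y d = M.simple v}) := by
    refine par_induction M J ?_ ?_
    · intro x hx
      have h1 : x = y := (h.eq_one x y).1 hx
      rw [h1]
      exact ⟨Equiv.refl _⟩
    · intro s hs w ih x hx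
      obtain ⟨x', h1, h2⟩ := h.exists_step s x y
      have h3 : δ x' y = w := by
        rw [h2, hx, ← mul_assoc, simple_sq, one_mul]
      obtain ⟨e⟩ := ih x' h3
      obtain ⟨e'⟩ := selP_adj h (hJ s hs).1 (hJ s hs).2 (h.symm_simple h1)
      exact ⟨e'.trans e⟩
  exact key _ hxy x rfl

theorem panel_ncard (h : IsBuilding M δ) {v : S} {J : Finset S} (hJ : ∀ t ∈ J, t ≠ v ∧ M v t = 2)
    {x y : Δ} (hxy : δ x y ∈ par M J) :
    {d | δ x d = M.simple v}.ncard = {d | δ y d = M.simple v}.ncard := by
  obtain ⟨e⟩ := panel_equiv h hJ hxy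
  exact Set.ncard_congr' e

/-- the elements of the subgroup of the letters `v` and `J` -/
theorem mem_par_insert {v : S} {J : Finset S} (hJ : ∀ t ∈ J, t ≠ v ∧ M v t = 2) {w : M.Group}
    (hw : w ∈ par M (insert v J)) : w ∈ par M J ∨ w * M.simple v ∈ par M J := by
  have hcom : ∀ p ∈ par M J, M.simple v * p = p * M.simple v := by
    refine par_induction M J ?_ ?_
    · rw [mul_one, one_mul]
    · intro t ht p ih
      rw [← mul_assoc, selP_comm (hJ t ht).2, mul_assoc, ih, mul_assoc]
  refine par_induction M (insert v J) (p := fun w => w ∈ par M J ∨ w * M.simple v ∈ par M J)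
    (Or.inl (one_mem _)) ?_ w hw
  intro t ht w ih
  rw [mem_insert] at ht
  rcases ht with rfl | ht
  · rcases ih with h1 | h1
    · right
      rw [hcom w h1, mul_assoc, simple_sq, mul_one]
      exact h1
    · left
      have h2 := hcom _ h1
      rw [mul_assoc, simple_sq, mul_one] at h2
      have h3 : M.simple t * w = M.simple t * (w * M.simple t) * M.simple t := by
        rw [mul_assoc, mul_assoc, simple_sq, mul_one]
      rw [h3, hcom _ h1, mul_assoc, simple_sq, mul_one]
      exact h1
  · rcases ih with h1 | h1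
    · exact Or.inl (mul_mem (simple_mem_par M ht) h1)
    · right
      rw [mul_assoc]
      exact mul_mem (simple_mem_par M ht) h1

/-- a panel contains exactly one chamber of a parallel class -/
theorem panel_proj (h : IsBuilding M δ) {v : S} {J : Finset S} (hJ : ∀ t ∈ J, t ≠ v ∧ M v t = 2)
    {e x : Δ} (hx : δ e x ∈ par M (insert v J)) :
    ∃! d, (d = x ∨ δ x d = M.simple v) ∧ δ e d ∈ par M J := by
  have hvJ : v ∉ J := fun hv => (hJ v hv).1 rfl
  obtain ⟨d, hd1, hd2⟩ : ∃ d, (d = x ∨ δ x d = M.simple v) ∧ δ e d ∈ par M J := by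
    rcases mem_par_insert hJ hx with h1 | h1
    · exact ⟨x, Or.inl rfl, h1⟩
    · obtain ⟨d, h2, h3⟩ := h.exists_stepR v e x
      exact ⟨d, Or.inr h2, h3 ▸ h1⟩
  refine ⟨d, ⟨hd1, hd2⟩, ?_⟩
  rintro d' ⟨h1', h2'⟩
  have h3 : δ d d' ∈ par M J := h.par_trans (by rw [h.symm e d]; exact inv_mem hd2) h2'
  have h4 : δ d d' = 1 ∨ δ d d' = M.simple v := by
    have h5 : δ d x ∈ par M {v} := by
      rcases hd1 with rfl | hd1
      · rw [h.self]
        exact one_mem _
      · rw [h.symm_simple hd1]
        exact simple_mem_par M (mem_singleton_self v)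
    have h6 : δ x d' ∈ par M {v} := by
      rcases h1' with rfl | h1'
      · rw [h.self]
        exact one_mem _
      · rw [h1']
        exact simple_mem_par M (mem_singleton_self v)
    have h7 := h.par_trans h5 h6
    refine par_induction M {v} (p := fun w => w = 1 ∨ w = M.simple v) (Or.inl rfl) ?_ _ h7
    intro u hu w hw
    rw [mem_singleton] at hu
    subst hu
    rcases hw with rfl | rfl
    · exact Or.inr (mul_one _)
    · exact Or.inl (simple_sq M u)
  rcases h4 with h4 | h4
  · exact ((h.eq_one d d').1 h4).symm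
  · exact absurd (h4 ▸ h3) (selP_not_mem hvJ)

end Pool.Agent.H4.BD
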