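import Pool.Agent.H4.BD.SelA
import Pool.Agent.H4.BD.SelP
import Pool.Agent.H65.RA.Poly
import Pool.Agent.H85.VK.Coch

/-!
# Project BD: the coefficients

A right-angled letter (a letter in `R`) has two labels, the other letters have three labels `0`, `1`, `2`. For
`v ∈ A ∩ B` the pair of labels of `v` is one of the pairs of different labels; the letters in a set `D` of right-angled
letters in `A \ B` or `B \ A`, such that `(A ∩ B) ∪ D` is spherical, have an arbitrary label; the other letters have the
label `0`. The coefficient is the value of the polynomial `FS` of `(A ∩ B) ∪ D` at the set of the letters in `A ∩ B` whose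
pair is one of `(0, 1)`, `(2, 1)`, `(2, 0)` and the letters in `D ∩ B`.
-/

set_option autoImplicit false
set_option linter.unusedSectionVars false

open Finset

namespace Pool.Agent.H4.BD

open Pool.Agent.H4.FC Pool.Agent.H78.RC Pool.Agent.H65.RA Pool.Agent.H85.VK

variable {S : Type} [Fintype S] [DecidableEq S]

/-- the ordered pairs of different labels -/
def K3 : Finset (Fin 3 × Fin 3) := univ.filter fun p => p.1 ≠ p.2

/-- a half of the pairs -/
def s3 (p : Fin 3 × Fin 3) : Bool := decide (p = (0, 1) ∨ p = (2, 1) ∨ p = (2, 0))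

/-- the pairs of labels of the letters -/
def WF (R E D : Finset S) (v : S) : Finset (Fin 3 × Fin 3) :=
  if v ∈ E then if v ∈ R then {(0, 1), (1, 0)} else K3
  else if v ∈ D then {(0, 0), (1, 1)} else {(0, 0)}

/-- the pairs of labellings -/
def LbF (R E D : Finset S) : Finset (S → Fin 3 × Fin 3) := Fintype.piFinset (WF R E D)

/-- a labelling -/
def lbl (A : Finset S) (a : S → Fin 3) : Finset (S × Fin 3) := A.image fun v => (v, a v)

/-- the letters whose pair is in the half -/
def TF (E : Finset S) (F : S → Fin 3 × Fin 3) : Finset S := E.filter fun v => s3 (F v) = true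

theorem mem_lbl {A : Finset S} {a : S → Fin 3} {q : S × Fin 3} :
    q ∈ lbl A a ↔ q.1 ∈ A ∧ q.2 = a q.1 := by
  unfold lbl
  rw [mem_image]
  constructor
  · rintro ⟨v, hv, rfl⟩
    exact ⟨hv, rfl⟩
  · rintro ⟨h1, h2⟩
    exact ⟨q.1, h1, Prod.ext rfl h2.symm⟩

theorem lbl_congr {A : Finset S} {a a' : S → Fin 3} (h : ∀ v ∈ A, a v = a' v) :
    lbl A a = lbl A a' := image_congr fun v hv => by rw [h v hv]

theorem lab_lbl (A : Finset S) (a : S → Fin 3) : Lab A (lbl A a) :=
  ⟨fun q hq => (mem_lbl.1 hq).1, fun t ht => ⟨a t, mem_lbl.2 ⟨ht, rfl⟩,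
    fun j hj => (mem_lbl.1 hj).2⟩⟩

theorem rs_lbl {A A' : Finset S} (h : A' ⊆ A) (a : S → Fin 3) : rs A' (lbl A a) = lbl A' a := by
  ext q
  unfold rs
  rw [mem_filter, mem_lbl, mem_lbl]
  exact ⟨fun h1 => ⟨h1.2, h1.1.2⟩, fun h1 => ⟨⟨h h1.1, h1.2⟩, h1.1⟩⟩

theorem TF_subset (E : Finset S) (F : S → Fin 3 × Fin 3) : TF E F ⊆ E := filter_subset _ _

/-- the sum over the labels of one letter -/
theorem sum_pi (W : S → Finset (Fin 3 × Fin 3)) (v : S) (f : (S → Fin 3 × Fin 3) → ZMod 2) :
    ∑ F ∈ Fintype.piFinset W, f F =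
      ∑ F ∈ Fintype.piFinset (Function.update W v {(0, 0)}), ∑ p ∈ W v,
        f (Function.update F v p) := by
  rw [← sum_product']
  refine sum_bij' (fun F _ => (Function.update F v (0, 0), F v))
    (fun Fp _ => Function.update Fp.1 v Fp.2) ?_ ?_ ?_ ?_ ?_
  · intro F hF
    rw [Fintype.mem_piFinset] at hF
    refine mem_product.2 ⟨Fintype.mem_piFinset.2 fun u => ?_, hF v⟩
    by_cases huv : u = v
    · subst huv
      simp
    · simp only [Function.update_of_ne huv]
      exact hF u
  · rintro ⟨F, p⟩ hF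
    obtain ⟨h1, h2⟩ := mem_product.1 hF
    rw [Fintype.mem_piFinset] at h1
    refine Fintype.mem_piFinset.2 fun u => ?_
    by_cases huv : u = v
    · subst huv
      simpa using h2
    · have h3 := h1 u
      simp only [Function.update_of_ne huv] at h3 ⊢
      exact h3
  · intro F _
    simp
  · rintro ⟨F, p⟩ hF
    obtain ⟨h1, -⟩ := mem_product.1 hF
    have h2 := Fintype.mem_piFinset.1 h1 v
    rw [Function.update_self, mem_singleton] at h2
    have h2' : F v = (0, 0) := h2
    refine Prod.ext ?_ ?_
    · show Function.update (Function.update F v p) v (0, 0) = F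
      rw [Function.update_idem, ← h2', Function.update_eq_self]
    · show Function.update F v p v = p
      rw [Function.update_self]
  · intro F _
    simp

theorem sum_K3 (f : Fin 3 × Fin 3 → ZMod 2) :
    ∑ p ∈ K3, f p = f (0, 1) + f (0, 2) + f (1, 0) + f (1, 2) + f (2, 0) + f (2, 1) := by
  have h : K3 = {(0, 1), (0, 2), (1, 0), (1, 2), (2, 0), (2, 1)} := by decide
  rw [h]
  simp [add_assoc]

theorem s3_swap {p : Fin 3 × Fin 3} (h : p ∈ K3) : s3 p.swap = !(s3 p) := by
  revert p
  decide

theorem WF_erase {R E D : Finset S} {v : S} (hE : v ∉ E) (hD : v ∉ D) :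
    Function.update (WF R (insert v E) D) v {(0, 0)} = WF R E D := by
  funext u
  by_cases huv : u = v
  · subst huv
    rw [Function.update_self]
    unfold WF
    rw [if_neg hE, if_neg hD]
  · rw [Function.update_of_ne huv]
    unfold WF
    simp only [mem_insert, huv, false_or]

theorem WF_erase' {R E D : Finset S} {v : S} (hE : v ∉ E) (hD : v ∉ D) :
    Function.update (WF R E (insert v D)) v {(0, 0)} = WF R E D := by
  funext u
  by_cases huv : u = v
  · subst huv
    rw [Function.update_self]
    unfold WF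
    rw [if_neg hE, if_neg hD]
  · rw [Function.update_of_ne huv]
    unfold WF
    simp only [mem_insert, huv, false_or]

theorem sum_LbF {R E D : Finset S} {v : S} (hE : v ∉ E) (hD : v ∉ D) (hR : v ∉ R)
    (f : (S → Fin 3 × Fin 3) → ZMod 2) :
    ∑ F ∈ LbF R (insert v E) D, f F = ∑ F ∈ LbF R E D, ∑ p ∈ K3, f (Function.update F v p) := by
  unfold LbF
  rw [sum_pi _ v, WF_erase hE hD]
  have h1 : WF R (insert v E) D v = K3 := by
    unfold WF
    rw [if_pos (mem_insert_self v E), if_neg hR]
  rw [h1]

theorem sum_LbF_R {R E D : Finset S} {v : S} (hE : v ∉ E) (hD : v ∉ D) (hR : v ∈ R)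
    (f : (S → Fin 3 × Fin 3) → ZMod 2) :
    ∑ F ∈ LbF R (insert v E) D, f F = ∑ F ∈ LbF R E D,
      (f (Function.update F v (0, 1)) + f (Function.update F v (1, 0))) := by
  unfold LbF
  rw [sum_pi _ v, WF_erase hE hD]
  have h1 : WF R (insert v E) D v = {(0, 1), (1, 0)} := by
    unfold WF
    rw [if_pos (mem_insert_self v E), if_pos hR]
  rw [h1]
  refine sum_congr rfl fun F _ => ?_
  rw [sum_pair (by decide)]

theorem sum_LbF_D {R E D : Finset S} {v : S} (hE : v ∉ E) (hD : v ∉ D)
    (f : (S → Fin 3 × Fin 3) → ZMod 2) :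
    ∑ F ∈ LbF R E (insert v D), f F = ∑ F ∈ LbF R E D,
      (f (Function.update F v (0, 0)) + f (Function.update F v (1, 1))) := by
  unfold LbF
  rw [sum_pi _ v, WF_erase' hE hD]
  have h1 : WF R E (insert v D) v = {(0, 0), (1, 1)} := by
    unfold WF
    rw [if_neg hE, if_pos (mem_insert_self v D)]
  rw [h1]
  refine sum_congr rfl fun F _ => ?_
  rw [sum_pair (by decide)]

theorem mem_LbF_zero {R E D : Finset S} {F : S → Fin 3 × Fin 3} (hF : F ∈ LbF R E D) {v : S}
    (hE : v ∉ E) (hD : v ∉ D) : F v = (0, 0) := by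
  have h1 := Fintype.mem_piFinset.1 hF v
  unfold WF at h1
  rw [if_neg hE, if_neg hD] at h1
  exact mem_singleton.1 h1

theorem mem_LbF_ne {R E D : Finset S} {F : S → Fin 3 × Fin 3} (hF : F ∈ LbF R E D) {v : S}
    (hE : v ∈ E) : F v ∈ K3 := by
  have h1 := Fintype.mem_piFinset.1 hF v
  unfold WF at h1
  rw [if_pos hE] at h1
  by_cases hR : v ∈ R
  · rw [if_pos hR, mem_insert, mem_singleton] at h1
    rcases h1 with h1 | h1
    · rw [h1]
      decide
    · rw [h1]
      decide
  · rwa [if_neg hR] at h1

/-- the labels of right-angled letters are not `2` -/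
theorem mem_LbF_R {R E D : Finset S} {F : S → Fin 3 × Fin 3} (hF : F ∈ LbF R E D) {v : S}
    (hR : v ∈ R) : (F v).1 ≠ 2 ∧ (F v).2 ≠ 2 := by
  have h1 := Fintype.mem_piFinset.1 hF v
  unfold WF at h1
  rw [if_pos hR] at h1
  split_ifs at h1
  · rw [mem_insert, mem_singleton] at h1
    rcases h1 with h1 | h1 <;> rw [h1] <;> decide
  · rw [mem_insert, mem_singleton] at h1
    rcases h1 with h1 | h1 <;> rw [h1] <;> decide
  · rw [mem_singleton] at h1
    rw [h1]
    decide

/-- the summand -/
def tm (e : S → ℕ) (x : Finset S → ZMod 2) (k : ℕ) (R E D A B : Finset S)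
    (g : Finset (S × Fin 3) → Finset (S × Fin 3) → ZMod 2) : ZMod 2 :=
  ∑ F ∈ LbF R E D, FS e x k (E ∪ D) (TF E F ∪ (D ∩ B)) *
    g (lbl A fun v => (F v).1) (lbl B fun v => (F v).2)

open Classical in
/-- the coefficients -/
noncomputable def Qh (M : CoxeterMatrix S) (R : Finset S) (e : S → ℕ) (x : Finset S → ZMod 2)
    (k : ℕ) (g : Finset (S × Fin 3) → Finset (S × Fin 3) → ZMod 2) (A B : Finset S) : ZMod 2 :=
  if Sph M A ∧ Sph M B then ∑ D ∈ (R ∩ ((A \ B) ∪ (B \ A))).powerset,
    if Sph M ((A ∩ B) ∪ D) then tm e x k R (A ∩ B) D A B g else 0 else 0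

variable {M : CoxeterMatrix S} {R : Finset S} {e : S → ℕ} {x : Finset S → ZMod 2} {k : ℕ}

open Classical in
theorem Qh_pos (g : Finset (S × Fin 3) → Finset (S × Fin 3) → ZMod 2) {A B : Finset S}
    (hA : Sph M A) (hB : Sph M B) : Qh M R e x k g A B =
      ∑ D ∈ (R ∩ ((A \ B) ∪ (B \ A))).powerset,
        if Sph M ((A ∩ B) ∪ D) then tm e x k R (A ∩ B) D A B g else 0 := if_pos ⟨hA, hB⟩

theorem Qh_congr (g g' : Finset (S × Fin 3) → Finset (S × Fin 3) → ZMod 2) (A B : Finset S)
    (h : ∀ a b, Lab A a → Lab B b → Disjoint a b → (∀ q ∈ a, q.1 ∈ R → q.2 ≠ 2) →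
      (∀ q ∈ b, q.1 ∈ R → q.2 ≠ 2) → g a b = g' a b) :
    Qh M R e x k g A B = Qh M R e x k g' A B := by
  classical
  unfold Qh
  by_cases h0 : Sph M A ∧ Sph M B
  · rw [if_pos h0, if_pos h0]
    refine sum_congr rfl fun D hD => ?_
    by_cases h1 : Sph M ((A ∩ B) ∪ D)
    · rw [if_pos h1, if_pos h1]
      unfold tm
      refine sum_congr rfl fun F hF => ?_
      rw [h _ _ (lab_lbl A _) (lab_lbl B _)]
      · rw [disjoint_left]
        intro q hq hq'
        obtain ⟨h2, h3⟩ := mem_lbl.1 hq
        obtain ⟨h4, h5⟩ := mem_lbl.1 hq'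
        have h6 := mem_LbF_ne hF (mem_inter.2 ⟨h2, h4⟩)
        unfold K3 at h6
        exact (mem_filter.1 h6).2 (h3.symm.trans h5)
      · intro q hq hR
        rw [(mem_lbl.1 hq).2]
        exact (mem_LbF_R hF hR).1
      · intro q hq hR
        rw [(mem_lbl.1 hq).2]
        exact (mem_LbF_R hF hR).2
    · rw [if_neg h1, if_neg h1]
  · rw [if_neg h0, if_neg h0]

theorem LbF_swap {E D : Finset S} (f : (S → Fin 3 × Fin 3) → ZMod 2) :
    ∑ F ∈ LbF R E D, f F = ∑ F ∈ LbF R E D, f fun v => (F v).swap := by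
  have h00 : ∀ v, ∀ p ∈ WF R E D v, p.swap ∈ WF R E D v := by
    intro v p
    unfold WF
    split_ifs
    · revert p
      decide
    · revert p
      decide
    · revert p
      decide
    · revert p
      decide
  have h0 : ∀ F ∈ LbF R E D, (fun v => (F v).swap) ∈ LbF R E D := by
    intro F hF
    exact Fintype.mem_piFinset.2 fun v => h00 v _ (Fintype.mem_piFinset.1 hF v)
  refine sum_nbij' (fun F v => (F v).swap) (fun F v => (F v).swap) h0 h0 ?_ ?_ ?_
  · intro F _
    funext v
    exact Prod.swap_swap _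
  · intro F _
    funext v
    exact Prod.swap_swap _
  · intro F _
    rfl

theorem tm_swap (he : Function.Injective e)
    (hx : ∀ D, Sph M D → D.card = k + 2 → ∑ v ∈ D, x (D.erase v) = 0) {A B D : Finset S}
    (hD : D ⊆ (A \ B) ∪ (B \ A)) (hS : Sph M ((A ∩ B) ∪ D))
    (g : Finset (S × Fin 3) → Finset (S × Fin 3) → ZMod 2) :
    tm e x k R (A ∩ B) D A B g = tm e x k R (B ∩ A) D B A fun a b => g b a := by
  classical
  unfold tm
  rw [inter_comm B A, LbF_swap]
  refine sum_congr rfl fun F hF => ?_
  have h1 : TF (A ∩ B) (fun v => (F v).swap) ∪ (D ∩ B) =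
      ((A ∩ B) ∪ D) \ (TF (A ∩ B) F ∪ (D ∩ A)) := by
    ext v
    have h2 : v ∈ D → (v ∈ A ∧ v ∉ B) ∨ (v ∈ B ∧ v ∉ A) := by
      intro hv
      have h3 := hD hv
      rw [mem_union, mem_sdiff, mem_sdiff] at h3
      exact h3
    unfold TF
    simp only [mem_union, mem_sdiff, mem_filter, mem_inter]
    by_cases hv : v ∈ A ∩ B
    · have h3 := s3_swap (mem_LbF_ne hF hv)
      rw [mem_inter] at hv
      rw [h3]
      rcases h4 : s3 (F v) with _ | _
      · simp only [Bool.not_false, hv.1, hv.2]
        tauto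
      · simp only [Bool.not_true, hv.1, hv.2]
        have h5 : v ∉ D := fun h => by
          rcases h2 h with h6 | h6
          · exact h6.2 hv.2
          · exact h6.2 hv.1
        simp [h5]
    · rw [mem_inter] at hv
      tauto
  rw [h1, FS_compl e he x k ((A ∩ B) ∪ D) (TF (A ∩ B) F ∪ (D ∩ A)) fun D' hD' hc =>
    hx D' (hS.mono hD') hc]
  rfl

theorem Qh_swap (he : Function.Injective e)
    (hx : ∀ D, Sph M D → D.card = k + 2 → ∑ v ∈ D, x (D.erase v) = 0)
    (g : Finset (S × Fin 3) → Finset (S × Fin 3) → ZMod 2) (A B : Finset S) :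
    Qh M R e x k g A B = Qh M R e x k (fun a b => g b a) B A := by
  classical
  by_cases h : Sph M A ∧ Sph M B
  · rw [Qh_pos g h.1 h.2, Qh_pos _ h.2 h.1, union_comm (B \ A) (A \ B), inter_comm B A]
    refine sum_congr rfl fun D hD => ?_
    have hD' : D ⊆ (A \ B) ∪ (B \ A) := (mem_powerset.1 hD).trans inter_subset_right
    by_cases h1 : Sph M ((A ∩ B) ∪ D)
    · rw [if_pos h1, if_pos h1, tm_swap he hx hD' h1, inter_comm B A]
    · rw [if_neg h1, if_neg h1]
  · unfold Qh
    rw [if_neg h, if_neg fun h' => h ⟨h'.2, h'.1⟩]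

/-! ### Forgetting a label -/

/-- the labels of `B` after a change of the label of `v` -/
theorem lbl_update (B : Finset S) (F : S → Fin 3 × Fin 3) (v : S) (p : Fin 3 × Fin 3) :
    (lbl B fun u => (Function.update F v p u).2) =
      lbl B (Function.update (fun u => (F u).2) v p.2) := by
  refine lbl_congr fun u _ => ?_
  by_cases huv : u = v
  · rw [huv, Function.update_self, Function.update_self]
  · rw [Function.update_of_ne huv, Function.update_of_ne huv]

theorem lbl_update_erase (A : Finset S) (F : S → Fin 3 × Fin 3) (v : S) (p : Fin 3 × Fin 3) :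
    (lbl (A.erase v) fun u => (Function.update F v p u).1) =
      lbl (A.erase v) fun u => (F u).1 := by
  refine lbl_congr fun u hu => ?_
  rw [Function.update_of_ne (mem_erase.1 hu).1]

theorem lbl_zero {F : S → Fin 3 × Fin 3} {v : S} (h : F v = (0, 0)) (B : Finset S) :
    (lbl B fun u => (F u).2) = lbl B (Function.update (fun u => (F u).2) v 0) := by
  refine lbl_congr fun u _ => ?_
  by_cases huv : u = v
  · rw [huv, Function.update_self, h]
  · rw [Function.update_of_ne huv]

theorem TF_update {E : Finset S} {v : S} (hE : v ∉ E) (F : S → Fin 3 × Fin 3)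
    (p : Fin 3 × Fin 3) : TF E (Function.update F v p) = TF E F := by
  refine filter_congr fun u hu => ?_
  have huv : u ≠ v := fun h => hE (h ▸ hu)
  rw [Function.update_of_ne huv]

theorem TF_insert {E : Finset S} {v : S} (hE : v ∉ E) (F : S → Fin 3 × Fin 3)
    (p : Fin 3 × Fin 3) : TF (insert v E) (Function.update F v p) =
      if s3 p = true then insert v (TF E F) else TF E F := by
  have h5 := TF_update hE F p
  unfold TF at h5 ⊢
  rw [filter_insert, Function.update_self, h5]

/-- a common letter which is not right-angled -/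
theorem tm_forget {E D A B : Finset S} {v : S} (hE : v ∉ E) (hD : v ∉ D) (hR : v ∉ R)
    (g : Finset (S × Fin 3) → Finset (S × Fin 3) → ZMod 2) :
    (∑ F ∈ LbF R (insert v E) D, FS e x k (insert v E ∪ D) (TF (insert v E) F ∪ (D ∩ B)) *
      g (lbl (A.erase v) fun u => (F u).1) (lbl B fun u => (F u).2)) =
      tm e x k R E D (A.erase v) B g := by
  classical
  unfold tm
  rw [sum_LbF hE hD hR]
  refine sum_congr rfl fun F hF => ?_
  have hvT : v ∉ TF E F ∪ (D ∩ B) := fun h => by
    rcases mem_union.1 h with h | h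
    · exact hE (TF_subset E F h)
    · exact hD (mem_inter.1 h).1
  have h4 : ∀ p : Fin 3 × Fin 3, TF (insert v E) (Function.update F v p) ∪ (D ∩ B) =
      if s3 p = true then insert v (TF E F ∪ (D ∩ B)) else TF E F ∪ (D ∩ B) := by
    intro p
    rw [TF_insert hE]
    split_ifs
    · rw [insert_union]
    · rfl
  have h6 := FS_toggle e x k (mem_insert_self v (E ∪ D)) hvT
  have hvS : v ∉ E ∪ D := fun h => (mem_union.1 h).elim hE hD
  rw [erase_insert hvS, ← insert_union] at h6
  simp only [lbl_update_erase, lbl_update, h4, sum_K3]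
  rw [lbl_zero (mem_LbF_zero hF hE hD) B, ← h6]
  have h7 : s3 (0, 1) = true ∧ s3 (0, 2) = false ∧ s3 (1, 0) = false ∧ s3 (1, 2) = false ∧
      s3 (2, 0) = true ∧ s3 (2, 1) = true := by decide
  obtain ⟨a1, a2, a3, a4, a5, a6⟩ := h7
  simp only [a1, a2, a3, a4, a5, a6, if_true, if_false, Bool.false_eq_true]
  generalize FS e x k (insert v E ∪ D) (insert v (TF E F ∪ (D ∩ B))) = p1
  generalize FS e x k (insert v E ∪ D) (TF E F ∪ (D ∩ B)) = p2
  generalize g (lbl (A.erase v) fun u => (F u).1)
    (lbl B (Function.update (fun u => (F u).2) v 0)) = g0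
  generalize g (lbl (A.erase v) fun u => (F u).1)
    (lbl B (Function.update (fun u => (F u).2) v 1)) = g1
  generalize g (lbl (A.erase v) fun u => (F u).1)
    (lbl B (Function.update (fun u => (F u).2) v 2)) = g2
  revert p1 p2 g0 g1 g2
  decide

/-- a common right-angled letter -/
theorem tm_forget_R {E D A B : Finset S} {v : S} (hE : v ∉ E) (hD : v ∉ D) (hR : v ∈ R)
    (hvB : v ∈ B) (g : Finset (S × Fin 3) → Finset (S × Fin 3) → ZMod 2) :
    (∑ F ∈ LbF R (insert v E) D, FS e x k (insert v E ∪ D) (TF (insert v E) F ∪ (D ∩ B)) *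
      g (lbl (A.erase v) fun u => (F u).1) (lbl B fun u => (F u).2)) =
      tm e x k R E D (A.erase v) B g + tm e x k R E (insert v D) (A.erase v) B g := by
  classical
  unfold tm
  rw [sum_LbF_R hE hD hR, sum_LbF_D hE hD, ← sum_add_distrib]
  refine sum_congr rfl fun F hF => ?_
  have hvT : v ∉ TF E F ∪ (D ∩ B) := fun h => by
    rcases mem_union.1 h with h | h
    · exact hE (TF_subset E F h)
    · exact hD (mem_inter.1 h).1
  have h4 : ∀ p : Fin 3 × Fin 3, TF (insert v E) (Function.update F v p) ∪ (D ∩ B) =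
      if s3 p = true then insert v (TF E F ∪ (D ∩ B)) else TF E F ∪ (D ∩ B) := by
    intro p
    rw [TF_insert hE]
    split_ifs
    · rw [insert_union]
    · rfl
  have h5 : ∀ p : Fin 3 × Fin 3, TF E (Function.update F v p) ∪ (insert v D ∩ B) =
      insert v (TF E F ∪ (D ∩ B)) := by
    intro p
    rw [TF_update hE, insert_inter_of_mem hvB, union_insert]
  have h8 : E ∪ insert v D = insert v E ∪ D := by
    rw [union_insert, insert_union]
  have h6 := FS_toggle e x k (mem_insert_self v (E ∪ D)) hvT
  have hvS : v ∉ E ∪ D := fun h => (mem_union.1 h).elim hE hD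
  rw [erase_insert hvS, ← insert_union] at h6
  simp only [lbl_update_erase, lbl_update, h4, h5, h8]
  rw [lbl_zero (mem_LbF_zero hF hE hD) B, ← h6]
  have h7 : s3 (0, 1) = true ∧ s3 (1, 0) = false := by decide
  obtain ⟨a1, a3⟩ := h7
  simp only [a1, a3, if_true, if_false, Bool.false_eq_true]
  generalize FS e x k (insert v E ∪ D) (insert v (TF E F ∪ (D ∩ B))) = p1
  generalize FS e x k (insert v E ∪ D) (TF E F ∪ (D ∩ B)) = p2
  generalize g (lbl (A.erase v) fun u => (F u).1)
    (lbl B (Function.update (fun u => (F u).2) v 0)) = g0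
  generalize g (lbl (A.erase v) fun u => (F u).1)
    (lbl B (Function.update (fun u => (F u).2) v 1)) = g1
  revert p1 p2 g0 g1
  decide

/-- a free right-angled letter of `A` -/
theorem tm_forget_D {E D A B : Finset S} {v : S} (hE : v ∉ E) (hD : v ∉ D) (hvB : v ∉ B)
    (g : Finset (S × Fin 3) → Finset (S × Fin 3) → ZMod 2) :
    (∑ F ∈ LbF R E (insert v D), FS e x k (E ∪ insert v D) (TF E F ∪ (insert v D ∩ B)) *
      g (lbl (A.erase v) fun u => (F u).1) (lbl B fun u => (F u).2)) = 0 := by
  classical
  rw [sum_LbF_D hE hD]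
  refine sum_eq_zero fun F hF => ?_
  have h1 : ∀ p : Fin 3 × Fin 3, (lbl B fun u => (Function.update F v p u).2) =
      lbl B fun u => (F u).2 := by
    intro p
    refine lbl_congr fun u hu => ?_
    have huv : u ≠ v := fun h => hvB (h ▸ hu)
    rw [Function.update_of_ne huv]
  simp only [lbl_update_erase, h1, TF_update hE]
  exact z2_add_self _

/-- a right-angled letter can be added to a spherical set if it commutes with all elements -/
theorem sph_insert_ra {d : S} (hd : ∀ t, t ≠ d → M d t = 2 ∨ M d t = 0) {X : Finset S}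
    (hX : Sph M X) (h : ∀ t ∈ X, t ≠ d → M d t ≠ 0) : Sph M (insert d X) := by
  classical
  by_cases hdX : d ∈ X
  · rwa [insert_eq_of_mem hdX]
  have hJ : ∀ t ∈ X, t ≠ d ∧ M d t = 2 := by
    intro t ht
    have h1 : t ≠ d := fun h => hdX (h ▸ ht)
    exact ⟨h1, (hd t h1).resolve_right (h t ht h1)⟩
  have hfin : ((par M X : Set M.Group) ∪ (fun w => w * M.simple d) '' (par M X : Set M.Group)).Finite := by
    have h1 : (par M X : Set M.Group).Finite := by
      have : Finite (par M X) := hX
      exact Set.toFinite _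
    exact h1.union (h1.image _)
  have h2 : (par M (insert d X) : Set M.Group).Finite := by
    refine hfin.subset fun w hw => ?_
    rcases mem_par_insert hJ hw with h3 | h3
    · exact Or.inl h3
    · refine Or.inr ⟨w * M.simple d, h3, ?_⟩
      show w * M.simple d * M.simple d = w
      rw [mul_assoc, simple_sq, mul_one]
  exact h2.to_subtype

/-- the condition on the free letters does not change -/
theorem sph_iff {A B D E : Finset S} (hRA : ∀ v ∈ R, ∀ t, t ≠ v → M v t = 2 ∨ M v t = 0)
    (hA : Sph M A) (hB : Sph M B) {v : S} (hAB : A ∩ B = insert v E)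
    (hD : D ⊆ R ∩ ((A \ B) ∪ (B \ A))) : Sph M (insert v E ∪ D) ↔ Sph M (E ∪ D) := by
  classical
  refine ⟨fun h => h.mono (union_subset_union (subset_insert v E) (Subset.refl D)),
    fun h => ?_⟩
  have key : ∀ D' ⊆ D, Sph M (insert v E ∪ D') := by
    intro D'
    induction D' using Finset.induction_on with
    | empty =>
      intro _
      rw [union_empty, ← hAB]
      exact hA.mono inter_subset_left
    | insert d D' hd ih =>
      intro hD'
      have h1 := ih ((subset_insert d D').trans hD')
      have hdD := hD' (mem_insert_self d D')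
      have h2 := mem_inter.1 (hD hdD)
      rw [union_insert]
      refine sph_insert_ra (hRA d h2.1) h1 fun t ht htd => ?_
      rcases mem_union.1 ht with h3 | h3
      · rw [← hAB, mem_inter] at h3
        rcases mem_union.1 h2.2 with h4 | h4
        · refine sph_pair htd.symm (hA.mono ?_)
          intro u hu
          rw [mem_insert, mem_singleton] at hu
          rcases hu with rfl | rfl
          · exact (mem_sdiff.1 h4).1
          · exact h3.1
        · refine sph_pair htd.symm (hB.mono ?_)
          intro u hu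
          rw [mem_insert, mem_singleton] at hu
          rcases hu with rfl | rfl
          · exact (mem_sdiff.1 h4).1
          · exact h3.2
      · refine sph_pair htd.symm (h.mono ?_)
        intro u hu
        rw [mem_insert, mem_singleton] at hu
        rcases hu with rfl | rfl
        · exact mem_union_right _ hdD
        · exact mem_union_right _ (hD' (mem_insert_of_mem h3))
  exact key D (Subset.refl D)

/-- forget the label of a letter in the first variable -/
theorem Qh_forget (hRA : ∀ v ∈ R, ∀ t, t ≠ v → M v t = 2 ∨ M v t = 0)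
    (g : Finset (S × Fin 3) → Finset (S × Fin 3) → ZMod 2) {A B : Finset S}
    (hA : Sph M A) (hB : Sph M B) {v : S} (hv : v ∈ A) :
    Qh M R e x k (fun a b => g (rs (A.erase v) a) b) A B = Qh M R e x k g (A.erase v) B := by
  classical
  rw [Qh_pos _ hA hB, Qh_pos g (hA.mono (erase_subset _ _)) hB]
  have htm : ∀ E D, tm e x k R E D A B (fun a b => g (rs (A.erase v) a) b) =
      ∑ F ∈ LbF R E D, FS e x k (E ∪ D) (TF E F ∪ (D ∩ B)) *
        g (lbl (A.erase v) fun u => (F u).1) (lbl B fun u => (F u).2) := by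
    intro E D
    unfold tm
    simp only [rs_lbl (erase_subset v A)]
  simp only [htm]
  by_cases hvB : v ∈ B
  · obtain ⟨E, hEE⟩ : ∃ E, E = A.erase v ∩ B := ⟨_, rfl⟩
    have hAB : A ∩ B = insert v E := by
      rw [hEE]
      ext u
      rw [mem_insert, mem_inter, mem_inter, mem_erase]
      constructor
      · rintro ⟨h1, h2⟩
        by_cases huv : u = v
        · exact Or.inl huv
        · exact Or.inr ⟨⟨huv, h1⟩, h2⟩
      · rintro (rfl | ⟨⟨-, h1⟩, h2⟩)
        · exact ⟨hv, hvB⟩
        · exact ⟨h1, h2⟩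
    have hE : v ∉ E := by
      rw [hEE]
      exact fun h => notMem_erase v A (mem_inter.1 h).1
    rw [← hEE, hAB]
    have hX : v ∉ R ∩ ((A \ B) ∪ (B \ A)) := by
      intro h
      rcases mem_union.1 (mem_inter.1 h).2 with h1 | h1
      · exact (mem_sdiff.1 h1).2 hvB
      · exact (mem_sdiff.1 h1).2 hv
    by_cases hR : v ∈ R
    · have hX' : R ∩ ((A.erase v \ B) ∪ (B \ A.erase v)) =
          insert v (R ∩ ((A \ B) ∪ (B \ A))) := by
        ext u
        simp only [mem_inter, mem_union, mem_sdiff, mem_erase, mem_insert]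
        by_cases huv : u = v
        · subst huv
          simp [hR, hvB]
        · simp [huv]
      rw [hX', sum_powerset_insert hX, ← sum_add_distrib]
      refine sum_congr rfl fun D hD => ?_
      rw [mem_powerset] at hD
      have hvD : v ∉ D := fun h => hX (hD h)
      have h8 : E ∪ insert v D = insert v E ∪ D := by
        rw [union_insert, insert_union]
      rw [h8]
      by_cases hS : Sph M (insert v E ∪ D)
      · rw [if_pos hS, if_pos ((sph_iff hRA hA hB hAB hD).1 hS), if_pos hS,
          tm_forget_R hE hvD hR hvB]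
      · rw [if_neg hS, if_neg fun h => hS ((sph_iff hRA hA hB hAB hD).2 h), if_neg hS, add_zero]
    · have hX' : R ∩ ((A.erase v \ B) ∪ (B \ A.erase v)) = R ∩ ((A \ B) ∪ (B \ A)) := by
        ext u
        simp only [mem_inter, mem_union, mem_sdiff, mem_erase]
        by_cases huv : u = v
        · subst huv
          simp [hR]
        · simp [huv]
      rw [hX']
      refine sum_congr rfl fun D hD => ?_
      rw [mem_powerset] at hD
      have hvD : v ∉ D := fun h => hX (hD h)
      by_cases hS : Sph M (insert v E ∪ D)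
      · rw [if_pos hS, if_pos ((sph_iff hRA hA hB hAB hD).1 hS), tm_forget hE hvD hR]
      · rw [if_neg hS, if_neg fun h => hS ((sph_iff hRA hA hB hAB hD).2 h)]
  · have hAB : A.erase v ∩ B = A ∩ B := by
      ext u
      rw [mem_inter, mem_inter, mem_erase]
      constructor
      · rintro ⟨⟨-, h1⟩, h2⟩
        exact ⟨h1, h2⟩
      · rintro ⟨h1, h2⟩
        exact ⟨⟨fun h => hvB (h ▸ h2), h1⟩, h2⟩
    rw [hAB]
    have hE : v ∉ A ∩ B := fun h => hvB (mem_inter.1 h).2
    have hX : v ∉ R ∩ ((A.erase v \ B) ∪ (B \ A.erase v)) := by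
      intro h
      rcases mem_union.1 (mem_inter.1 h).2 with h1 | h1
      · exact notMem_erase v A (mem_sdiff.1 h1).1
      · exact hvB (mem_sdiff.1 h1).1
    by_cases hR : v ∈ R
    · have hX' : R ∩ ((A \ B) ∪ (B \ A)) =
          insert v (R ∩ ((A.erase v \ B) ∪ (B \ A.erase v))) := by
        ext u
        simp only [mem_inter, mem_union, mem_sdiff, mem_erase, mem_insert]
        by_cases huv : u = v
        · subst huv
          simp [hR, hvB, hv]
        · simp [huv]
      rw [hX', sum_powerset_insert hX, ← sum_add_distrib]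
      refine sum_congr rfl fun D hD => ?_
      rw [mem_powerset] at hD
      have hvD : v ∉ D := fun h => hX (hD h)
      have h1 : (if Sph M (A ∩ B ∪ insert v D) then
          ∑ F ∈ LbF R (A ∩ B) (insert v D), FS e x k (A ∩ B ∪ insert v D)
            (TF (A ∩ B) F ∪ (insert v D ∩ B)) *
            g (lbl (A.erase v) fun u => (F u).1) (lbl B fun u => (F u).2) else 0) = 0 := by
        rw [tm_forget_D hE hvD hvB, ite_self]
      rw [h1, add_zero]
      rfl
    · have hX' : R ∩ ((A.erase v \ B) ∪ (B \ A.erase v)) = R ∩ ((A \ B) ∪ (B \ A)) := by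
        ext u
        simp only [mem_inter, mem_union, mem_sdiff, mem_erase]
        by_cases huv : u = v
        · subst huv
          simp [hR]
        · simp [huv]
      rw [hX']
      rfl

end Pool.Agent.H4.BD
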