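import Pool.Agent.H4.BD.CoefH

/-!
# Project BD: the value of the coefficients at the alternating function
-/

set_option autoImplicit false
set_option linter.unusedSectionVars false

open Finset

namespace Pool.Agent.H4.BD

open Pool.Agent.H4.FC Pool.Agent.H78.RC Pool.Agent.H65.RA Pool.Agent.H85.VK

variable {S : Type} [Fintype S] [DecidableEq S] {M : CoxeterMatrix S} {R : Finset S}
  {e : S → ℕ} {x : Finset S → ZMod 2} {k : ℕ}

/-- the lexicographic order of the labelled letters -/
def m3 (e : S → ℕ) (q : S × Fin 3) : ℕ := 3 * e q.1 + q.2.1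

theorem m3_inj (he : Function.Injective e) : Function.Injective (m3 e) := by
  rintro ⟨v, i⟩ ⟨u, j⟩ h
  unfold m3 at h
  have h1 : e v = e u := by
    have := i.2
    have := j.2
    simp only at h
    omega
  have h2 : v = u := he h1
  subst h2
  have h3 : i = j := Fin.ext (by simp only at h; omega)
  rw [h3]

theorem lbl_insert (a : S) (C : Finset S) (f : S → Fin 3) :
    lbl (insert a C) f = insert (a, f a) (lbl C f) := image_insert _ _ _

/-- the value for one more letter before the others -/
theorem eP_step {a : S} {C : Finset S} (hlt : ∀ u ∈ C, e a < e u) (f f' : S → Fin 3)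
    {i j : Fin 3} (hij : i ≠ j) :
    eP (m3 e) (insert (a, i) (lbl C f)) (insert (a, j) (lbl C f')) =
      if i < j then eP (m3 e) (lbl C f) (lbl C f') else 0 := by
  classical
  have haC : a ∉ C := fun h => lt_irrefl _ (hlt a h)
  have hrest : ∀ (c : Fin 3), ∀ q ∈ lbl C f ∪ lbl C f', m3 e (a, c) < m3 e q := by
    intro c q hq
    have hq1 : q.1 ∈ C := by
      rcases mem_union.1 hq with h | h
      · exact (mem_lbl.1 h).1
      · exact (mem_lbl.1 h).1
    have h1 := hlt q.1 hq1
    have h2 := c.2
    unfold m3
    simp only
    omega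
  unfold eP
  by_cases hlt' : i < j
  · rw [if_pos hlt']
    have h1 : insert (a, i) (lbl C f) ∪ insert (a, j) (lbl C f') =
        insert (a, i) (insert (a, j) (lbl C f ∪ lbl C f')) := by
      ext q
      simp only [mem_union, mem_insert]
      tauto
    rw [h1, altF_insert, altF_insert]
    · rw [if_pos (by simp), if_pos, Bool.not_not]
      · refine altF_congr fun q hq => ?_
        have h2 : q ≠ (a, i) := by
          rintro rfl
          exact absurd (hrest i _ hq) (lt_irrefl _)
        simp [h2]
      · have h2 : (a, j) ∉ insert (a, i) (lbl C f) := by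
          intro h
          rcases mem_insert.1 h with h | h
          · exact hij (Prod.ext_iff.1 h).2.symm
          · exact haC (mem_lbl.1 h).1
        simp [h2]
    · exact hrest j
    · intro q hq
      rcases mem_insert.1 hq with rfl | h
      · unfold m3
        have h3 : i.1 < j.1 := hlt'
        simp only
        omega
      · exact hrest i q h
  · rw [if_neg hlt']
    have hji : j < i := lt_of_le_of_ne (not_lt.1 hlt') hij.symm
    have h1 : insert (a, i) (lbl C f) ∪ insert (a, j) (lbl C f') =
        insert (a, j) (insert (a, i) (lbl C f ∪ lbl C f')) := by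
      ext q
      simp only [mem_union, mem_insert]
      tauto
    rw [h1, altF_insert]
    · rw [if_neg]
      have h2 : (a, j) ∉ insert (a, i) (lbl C f) := by
        intro h
        rcases mem_insert.1 h with h | h
        · exact hij (Prod.ext_iff.1 h).2.symm
        · exact haC (mem_lbl.1 h).1
      simp [h2]
    · intro q hq
      rcases mem_insert.1 hq with rfl | h
      · unfold m3
        have h3 : j.1 < i.1 := hji
        simp only
        omega
      · exact hrest j q h

theorem sum_eP3 (he : Function.Injective e) (A : Finset S) :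
    ∑ F ∈ LbF R A ∅, eP (m3 e) (lbl A fun v => (F v).1) (lbl A fun v => (F v).2) = 1 := by
  classical
  induction A using Finset.induction_on_min_value e with
  | empty =>
    have h1 : LbF R (∅ : Finset S) ∅ = {fun _ => (0, 0)} := by
      ext F
      unfold LbF WF
      rw [Fintype.mem_piFinset, mem_singleton]
      simp only [notMem_empty, if_false, mem_singleton]
      exact ⟨fun h => funext h, fun h v => congrFun h v⟩
    rw [h1, sum_singleton]
    have h2 : ∀ a : S → Fin 3, lbl (∅ : Finset S) a = ∅ := fun a => image_empty _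
    rw [h2]
    unfold eP
    rw [union_empty]
    exact if_pos (altP_empty _ _ _)
  | insert a C ha hmin ih =>
    have hlt : ∀ u ∈ C, e a < e u := fun u hu =>
      lt_of_le_of_ne (hmin u hu) fun h => ha (he h ▸ hu)
    have h1 : ∀ (F : S → Fin 3 × Fin 3) (p : Fin 3 × Fin 3), p.1 ≠ p.2 →
        eP (m3 e) (lbl (insert a C) fun v => (Function.update F a p v).1)
        (lbl (insert a C) fun v => (Function.update F a p v).2) =
        if p.1 < p.2 then eP (m3 e) (lbl C fun v => (F v).1) (lbl C fun v => (F v).2) else 0 := by
      intro F p hp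
      rw [lbl_insert, lbl_insert]
      simp only [Function.update_self]
      have h2 : (lbl C fun v => (Function.update F a p v).1) = lbl C fun v => (F v).1 :=
        lbl_congr fun v hv => by
          rw [Function.update_of_ne (fun h => ha (h ▸ hv) : v ≠ a)]
      have h3 : (lbl C fun v => (Function.update F a p v).2) = lbl C fun v => (F v).2 :=
        lbl_congr fun v hv => by
          rw [Function.update_of_ne (fun h => ha (h ▸ hv) : v ≠ a)]
      rw [h2, h3]
      exact eP_step hlt _ _ hp
    rw [← ih]
    by_cases hR : a ∈ R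
    · rw [sum_LbF_R ha (notMem_empty a) hR]
      refine sum_congr rfl fun F _ => ?_
      rw [h1 F (0, 1) (by decide), h1 F (1, 0) (by decide), if_pos (by decide),
        if_neg (by decide), add_zero]
    · rw [sum_LbF ha (notMem_empty a) hR]
      refine sum_congr rfl fun F _ => ?_
      rw [sum_K3, h1 F (0, 1) (by decide), h1 F (0, 2) (by decide), h1 F (1, 0) (by decide),
        h1 F (1, 2) (by decide), h1 F (2, 0) (by decide), h1 F (2, 1) (by decide),
        if_pos (by decide), if_pos (by decide), if_neg (by decide), if_pos (by decide),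
        if_neg (by decide), if_neg (by decide)]
      generalize eP (m3 e) (lbl C fun v => (F v).1) (lbl C fun v => (F v).2) = y
      revert y
      decide

/-- `altF` depends only on the order and the colours -/
theorem altF_map {W : Type} [DecidableEq W] {ν : W → ℕ} {χ χ' : W → Bool} {b : Bool}
    {P : Finset W} (h : W → W)
    (hm : ∀ y ∈ P, ∀ z ∈ P, ν (h y) < ν (h z) ↔ ν y < ν z) (hχ : ∀ y ∈ P, χ' (h y) = χ y) :
    altF ν χ' b (P.image h) = altF ν χ b P := by
  classical
  have h1 : AltP ν χ' b (P.image h) ↔ AltP ν χ b P := by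
    unfold AltP
    simp only [forall_mem_image]
    constructor
    · rintro ⟨h2, h3⟩
      refine ⟨fun y hy z hz hyz hc => ?_, fun y hy hc => ?_⟩
      · rw [← hχ y hy, ← hχ z hz]
        refine h2 hy hz ((hm y hy z hz).2 hyz) fun w hw hw' => ?_
        exact hc w hw ⟨(hm y hy w hw).1 hw'.1, (hm w hw z hz).1 hw'.2⟩
      · rw [← hχ y hy]
        refine h3 hy fun w hw => ?_
        by_contra h4
        exact absurd (hc w hw) (not_le.2 ((hm w hw y hy).1 (not_le.1 h4)))
    · rintro ⟨h2, h3⟩
      refine ⟨fun y hy z hz hyz hc => ?_, fun y hy hc => ?_⟩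
      · rw [hχ y hy, hχ z hz]
        refine h2 y hy z hz ((hm y hy z hz).1 hyz) fun w hw hw' => ?_
        exact hc hw ⟨(hm y hy w hw).2 hw'.1, (hm w hw z hz).2 hw'.2⟩
      · rw [hχ y hy]
        refine h3 y hy fun w hw => ?_
        by_contra h4
        exact absurd (hc hw) (not_le.2 ((hm w hw y hy).2 (not_le.1 h4)))
  unfold altF
  exact if_congr h1 rfl rfl

/-- the label of a letter which is not common does not matter -/
theorem eP_indep (he : Function.Injective e) {A B : Finset S} {v : S} (hv : v ∉ A ∩ B)
    (F : S → Fin 3 × Fin 3) (i : Fin 3) :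
    eP (m3 e) (lbl A fun u => (Function.update F v (i, i) u).1)
      (lbl B fun u => (Function.update F v (i, i) u).2) =
      eP (m3 e) (lbl A fun u => (F u).1) (lbl B fun u => (F u).2) := by
  classical
  obtain ⟨h, hh⟩ : ∃ h : S × Fin 3 → S × Fin 3, h = fun q => if q.1 = v then (v, i) else q :=
    ⟨_, rfl⟩
  have hv1 : ∀ q : S × Fin 3, q.1 = v → h q = (v, i) := fun q hq => by rw [hh]; exact if_pos hq
  have hv2 : ∀ q : S × Fin 3, q.1 ≠ v → h q = q := fun q hq => by rw [hh]; exact if_neg hq
  have hfst : ∀ q : S × Fin 3, (h q).1 = q.1 := by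
    intro q
    by_cases hq : q.1 = v
    · rw [hv1 q hq, hq]
    · rw [hv2 q hq]
  have himA : (lbl A fun u => (Function.update F v (i, i) u).1) =
      (lbl A fun u => (F u).1).image h := by
    unfold lbl
    rw [image_image]
    refine image_congr fun u _ => ?_
    show (u, (Function.update F v (i, i) u).1) = h (u, (F u).1)
    by_cases huv : u = v
    · rw [hv1 _ huv, huv, Function.update_self]
    · rw [hv2 _ huv, Function.update_of_ne huv]
  have himB : (lbl B fun u => (Function.update F v (i, i) u).2) =
      (lbl B fun u => (F u).2).image h := by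
    unfold lbl
    rw [image_image]
    refine image_congr fun u _ => ?_
    show (u, (Function.update F v (i, i) u).2) = h (u, (F u).2)
    by_cases huv : u = v
    · rw [hv1 _ huv, huv, Function.update_self]
    · rw [hv2 _ huv, Function.update_of_ne huv]
  unfold eP
  rw [himA, himB, ← image_union]
  -- two elements over `v` are equal
  have huniq : ∀ y ∈ (lbl A fun u => (F u).1) ∪ (lbl B fun u => (F u).2),
      ∀ z ∈ (lbl A fun u => (F u).1) ∪ (lbl B fun u => (F u).2), y.1 = v → z.1 = v → y = z := by
    intro y hy z hz hy1 hz1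
    rw [mem_union, mem_lbl, mem_lbl, hy1] at hy
    rw [mem_union, mem_lbl, mem_lbl, hz1] at hz
    refine Prod.ext (hy1.trans hz1.symm) ?_
    rcases hy with hy | hy <;> rcases hz with hz | hz
    · rw [hy.2, hz.2]
    · exact absurd (mem_inter.2 ⟨hy.1, hz.1⟩) hv
    · exact absurd (mem_inter.2 ⟨hz.1, hy.1⟩) hv
    · rw [hy.2, hz.2]
  have hlt : ∀ y z : S × Fin 3, y.1 ≠ z.1 → (m3 e y < m3 e z ↔ e y.1 < e z.1) := by
    intro y z hyz
    have h1 : e y.1 ≠ e z.1 := fun h' => hyz (he h')
    have h2 := y.2.2
    have h3 := z.2.2
    unfold m3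
    omega
  refine altF_map h ?_ ?_
  · intro y hy z hz
    by_cases hyz : y.1 = z.1
    · by_cases hyv : y.1 = v
      · rw [huniq y hy z hz hyv (hyz.symm.trans hyv)]
        simp
      · rw [hv2 y hyv, hv2 z (fun h' => hyv (hyz.trans h'))]
    · rw [hlt _ _ (by rw [hfst, hfst]; exact hyz), hlt _ _ hyz, hfst, hfst]
  · intro y hy
    rw [decide_eq_decide]
    constructor
    · intro h1
      obtain ⟨y', hy', hyy⟩ := mem_image.1 h1
      have h2 : y'.1 = y.1 := by rw [← hfst y', hyy, hfst]
      by_cases hyv : y.1 = v
      · rw [← huniq y' (mem_union_left _ hy') y hy (h2.trans hyv) hyv]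
        exact hy'
      · rw [hv2 y hyv, hv2 y' (fun h' => hyv (h2.symm.trans h'))] at hyy
        rwa [← hyy]
    · intro h1
      exact mem_image_of_mem h h1

/-- the value of the coefficients at the alternating function -/
theorem Qh_eP (he : Function.Injective e) {A B : Finset S} (hA : Sph M A) (hB : Sph M B)
    (hAc : A.card = k + 1) (hBc : B.card = k + 1) :
    Qh M R e x k (eP (m3 e)) A B = if A = B then x A else 0 := by
  classical
  rw [Qh_pos _ hA hB]
  by_cases hAB : A = B
  · subst hAB
    rw [if_pos rfl]
    have h1 : R ∩ ((A \ A) ∪ (A \ A)) = ∅ := by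
      rw [Finset.sdiff_self, union_empty, inter_empty]
    rw [h1, powerset_empty, sum_singleton, inter_self, union_empty, if_pos hA]
    unfold tm
    have h2 : ∀ F ∈ LbF R A ∅, FS e x k (A ∪ ∅) (TF A F ∪ (∅ ∩ A)) *
        eP (m3 e) (lbl A fun v => (F v).1) (lbl A fun v => (F v).2) =
        x A * eP (m3 e) (lbl A fun v => (F v).1) (lbl A fun v => (F v).2) := by
      intro F _
      rw [union_empty, FS_top e x k _ hAc]
    rw [sum_congr rfl h2, ← mul_sum, sum_eP3 he A, mul_one]
  · rw [if_neg hAB]
    refine sum_eq_zero fun D hD => ?_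
    rw [mem_powerset] at hD
    by_cases hS : Sph M ((A ∩ B) ∪ D)
    · rw [if_pos hS]
      rcases D.eq_empty_or_nonempty with rfl | ⟨v, hvD⟩
      · unfold tm
        have h1 : (A ∩ B).card ≤ k := by
          by_contra h
          have h3 : A ∩ B = A := eq_of_subset_of_card_le inter_subset_left (by
            rw [hAc]
            omega)
          have h4 : A = B := eq_of_subset_of_card_le (inter_eq_left.1 h3) (by
            rw [hAc, hBc])
          exact hAB h4
        refine sum_eq_zero fun F _ => ?_
        rw [union_empty, FS_small e x k _ h1, zero_mul]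
      · obtain ⟨D', hvD', rfl⟩ : ∃ D', v ∉ D' ∧ D = insert v D' :=
          ⟨D.erase v, notMem_erase v D, (insert_erase hvD).symm⟩
        have h1 := (mem_inter.1 (hD hvD)).2
        have hE : v ∉ A ∩ B := by
          intro h
          rw [mem_inter] at h
          rcases mem_union.1 h1 with h2 | h2
          · exact (mem_sdiff.1 h2).2 h.2
          · exact (mem_sdiff.1 h2).2 h.1
        unfold tm
        rw [sum_LbF_D hE hvD']
        refine sum_eq_zero fun F _ => ?_
        rw [TF_update hE, TF_update hE, eP_indep he hE, eP_indep he hE]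
        exact z2_add_self _
    · rw [if_neg hS]

end Pool.Agent.H4.BD
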