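import Pool.Agent.H4.BD.CoefI

/-!
# Project BD: coherent coefficients for every nerve

Two labels at the right-angled letters and three labels at the other letters are enough.
-/

set_option autoImplicit false
set_option linter.unusedSectionVars false

open Finset

namespace Pool.Agent.H4.BD

open Pool.Agent.H4.FC Pool.Agent.H78.RC Pool.Agent.H93.AA Pool.Agent.H65.RA Pool.Agent.H65.BU
  Pool.Agent.H85.VK

variable {S : Type} [Fintype S] [DecidableEq S]

/-- there are coherent coefficients with the labels `Lb` for every cocycle of the nerve -/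
def HasCoef (M : CoxeterMatrix S) (Lb : Type) [DecidableEq Lb] [VLb S Lb] : Prop :=
  ∀ (k : ℕ) (x : Finset S → ZMod 2),
    (∀ D, Sph M D → D.card = k + 2 → ∑ v ∈ D, x (D.erase v) = 0) →
    ∃ Q : (Finset (S × Lb) → Finset (S × Lb) → ZMod 2) → Finset S → Finset S → ZMod 2,
      IsCoef M Q ∧ ∃ μ : S × Lb → ℕ, Function.Injective μ ∧ ∀ z : Finset S → ZMod 2,
        (∀ T, z T ≠ 0 → Sph M T ∧ T.card = k + 1) → (∀ T, ∑ v ∈ Tᶜ, z (insert v T) = 0) →
        ∑ A, ∑ B, z A * z B * Q (eP μ) A B = ∑ T, x T * z T

/-- the label `2` is not allowed at the letters in `R` -/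
abbrev vlb (R : Finset S) : VLb S (Fin 3) := ⟨fun q => q.1 ∈ R → q.2 ≠ 2⟩

/-- **Two labels at the right-angled letters and three labels at the other letters are enough.** -/
theorem hasCoef_mix {M : CoxeterMatrix S} {R : Finset S}
    (hRA : ∀ v ∈ R, ∀ t, t ≠ v → M v t = 2 ∨ M v t = 0) :
    @HasCoef S _ _ M (Fin 3) _ (vlb R) := by
  classical
  intro k x hx
  letI : VLb S (Fin 3) := vlb R
  obtain ⟨e, he⟩ : ∃ e : S → ℕ, Function.Injective e :=
    ⟨fun s => (Fintype.equivFin S s).1, fun s t h =>
      (Fintype.equivFin S).injective (Fin.ext h)⟩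
  have hleft : ∀ (n : ℕ) (g : Finset (S × Fin 3) → Finset (S × Fin 3) → ZMod 2)
      (A A' B : Finset S), (A \ A').card = n → Sph M A → Sph M B → A' ⊆ A →
      Qh M R e x k (fun a b => g (rs A' a) b) A B = Qh M R e x k g A' B := by
    intro n
    induction n with
    | zero =>
      intro g A A' B hn hA hB hAA
      have h1 : A = A' := by
        rw [card_eq_zero, sdiff_eq_empty_iff_subset] at hn
        exact Subset.antisymm hn hAA
      subst h1
      refine Qh_congr _ _ _ _ fun a b ha _ _ _ _ => ?_
      have h2 : rs A a = a := filter_true_of_mem ha.1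
      rw [h2]
    | succ n ih =>
      intro g A A' B hn hA hB hAA
      obtain ⟨v, hv⟩ : (A \ A').Nonempty := card_pos.1 (by omega)
      rw [mem_sdiff] at hv
      have h1 : A' ⊆ A.erase v := fun w hw =>
        mem_erase.2 ⟨fun h => hv.2 (h ▸ hw), hAA hw⟩
      have h2 : ((A.erase v) \ A').card = n := by
        rw [erase_sdiff_comm, card_erase_of_mem (mem_sdiff.2 hv), hn]
        rfl
      rw [← ih g (A.erase v) A' B h2 (hA.mono (erase_subset _ _)) hB h1,
        ← Qh_forget hRA _ hA hB hv.1]
      refine Qh_congr _ _ _ _ fun a b _ _ _ _ _ => ?_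
      congr 1
      unfold rs
      rw [filter_filter]
      refine filter_congr fun q _ => ?_
      exact ⟨fun h => ⟨h1 h, h⟩, fun h => h.2⟩
  have hswap := fun g A B => Qh_swap (R := R) he hx g A B
  refine ⟨Qh M R e x k, ⟨?_, ?_, ?_, ?_, hswap⟩, m3 e, m3_inj he, ?_⟩
  · intro g g' A B
    unfold Qh
    split_ifs
    · rw [← sum_add_distrib]
      refine sum_congr rfl fun D _ => ?_
      split_ifs
      · unfold tm
        rw [← sum_add_distrib]
        exact sum_congr rfl fun F _ => mul_add _ _ _
      · rw [add_zero]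
    · rw [add_zero]
  · intro g g' A B _ _ h
    exact Qh_congr g g' A B fun a b ha hb hab ha' hb' => h a b ha hb ha' hb' hab
  · intro g A A' B hA hB h
    exact hleft _ g A A' B rfl hA hB h
  · intro g A B B' hA hB h
    rw [hswap, hswap g]
    exact hleft _ (fun a b => g b a) B B' A rfl hB hA h
  · intro z hz _
    refine sum_congr rfl fun A _ => ?_
    by_cases hA : z A = 0
    · simp only [hA, zero_mul, mul_zero, sum_const_zero]
    rw [sum_eq_single A]
    · rw [Qh_eP he (hz A hA).1 (hz A hA).1 (hz A hA).2 (hz A hA).2, if_pos rfl]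
      generalize z A = y
      generalize x A = y'
      revert y y'
      decide
    · intro B _ hBA
      by_cases hB : z B = 0
      · rw [hB, mul_zero, zero_mul]
      rw [Qh_eP he (hz A hA).1 (hz B hB).1 (hz A hA).2 (hz B hB).2, if_neg (Ne.symm hBA), mul_zero]
    · intro h
      exact absurd (mem_univ A) h

end Pool.Agent.H4.BD
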