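import Pool.Agent.H4.BD.Defs
import Pool.Agent.H97.BLD.Wk

/-!
# Project BD: first letters, cosets of spherical subgroups and their longest elements

`fl M w` = first letters, `Mx M s z`: `z` is the longest element of its coset of `W_s`, `cs M z s s'`: the longest
elements of the cosets of `W_s'` in `z W_s`.
-/

set_option autoImplicit false
set_option linter.unusedSectionVars false

open Finset

namespace Pool.Agent.H4.BD

open Pool.Agent.H4.FC Pool.Agent.H78.RC Pool.Agent.H97.BLD

variable {S : Type} [Fintype S] [DecidableEq S] (M : CoxeterMatrix S)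

/-! ### First letters -/

theorem mem_fl {w : M.Group} {t : S} : t ∈ fl M w ↔ len M (M.simple t * w) + 1 = len M w := by
  unfold fl
  rw [mem_filter, and_iff_right (mem_univ t)]
  rcases len_simple_mul M w t with h | h <;> omega

theorem not_mem_fl {w : M.Group} {t : S} :
    t ∉ fl M w ↔ len M (M.simple t * w) = len M w + 1 := by
  rw [mem_fl]
  rcases len_simple_mul M w t with h | h <;> omega

theorem mem_fl_iff {w : M.Group} {t : S} : t ∈ fl M w ↔ (Pi.single t 1 : S → ℝ) ∈ Nv M w := by
  rw [mem_fl, len_down_iff']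
  exact ⟨fun h => ⟨isRoot_simple M t, single_nonneg t, h⟩, fun h => h.2.2⟩

theorem fl_mono {v w : M.Group} (h : Le M v w) : fl M v ⊆ fl M w := by
  intro t ht
  rw [mem_fl_iff] at ht ⊢
  exact (le_iff M).1 h ht

theorem fl_one : fl M 1 = ∅ := by
  refine eq_empty_of_forall_notMem fun t => ?_
  rw [not_mem_fl, mul_one, len_simple, len_one]

theorem fl_eq_empty {w : M.Group} : fl M w = ∅ ↔ w = 1 := by
  refine ⟨fun h => ?_, fun h => by rw [h, fl_one]⟩
  by_contra hw
  obtain ⟨t, ht⟩ := exists_left M hw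
  exact notMem_empty t (h ▸ (mem_fl M).2 ht)

theorem simple_inj {s t : S} (h : M.simple s = M.simple t) : s = t := by
  have h1 := T_simple_self (M := M) s
  rw [h, T_simple] at h1
  by_contra hst
  have h2 := congrFun h1 s
  rw [Pi.sub_apply, Pi.smul_apply, Pi.neg_apply, Pi.single_eq_same,
    Pi.single_eq_of_ne hst, smul_zero] at h2
  norm_num at h2

/-- a new first letter -/
theorem fold {w : M.Group} {t u : S} (h0 : t ∉ fl M w) (h1 : t ∈ fl M (w * M.simple u)) :
    M.simple t * w = w * M.simple u := by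
  rw [not_mem_fl] at h0
  rw [mem_fl] at h1
  -- lengths
  have h2 : len M (w * M.simple u) = len M w + 1 := by
    have h3 := len_mul_simple M (M.simple t * w) u
    have h4 := len_mul_simple M w u
    rw [mul_assoc] at h3
    omega
  have h3 : len M (M.simple t * w * M.simple u) + 1 = len M (M.simple t * w) := by
    rw [mul_assoc]
    omega
  have h4 := (len_up_iff M w u).1 h2
  have h5 := (len_down_iff M (M.simple t * w) u).1 h3
  have h6 : T M w (Pi.single u 1) = Pi.single t 1 := by
    refine root_eq_single M ⟨w, u, rfl⟩ h4 fun i hi => ?_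
    have h7 := h5 i
    rw [T_mul, T_simple_apply M t i hi] at h7
    exact le_antisymm h7 (h4 i)
  have h7 : w * M.simple u * w⁻¹ = M.simple t := by
    refine T_ext M fun x => ?_
    rw [T_conj, T_simple, h6]
  rw [← h7, inv_mul_cancel_right]

/-- conversely -/
theorem new_of_eq {w : M.Group} {t u : S} (h : M.simple t * w = w * M.simple u)
    (hl : len M (w * M.simple u) = len M w + 1) : t ∉ fl M w ∧ t ∈ fl M (w * M.simple u) := by
  constructor
  · rw [not_mem_fl, h, hl]
  · rw [mem_fl, ← h, ← mul_assoc, simple_sq, one_mul, h, hl]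

/-! ### Longest elements -/

variable {M}

theorem mx_iff {s : Finset S} {z : M.Group} :
    Mx M s z ↔ ∀ v ∈ s, len M (z * M.simple v) + 1 = len M z := by
  refine forall₂_congr fun v _ => ?_
  rcases len_mul_simple M z v with h | h <;> omega

theorem mx_empty (z : M.Group) : Mx M ∅ z := fun v hv => absurd hv (notMem_empty v)

theorem Mx.mono {s s' : Finset S} {z : M.Group} (hz : Mx M s z) (h : s' ⊆ s) : Mx M s' z :=
  fun v hv => hz v (h hv)

theorem Mx.len_add {s : Finset S} {z : M.Group} (hz : Mx M s z) {u : M.Group}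
    (hu : u ∈ par M s) : len M (z * u) + len M u = len M z := by
  rw [mx_iff] at hz
  obtain ⟨n, hn⟩ : ∃ n, len M u = n := ⟨_, rfl⟩
  induction n generalizing u with
  | zero =>
    rw [(len_eq_zero M).1 hn, mul_one, len_one, add_zero]
  | succ n ih =>
    have h1 : u ≠ 1 := by
      rintro rfl
      rw [len_one] at hn
      omega
    obtain ⟨v, hv⟩ := exists_right M h1
    have hvs : v ∈ s := descent_par M hu hv
    have h2 : u * M.simple v ∈ par M s := mul_mem hu (simple_mem_par M hvs)
    have h3 := ih h2 (by omega)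
    have h4 : len M (z * (u * M.simple v) * M.simple v) + 1 = len M (z * (u * M.simple v)) := by
      rw [len_down_iff]
      intro i
      rw [T_mul, T_apply]
      refine Finset.sum_nonpos fun j _ => ?_
      by_cases hj : j ∈ s
      · refine mul_nonpos_of_nonneg_of_nonpos ?_ ((len_down_iff M z j).1 (hz j hj) i)
        refine (len_up_iff M (u * M.simple v) v).1 ?_ j
        rw [mul_assoc, simple_sq, mul_one]
        omega
      · have h5 : j ≠ v := by
          rintro rfl
          exact hj hvs
        rw [T_par M h2 _ hj, Pi.single_eq_of_ne h5, zero_mul]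
    have h5 : z * (u * M.simple v) * M.simple v = z * u := by
      rw [mul_assoc, mul_assoc, simple_sq, mul_one]
    rw [h5] at h4
    omega

theorem Mx.le {s : Finset S} {z w : M.Group} (hz : Mx M s z) (h : z⁻¹ * w ∈ par M s) :
    Le M w z := by
  have h1 := hz.len_add h
  rw [mul_inv_cancel_left] at h1
  unfold Le
  have h2 : w⁻¹ * z = (z⁻¹ * w)⁻¹ := by group
  rw [h2, len_inv]
  exact h1

theorem Mx.sph {s : Finset S} {z : M.Group} (hz : Mx M s z) : Sph M s := by
  have h1 : (par M s : Set M.Group) ⊆ {w | len M w ≤ len M z} := fun u hu => by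
    have h2 := hz.len_add hu
    show len M u ≤ len M z
    omega
  exact ((len_finite M (len M z)).subset h1).to_subtype

theorem Mx.unique {s : Finset S} {z z' : M.Group} (hz : Mx M s z) (hz' : Mx M s z')
    (h : z⁻¹ * z' ∈ par M s) : z = z' := by
  have h1 := hz.len_add h
  have h2 := hz'.len_add (u := z'⁻¹ * z) (by
    have := inv_mem h
    rwa [mul_inv_rev, inv_inv] at this)
  rw [mul_inv_cancel_left] at h1 h2
  have h3 : z⁻¹ * z' = 1 := (len_eq_zero M).1 (by omega)
  exact inv_mul_eq_one.1 h3

/-- every coset of a spherical subgroup has a longest element -/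
theorem exists_mx {s : Finset S} (hs : Sph M s) (w : M.Group) :
    ∃ z, Mx M s z ∧ z⁻¹ * w ∈ par M s := by
  have hne : (parF M s).Nonempty := ⟨1, (mem_parF hs 1).2 (one_mem _)⟩
  obtain ⟨u, hu, hmax⟩ := exists_max_image (parF M s) (fun u => len M (w * u)) hne
  rw [mem_parF hs] at hu
  refine ⟨w * u, mx_iff.2 fun v hv => ?_, ?_⟩
  · have h1 := hmax (u * M.simple v) ((mem_parF hs _).2 (mul_mem hu (simple_mem_par M hv)))
    rw [← mul_assoc] at h1
    rcases len_mul_simple M (w * u) v with h2 | h2
    · omega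
    · exact h2
  · have h1 : (w * u)⁻¹ * w = u⁻¹ := by group
    rw [h1]
    exact inv_mem hu

theorem mem_cs {s s' : Finset S} (hs : Sph M s) {z w : M.Group} :
    w ∈ cs M z s s' ↔ z⁻¹ * w ∈ par M s ∧ Mx M s' w := by
  classical
  unfold cs
  rw [mem_filter, mem_image]
  refine and_congr_left fun _ => ⟨?_, fun h => ?_⟩
  · rintro ⟨u, hu, rfl⟩
    rw [inv_mul_cancel_left]
    exact (mem_parF hs u).1 hu
  · exact ⟨z⁻¹ * w, (mem_parF hs _).2 h, mul_inv_cancel_left z w⟩

/-- only the coset matters -/
theorem cs_congr {s s' : Finset S} (hs : Sph M s) {z z' : M.Group} (h : z⁻¹ * z' ∈ par M s) :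
    cs M z s s' = cs M z' s s' := by
  ext w
  rw [mem_cs hs, mem_cs hs]
  refine and_congr_left fun _ => ⟨fun h1 => ?_, fun h1 => ?_⟩
  · have h2 : z'⁻¹ * w = (z⁻¹ * z')⁻¹ * (z⁻¹ * w) := by group
    rw [h2]
    exact mul_mem (inv_mem h) h1
  · have h2 : z⁻¹ * w = z⁻¹ * z' * (z'⁻¹ * w) := by group
    rw [h2]
    exact mul_mem h h1

theorem cs_self {s : Finset S} {z : M.Group} (hz : Mx M s z) : cs M z s s = {z} := by
  ext w
  rw [mem_cs hz.sph, mem_singleton]
  constructor
  · rintro ⟨h1, h2⟩
    exact (hz.unique h2 h1).symm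
  · rintro rfl
    rw [inv_mul_cancel]
    exact ⟨one_mem _, hz⟩

/-- the cells of type `s''` in a cell of type `s` are those in its cells of type `s'` -/
theorem sum_cs {N : Type} [AddCommMonoid N] {s s' s'' : Finset S} (hs : Sph M s) (h1 : s' ⊆ s)
    (z : M.Group) (g : M.Group → N) :
    ∑ w ∈ cs M z s s'', g w = ∑ y ∈ cs M z s s', ∑ w ∈ cs M y s' s'', g w := by
  classical
  have hs' : Sph M s' := hs.mono h1
  rw [← sum_biUnion]
  · refine sum_congr ?_ fun _ _ => rfl
    ext w
    rw [mem_biUnion, mem_cs hs]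
    constructor
    · rintro ⟨h3, h4⟩
      obtain ⟨y, hy1, hy2⟩ := exists_mx hs' w
      refine ⟨y, (mem_cs hs).2 ⟨?_, hy1⟩, (mem_cs hs').2 ⟨hy2, h4⟩⟩
      have h5 : z⁻¹ * y = z⁻¹ * w * (y⁻¹ * w)⁻¹ := by group
      rw [h5]
      exact mul_mem h3 (inv_mem (par_mono M h1 hy2))
    · rintro ⟨y, hy, hw⟩
      rw [mem_cs hs] at hy
      rw [mem_cs hs'] at hw
      refine ⟨?_, hw.2⟩
      have h5 : z⁻¹ * w = z⁻¹ * y * (y⁻¹ * w) := by group
      rw [h5]
      exact mul_mem hy.1 (par_mono M h1 hw.1)
  · intro y hy y' hy' hne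
    refine disjoint_left.2 fun w hw hw' => hne ?_
    rw [mem_coe, mem_cs hs] at hy hy'
    rw [mem_cs hs'] at hw hw'
    refine hy.2.unique hy'.2 ?_
    have h5 : y⁻¹ * y' = y⁻¹ * w * (y'⁻¹ * w)⁻¹ := by group
    rw [h5]
    exact mul_mem hw.1 (inv_mem hw'.1)

/-- the first letters of the elements of a coset are first letters of the longest element -/
theorem fl_coset {s : Finset S} {z w : M.Group} (hz : Mx M s z) (h : z⁻¹ * w ∈ par M s) :
    fl M w ⊆ fl M z := fl_mono M (hz.le h)

theorem mem_cs_one {s s' : Finset S} {z : M.Group} (hz : Mx M s z) (h : (1 : M.Group) ∈ cs M z s s') :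
    s' = ∅ ∧ z⁻¹ ∈ par M s := by
  rw [mem_cs hz.sph] at h
  refine ⟨eq_empty_of_forall_notMem fun v hv => ?_, by simpa using h.1⟩
  have h1 := (mx_iff.1 h.2) v hv
  rw [one_mul, len_simple, len_one] at h1
  omega

end Pool.Agent.H4.BD
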