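import Pool.Agent.H4.BD.Defs

/-!
# Project BD: vanishing of the homology of the nerve from the vanishing of the pairing
-/

set_option autoImplicit false

open Finset

namespace Pool.Agent.H4.BD

open Pool.Agent.H4.FC Pool.Agent.H93.AA

section

variable {S : Type} [Fintype S] [DecidableEq S]

/-- the boundary as a linear map -/
private def bdp : (Finset S → ZMod 2) →ₗ[ZMod 2] (Finset S → ZMod 2) where
  toFun y s := ∑ v ∈ sᶜ, y (insert v s)
  map_add' f g := by
    funext s
    simp only [Pi.add_apply, sum_add_distrib]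
  map_smul' c f := by
    funext s
    simp only [Pi.smul_apply, RingHom.id_apply, smul_sum]

private theorem bdp_apply (y : Finset S → ZMod 2) (s : Finset S) :
    bdp y s = ∑ v ∈ sᶜ, y (insert v s) := rfl

private theorem bdp_single (s : Finset S) :
    bdp (Pi.single s (1 : ZMod 2)) = ∑ v ∈ s, Pi.single (s.erase v) (1 : ZMod 2) := by
  classical
  funext t
  rw [bdp_apply, Finset.sum_apply]
  simp only [Pi.single_apply]
  rw [← sum_filter, ← sum_filter, sum_const, sum_const]
  congr 1
  congr 1
  ext v
  simp only [mem_filter, mem_compl]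
  constructor
  · rintro ⟨h1, h2⟩
    subst h2
    exact ⟨mem_insert_self v t, (erase_insert h1).symm⟩
  · rintro ⟨h1, h2⟩
    subst h2
    exact ⟨notMem_erase v s, insert_erase h1⟩

/-- the chains on the spherical sets with `j` elements -/
private def chp (M : CoxeterMatrix S) (j : ℕ) : Submodule (ZMod 2) (Finset S → ZMod 2) where
  carrier := {y | ∀ s, y s ≠ 0 → Sph M s ∧ s.card = j}
  zero_mem' := fun s h => absurd rfl h
  add_mem' := by
    intro y z hy hz s h
    by_cases h1 : y s = 0
    · by_cases h2 : z s = 0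
      · exact absurd (by rw [Pi.add_apply, h1, h2, add_zero]) h
      · exact hz s h2
    · exact hy s h1
  smul_mem' := by
    intro c y hy s h
    refine hy s fun h1 => h ?_
    rw [Pi.smul_apply, h1, smul_zero]

end

/-- If all cycles on the spherical sets with `j` elements are orthogonal to the cocycles, then they are
boundaries. -/
theorem hl_of_pairing {S : Type} [Fintype S] [DecidableEq S] (M : CoxeterMatrix S) (j : ℕ)
    (h : ∀ x z : Finset S → ZMod 2,
      (∀ D, Sph M D → D.card = j + 1 → ∑ v ∈ D, x (D.erase v) = 0) →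
      (∀ T, z T ≠ 0 → Sph M T ∧ T.card = j) → (∀ T, ∑ v ∈ Tᶜ, z (insert v T) = 0) →
      ∑ T, x T * z T = 0) : HL M j := by
  intro z hz hdz
  by_contra hcon
  have hnot : z ∉ (chp M (j + 1)).map bdp := by
    rintro ⟨y, hy, hyz⟩
    exact hcon ⟨y, hy, fun s => by rw [← hyz]; rfl⟩
  obtain ⟨φ, hφ, hker⟩ := Submodule.exists_le_ker_of_notMem hnot
  refine hφ ?_
  have h1 : ∀ f : Finset S → ZMod 2, φ f = ∑ s, φ (Pi.single s 1) * f s := by
    intro f
    have h2 : f = ∑ s, f s • (Pi.single s (1 : ZMod 2) : Finset S → ZMod 2) := by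
      funext t
      rw [Finset.sum_apply, Finset.sum_eq_single t]
      · rw [Pi.smul_apply, Pi.single_eq_same, smul_eq_mul, mul_one]
      · intro s _ hs
        rw [Pi.smul_apply, Pi.single_eq_of_ne (Ne.symm hs), smul_zero]
      · exact fun h => absurd (mem_univ t) h
    conv_lhs => rw [h2]
    rw [map_sum]
    exact sum_congr rfl fun s _ => by rw [map_smul, smul_eq_mul, mul_comm]
  rw [h1]
  refine h _ z (fun s hs hc => ?_) hz hdz
  rw [← map_sum, ← bdp_single]
  refine hker ⟨_, fun t ht => ?_, rfl⟩
  by_cases hts : t = s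
  · subst hts
    exact ⟨hs, hc⟩
  · exact absurd (Pi.single_eq_of_ne hts _) ht

end Pool.Agent.H4.BD
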