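import Pool.Agent.H4.BD.Pan
import Pool.Agent.H97.BLD.Act

/-!
# Project BD: orbit representatives

PROOF. `F` finite, every chamber `x = g x • f x`, `f x ∈ F`. `rr ∅ x = g x`; `rr T x = g (x_R)`, `x_R` a chosen chamber of the residue `R` of
type `T` of `x` (a function of the set `residue M δ T x`). `near`: `len (δ x x_R)` is bounded for `T` spherical, so
`(g x)⁻¹ g (x_R)` maps `f (x_R) ∈ F` into a ball around `f x ∈ F`: finitely many chambers (`sphere_finite`), finite stabilizers.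
`far`: `δ x y = δ (f x) (e • f y)` for `e = (g x)⁻¹ (g y) ∈ E`: finitely many values.
-/

set_option autoImplicit false
set_option linter.unusedSectionVars false

open Finset

namespace Pool.Agent.H4.BD

open Pool.Agent.H4.FC Pool.Agent.H78.RC Pool.Agent.H97.BLD

variable {S Δ P : Type} [Fintype S] [DecidableEq S] [Group P] [MulAction P Δ]
  {M : CoxeterMatrix S} {δ : Δ → Δ → M.Group} {q : S → Δ → ℕ}

private theorem orb_residue (h : IsBuilding M δ) {T : Finset S} {x y : Δ} (hxy : δ x y ∈ par M T) :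
    residue M δ T x = residue M δ T y := by
  have hyx : δ y x ∈ par M T := by
    rw [h.symm x y]
    exact inv_mem hxy
  ext d
  exact ⟨fun hd => h.par_trans hyx hd, fun hd => h.par_trans hxy hd⟩

private theorem orb_ball (h : IsBuilding M δ) (hq : Reg M δ q) (c : Δ) (n : ℕ) :
    {x | len M (δ c x) ≤ n}.Finite := by
  refine ((len_finite M n).biUnion fun w _ => sphere_finite h hq c w).subset fun x hx => ?_
  rw [Set.mem_iUnion₂]
  exact ⟨δ c x, hx, rfl⟩

private theorem orb_bound (M : CoxeterMatrix S) :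
    ∃ n : ℕ, ∀ T : Finset S, Sph M T → ∀ w ∈ par M T, len M w ≤ n := by
  have h1 : ({w : M.Group | ∃ T : Finset S, Sph M T ∧ w ∈ par M T}).Finite := by
    have h2 : ({w : M.Group | ∃ T : Finset S, Sph M T ∧ w ∈ par M T}) =
        ⋃ T ∈ {T : Finset S | Sph M T}, (par M T : Set M.Group) := by
      ext w
      rw [Set.mem_iUnion₂]
      exact ⟨fun ⟨T, h3, h4⟩ => ⟨T, h3, h4⟩, fun ⟨T, h3, h4⟩ => ⟨T, h3, h4⟩⟩
    rw [h2]
    refine Set.Finite.biUnion (Set.toFinite _) fun T hT => ?_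
    have h3 : Finite (par M T) := hT
    exact Set.toFinite _
  obtain ⟨n, hn⟩ := (h1.image (len M)).bddAbove
  exact ⟨n, fun T hT w hw => hn ⟨w, ⟨T, hT, hw⟩, rfl⟩⟩

theorem exists_rr (hδ : IsBuilding M δ) (hq : Reg M δ q) (hP : GAct P M δ) :
    ∃ rr : Finset S → Δ → P, IsRr M δ rr := by
  classical
  obtain ⟨F, hF⟩ := hP.cof
  choose g f hfF hgf using hF
  -- a chosen chamber of a residue
  obtain ⟨ch, hch⟩ : ∃ ch : Set Δ → Δ → Δ, (∀ R x, R.Nonempty → ch R x ∈ R) ∧
      ∀ R x y, R.Nonempty → ch R x = ch R y :=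
    ⟨fun R x => if h : R.Nonempty then h.some else x, fun R x h => by
      show (if h : R.Nonempty then h.some else x) ∈ R
      rw [dif_pos h]
      exact h.some_mem, fun R x y h => by
      show (if h : R.Nonempty then h.some else x) = (if h : R.Nonempty then h.some else y)
      rw [dif_pos h, dif_pos h]⟩
  have hne : ∀ T x, (residue M δ T x).Nonempty := fun T x => ⟨x, by
    show δ x x ∈ par M T
    rw [hδ.self]
    exact one_mem _⟩
  have h0 : ∀ x, ch (residue M δ ∅ x) x = x := by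
    intro x
    have h1 : δ x (ch (residue M δ ∅ x) x) ∈ par M ∅ := hch.1 _ x (hne ∅ x)
    exact ((hδ.eq_one _ _).1 (mem_par_empty.1 h1)).symm
  refine ⟨fun T x => g (ch (residue M δ T x) x), ?_, ?_, ?_⟩
  · intro T x y hxy
    show g _ = g _
    rw [orb_residue hδ hxy, hch.2 _ x y (hne T y)]
  · obtain ⟨n, hn⟩ := orb_bound M
    have hfin : {e : P | ∃ a ∈ F, ∃ b ∈ F, len M (δ a (e • b)) ≤ n}.Finite := by
      have h1 : {e : P | ∃ a ∈ F, ∃ b ∈ F, len M (δ a (e • b)) ≤ n} =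
          ⋃ a ∈ (F : Set Δ), ⋃ b ∈ (F : Set Δ), ⋃ z ∈ {z | len M (δ a z) ≤ n},
            {e : P | e • b = z} := by
        ext e
        simp only [Set.mem_iUnion, mem_coe, exists_prop]
        exact ⟨fun ⟨a, ha, b, hb, h2⟩ => ⟨a, ha, b, hb, e • b, h2, rfl⟩,
          fun ⟨a, ha, b, hb, z, h2, h3⟩ => ⟨a, ha, b, hb, by rw [h3]; exact h2⟩⟩
      rw [h1]
      refine F.finite_toSet.biUnion fun a _ => F.finite_toSet.biUnion fun b _ =>
        (orb_ball hδ hq a n).biUnion fun z _ => ?_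
      by_cases hz : ∃ e : P, e • b = z
      · obtain ⟨e₀, he₀⟩ := hz
        refine ((hP.fin b).image fun p => e₀ * p).subset fun e he => ?_
        refine ⟨e₀⁻¹ * e, ?_, mul_inv_cancel_left _ _⟩
        show (e₀⁻¹ * e) • b = b
        rw [mul_smul, show e • b = z from he, ← he₀, inv_smul_smul]
      · refine Set.finite_empty.subset fun e he => hz ⟨e, he⟩
    refine ⟨hfin.toFinset, fun T x hT => ?_⟩
    show (g (ch (residue M δ ∅ x) x))⁻¹ * g (ch (residue M δ T x) x) ∈ _
    rw [h0, Set.Finite.mem_toFinset]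
    obtain ⟨y, hy⟩ : ∃ y, y = ch (residue M δ T x) x := ⟨_, rfl⟩
    have hxy : δ x y ∈ par M T := by
      rw [hy]
      exact hch.1 _ x (hne T x)
    rw [← hy]
    refine ⟨f x, hfF x, f y, hfF y, ?_⟩
    have h2 : δ (f x) (((g x)⁻¹ * g y) • f y) = δ x y := by
      rw [← hP.iso (g x) (f x) (((g x)⁻¹ * g y) • f y), mul_smul, smul_inv_smul, hgf x, hgf y]
    rw [h2]
    exact hn T hT _ hxy
  · intro E
    obtain ⟨n, hn⟩ : ∃ n : ℕ, ∀ e ∈ E, ∀ a ∈ F, ∀ b ∈ F, len M (δ a (e • b)) ≤ n := by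
      refine ⟨∑ e ∈ E, ∑ a ∈ F, ∑ b ∈ F, len M (δ a (e • b)), fun e he a ha b hb => ?_⟩
      have h1 := single_le_sum (f := fun b => len M (δ a (e • b))) (fun _ _ => Nat.zero_le _) hb
      have h2 := single_le_sum (f := fun a => ∑ b ∈ F, len M (δ a (e • b)))
        (fun _ _ => Nat.zero_le _) ha
      have h3 := single_le_sum (f := fun e => ∑ a ∈ F, ∑ b ∈ F, len M (δ a (e • b)))
        (fun _ _ => Nat.zero_le _) he
      exact h1.trans (h2.trans h3)
    refine ⟨n, fun x y hxy => ?_⟩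
    have hxy' : (g (ch (residue M δ ∅ x) x))⁻¹ * g (ch (residue M δ ∅ y) y) ∈ E := hxy
    rw [h0, h0] at hxy'
    have h2 : δ (f x) (((g x)⁻¹ * g y) • f y) = δ x y := by
      rw [← hP.iso (g x) (f x) (((g x)⁻¹ * g y) • f y), mul_smul, smul_inv_smul, hgf x, hgf y]
    rw [← h2]
    exact hn _ hxy' _ (hfF x) _ (hfF y)

end Pool.Agent.H4.BD
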