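import Pool.Agent.H4.BD.Defs
import Pool.Agent.H97.BLD.BdA
import Pool.Agent.H97.BLD.Wk
import Pool.Agent.H73.LK.Ind

/-!
# Project BD: residues are buildings

PROOFS. `ind_hom M J : (sub M J).Group →* M.Group` is injective (`ind_hom_injective`), maps `par (sub M J) T` onto `par M (T.map (ind_emb J))`,
its image is `par M J`; `len_ind`: reduced words of elements of `par M J` use only letters in `J` (exchange condition; or: `descent_iff`
and `ind_tits`: `w s < w` in `sub M J` iff `ind w s < ind w` in `M`, induction). `Δ' = {x // δ c x ∈ par M J}`, `δ' x y` the preimage of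
`δ x y ∈ par M J` (`IsBuilding.par_trans`, symmetry).
-/

set_option autoImplicit false
set_option linter.unusedSectionVars false

open Finset

namespace Pool.Agent.H4.BD

open Pool.Agent.H4.FC Pool.Agent.H78.RC Pool.Agent.H97.BLD Pool.Agent.H73.LK

variable {S Δ : Type} [Fintype S] [DecidableEq S] {M : CoxeterMatrix S} {δ : Δ → Δ → M.Group}

/-- the image of the parabolic subgroups -/
private theorem map_par (M : CoxeterMatrix S) (J : Finset S) (T : Finset {v // v ∈ J}) :
    (par (sub M J) T).map (ind_hom M J) = par M (T.map (ind_emb J)) := by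
  unfold par
  rw [MonoidHom.map_closure]
  congr 1
  ext w
  constructor
  · rintro ⟨u, ⟨v, hv, rfl⟩, rfl⟩
    exact ⟨v.1, mem_map.2 ⟨v, hv, rfl⟩, ind_hom_simple M J v⟩
  · rintro ⟨v, hv, rfl⟩
    obtain ⟨u, hu, rfl⟩ := mem_map.1 hv
    exact ⟨(sub M J).simple u, ⟨u, hu, rfl⟩, ind_hom_simple M J u⟩

private theorem map_univ_emb (J : Finset S) : (univ : Finset {v // v ∈ J}).map (ind_emb J) = J := by
  ext v
  rw [mem_map]
  constructor
  · rintro ⟨w, _, rfl⟩
    exact w.2
  · intro hv
    exact ⟨⟨v, hv⟩, mem_univ _, rfl⟩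

theorem par_ind (J : Finset S) (T : Finset {v // v ∈ J}) (w : (sub M J).Group) :
    ind_hom M J w ∈ par M (T.map (ind_emb J)) ↔ w ∈ par (sub M J) T := by
  rw [← map_par, Subgroup.mem_map_iff_mem (ind_hom_injective M J)]

theorem exists_ind (J : Finset S) {w : M.Group} (h : w ∈ par M J) : ∃ w', ind_hom M J w' = w := by
  have h1 := map_par M J univ
  rw [map_univ_emb] at h1
  rw [← h1] at h
  obtain ⟨w', _, hw'⟩ := h
  exact ⟨w', hw'⟩

private theorem len_ind_le (J : Finset S) : ∀ (n : ℕ) (w : (sub M J).Group), len (sub M J) w = n →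
    len M (ind_hom M J w) ≤ n := by
  intro n
  induction n with
  | zero =>
    intro w hw
    rw [(len_eq_zero (sub M J)).1 hw, map_one, len_one]
  | succ n ih =>
    intro w hw
    have h1 : w ≠ 1 := by
      rintro rfl
      rw [len_one] at hw
      omega
    obtain ⟨s, hs⟩ := exists_right (sub M J) h1
    have h2 := ih (w * (sub M J).simple s) (by omega)
    rw [map_mul, ind_hom_simple] at h2
    rcases len_mul_simple M (ind_hom M J w) s.1 with h3 | h3 <;> omega

theorem ind_mem (J : Finset S) (w : (sub M J).Group) : ind_hom M J w ∈ par M J := by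
  have key : ∀ (n : ℕ) (w : (sub M J).Group), len (sub M J) w = n → ind_hom M J w ∈ par M J := by
    intro n
    induction n with
    | zero =>
      intro w hw
      rw [(len_eq_zero (sub M J)).1 hw, map_one]
      exact one_mem _
    | succ n ih =>
      intro w hw
      have h1 : w ≠ 1 := by
        rintro rfl
        rw [len_one] at hw
        omega
      obtain ⟨s, hs⟩ := exists_right (sub M J) h1
      have h2 := ih (w * (sub M J).simple s) (by omega)
      rw [map_mul, ind_hom_simple] at h2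
      have h3 : M.simple s.1 ∈ par M J := Subgroup.subset_closure ⟨s.1, s.2, rfl⟩
      exact (Subgroup.mul_mem_cancel_right _ h3).1 h2
  exact key _ w rfl

theorem len_ind (J : Finset S) (w : (sub M J).Group) :
    len M (ind_hom M J w) = len (sub M J) w := by
  have key : ∀ (n : ℕ) (w : (sub M J).Group), len M (ind_hom M J w) = n → len (sub M J) w ≤ n := by
    intro n
    induction n with
    | zero =>
      intro w hw
      have h1 := (len_eq_zero M).1 hw
      rw [← map_one (ind_hom M J)] at h1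
      rw [ind_hom_injective M J h1, len_one]
    | succ n ih =>
      intro w hw
      have h1 : ind_hom M J w ≠ 1 := by
        intro h1
        rw [h1, len_one] at hw
        omega
      obtain ⟨s, hs⟩ := exists_right M h1
      have hsJ : s ∈ J := descent_par M (ind_mem J w) hs
      have h2 := ih (w * (sub M J).simple ⟨s, hsJ⟩) (by
        rw [map_mul, ind_hom_simple]
        show len M (ind_hom M J w * M.simple s) = n
        omega)
      rcases len_mul_simple (sub M J) w ⟨s, hsJ⟩ with h3 | h3 <;> omega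
  exact le_antisymm (len_ind_le J _ w rfl) (key _ w rfl)

theorem sph_ind (J : Finset S) (T : Finset {v // v ∈ J}) :
    Sph (sub M J) T ↔ Sph M (T.map (ind_emb J)) := by
  unfold Sph
  rw [← map_par]
  exact ((par (sub M J) T).equivMapOfInjective _ (ind_hom_injective M J)).toEquiv.finite_iff

/-- `δ'` is the restriction of the Weyl distance to a residue of type `J` -/
structure IsRes (M : CoxeterMatrix S) (δ : Δ → Δ → M.Group) (J : Finset S) {Δ' : Type}
    (δ' : Δ' → Δ' → (sub M J).Group) (ι : Δ' → Δ) : Prop where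
  inj : Function.Injective ι
  dist : ∀ x y, ind_hom M J (δ' x y) = δ (ι x) (ι y)
  all : ∀ x y, δ (ι x) y ∈ par M J → ∃ y', ι y' = y

theorem exists_res (hδ : IsBuilding M δ) (J : Finset S) (c : Δ) :
    ∃ (Δ' : Type) (δ' : Δ' → Δ' → (sub M J).Group) (ι : Δ' → Δ),
      IsRes M δ J δ' ι ∧ IsBuilding (sub M J) δ' ∧ ∃ c', ι c' = c := by
  have hin : ∀ x y : Δ, δ c x ∈ par M J → δ c y ∈ par M J → δ x y ∈ par M J := by
    intro x y hx hy
    refine hδ.par_trans ?_ hy
    rw [hδ.symm c x]
    exact inv_mem hx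
  choose f hf using fun p : {p : Δ × Δ // δ c p.1 ∈ par M J ∧ δ c p.2 ∈ par M J} =>
    exists_ind (M := M) J (hin p.1.1 p.1.2 p.2.1 p.2.2)
  let D : Type := {x : Δ // δ c x ∈ par M J}
  let g : D → D → (sub M J).Group := fun x y => f ⟨(x.1, y.1), x.2, y.2⟩
  have hg : ∀ x y : D, ind_hom M J (g x y) = δ x.1 y.1 := fun x y => hf ⟨(x.1, y.1), x.2, y.2⟩
  have hs : ∀ (s : {v // v ∈ J}) (x y : D), g x y = (sub M J).simple s ↔ δ x.1 y.1 = M.simple s.1 := by
    intro s x y
    rw [← hg, ← ind_hom_simple]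
    exact (ind_hom_injective M J).eq_iff.symm
  have hcc : δ c c ∈ par M J := by
    rw [hδ.self]
    exact one_mem _
  refine ⟨D, g, Subtype.val, ⟨Subtype.val_injective, hg, fun x y hy => ?_⟩, ⟨?_, ?_, ?_, ?_⟩, ⟨c, hcc⟩, rfl⟩
  · exact ⟨⟨y, hδ.par_trans x.2 hy⟩, rfl⟩
  · intro x y
    rw [← (ind_hom_injective M J).eq_iff, hg, map_one, hδ.eq_one]
    exact Subtype.ext_iff.symm
  · intro s x x' y h
    have h1 := hδ.step s.1 x.1 x'.1 y.1 ((hs s x' x).1 h)
    rw [← (ind_hom_injective M J).eq_iff, ← (ind_hom_injective M J).eq_iff (b := g x y), map_mul,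
      ind_hom_simple, hg, hg]
    exact h1
  · intro s x x' y h hl
    have h1 := hδ.step_up s.1 x.1 x'.1 y.1 ((hs s x' x).1 h) (by
      rw [← hg x y, ← ind_hom_simple, ← map_mul, len_ind, len_ind]
      exact hl)
    rw [← (ind_hom_injective M J).eq_iff, map_mul, ind_hom_simple, hg, hg]
    exact h1
  · intro s x y
    obtain ⟨x', h1, h2⟩ := hδ.exists_step s.1 x.1 y.1
    have h3 : δ c x' ∈ par M J := by
      refine hδ.par_trans x.2 ?_
      rw [hδ.symm_simple h1]
      exact Subgroup.subset_closure ⟨s.1, s.2, rfl⟩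
    refine ⟨⟨x', h3⟩, (hs s _ _).2 h1, ?_⟩
    rw [← (ind_hom_injective M J).eq_iff, map_mul, ind_hom_simple, hg, hg]
    exact h2

variable {J : Finset S} {Δ' : Type} {δ' : Δ' → Δ' → (sub M J).Group} {ι : Δ' → Δ}

theorem IsRes.reg (h : IsRes M δ J δ' ι) {q : S → Δ → ℕ} (hq : Reg M δ q) :
    Reg (sub M J) δ' (fun s x => q s.1 (ι x)) := by
  intro s x
  have h1 : ι '' {y | δ' x y = (sub M J).simple s} = {y | δ (ι x) y = M.simple s.1} := by
    ext y
    constructor
    · rintro ⟨y', hy', rfl⟩
      have h2 : δ' x y' = (sub M J).simple s := hy'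
      show δ (ι x) (ι y') = M.simple s.1
      rw [← h.dist, h2, ind_hom_simple]
    · intro hy
      have hy1 : δ (ι x) y = M.simple s.1 := hy
      obtain ⟨y', rfl⟩ := h.all x y (by
        rw [hy1]
        exact Subgroup.subset_closure ⟨s.1, s.2, rfl⟩)
      refine ⟨y', ?_, rfl⟩
      show δ' x y' = (sub M J).simple s
      rw [← (ind_hom_injective M J).eq_iff, h.dist, hy1, ind_hom_simple]
  obtain ⟨h2, h3⟩ := hq s.1 (ι x)
  rw [← h1] at h2 h3
  refine ⟨(Set.finite_image_iff h.inj.injOn).1 h2, ?_⟩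
  rw [Set.ncard_image_of_injective _ h.inj] at h3
  exact h3

theorem IsRes.rr (h : IsRes M δ J δ' ι) {P : Type} [Group P] {rr : Finset S → Δ → P}
    (hrr : IsRr M δ rr) :
    IsRr (sub M J) δ' (fun T x => rr (T.map (ind_emb J)) (ι x)) := by
  refine ⟨fun T x y hxy => ?_, ?_, fun E => ?_⟩
  · refine hrr.const _ _ _ ?_
    rw [← h.dist]
    exact (par_ind J T _).2 hxy
  · obtain ⟨E, hE⟩ := hrr.near
    refine ⟨E, fun T x hT => ?_⟩
    have h1 := hE (T.map (ind_emb J)) (ι x) ((sph_ind J T).1 hT)
    rw [map_empty]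
    exact h1
  · obtain ⟨N, hN⟩ := hrr.far E
    refine ⟨N, fun x y hxy => ?_⟩
    have h1 := hN (ι x) (ι y) (by
      rw [map_empty] at hxy
      exact hxy)
    rw [← h.dist, len_ind] at h1
    exact h1

end Pool.Agent.H4.BD
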