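import Pool.Agent.H4.BD.Cox

/-!
# Project BD: panels and the sets `XX` of chambers

A label of the letter `t` is a chamber `b` with `δ c b = t`. The chamber `x` is compatible with it if
`δ b x = t * δ c x`; this is a condition only if `t` is a first letter of `δ c x`. The panel of type `v` of `x` is the
set of the `y` with `δ x y ∈ par M {v}`. Main results: `even_XX`, `sum_XX_const` (every panel of a type in `s` has an
even number of chambers in `XX`), `sum_XX_face` (`XX` is the disjoint union of the sets of the faces), `XX_finite`.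
-/

set_option autoImplicit false
set_option linter.unusedSectionVars false

open Finset

namespace Pool.Agent.H4.BD

open Pool.Agent.H4.FC Pool.Agent.H78.RC Pool.Agent.H97.BLD

variable {S : Type} [Fintype S] [DecidableEq S] {M : CoxeterMatrix S} {Δ : Type}
  {δ : Δ → Δ → M.Group}

/-- the chamber `x` is compatible with the labels `a t`, `t ∈ Z` -/
def Gd (δ : Δ → Δ → M.Group) (c : Δ) (Z : Finset S) (a : S → Δ) (x : Δ) : Prop :=
  ∀ t ∈ Z, δ (a t) x = M.simple t * δ c x

/-- letters which are not first letters do not give a condition -/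
theorem gd_up (h : IsBuilding M δ) {c x : Δ} {a : Δ} {t : S} (ha : δ c a = M.simple t)
    (ht : t ∉ fl M (δ c x)) : δ a x = M.simple t * δ c x :=
  h.step_up t c a x (h.symm_simple ha) ((not_mem_fl M).1 ht)

/-- a chamber of the panel, from the projection -/
theorem gd_down (h : IsBuilding M δ) {c x₀ y : Δ} {a : Δ} {t v : S}
    (hy : δ x₀ y = M.simple v) (hl : len M (δ c x₀ * M.simple v) = len M (δ c x₀) + 1)
    (ht : t ∈ fl M (δ c x₀)) (hg : δ a x₀ = M.simple t * δ c x₀) :
    δ a y = M.simple t * δ c y := by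
  have h1 := h.stepR_up hy hl
  have h2 : len M (M.simple t * (δ c x₀ * M.simple v)) + 1 = len M (δ c x₀ * M.simple v) := by
    rcases len_simple_mul M (δ c x₀ * M.simple v) t with h3 | h3
    · exfalso
      rw [mem_fl] at ht
      have h4 := len_mul_simple M (M.simple t * δ c x₀) v
      rw [mul_assoc] at h4
      omega
    · exact h3
  rw [h1, ← mul_assoc]
  rw [mem_fl] at ht
  have h3 : len M (δ a x₀ * M.simple v) = len M (δ a x₀) + 1 := by
    rw [hg, mul_assoc]
    omega
  rw [h.stepR_up hy h3, hg]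

/-- the projection of the panel is compatible if another chamber is compatible -/
theorem gd_proj (h : IsBuilding M δ) {c x₀ y : Δ} {a : Δ} {t v : S} (ha : δ c a = M.simple t)
    (hy : δ x₀ y = M.simple v) (hl : len M (δ c x₀ * M.simple v) = len M (δ c x₀) + 1)
    (hg : δ a y = M.simple t * δ c y) : δ a x₀ = M.simple t * δ c x₀ := by
  by_cases ht : t ∈ fl M (δ c x₀)
  · have h1 := h.stepR_up hy hl
    rcases h.step t c a x₀ (h.symm_simple ha) with h2 | h2
    · exact h2
    · exfalso
      rcases h.stepR (a := a) (h.symm_simple hy) with h3 | h3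
      · rw [hg, h1, ← mul_assoc, mul_assoc, simple_sq, mul_one] at h3
        rw [h3] at h2
        have h4 := congrArg (len M) h2
        rw [mem_fl] at ht
        omega
      · rw [hg, h1] at h3
        rw [h3] at h2
        have h4 := congrArg (len M) h2
        have h5 : M.simple t * δ c x₀ = δ c x₀ * M.simple v := by
          have h6 : M.simple t * (M.simple t * (δ c x₀ * M.simple v)) = M.simple t * δ c x₀ := by
            rw [h2]
          rw [← mul_assoc, simple_sq, one_mul] at h6
          exact h6.symm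
        have h6 := congrArg (len M) h5
        rw [mem_fl] at ht
        omega
  · exact gd_up h ha ht

/-- only the first letters of the position give conditions -/
theorem gd_iff (h : IsBuilding M δ) {c x : Δ} {Z Z' : Finset S} {a : S → Δ}
    (ha : ∀ t ∈ Z', δ c (a t) = M.simple t) (h1 : fl M (δ c x) ⊆ Z) (h2 : Z ⊆ Z') :
    Gd δ c Z a x ↔ Gd δ c Z' a x := by
  refine ⟨fun hg t ht => ?_, fun hg t ht => hg t (h2 ht)⟩
  by_cases h3 : t ∈ fl M (δ c x)
  · exact hg t (h1 h3)
  · exact gd_up h (ha t ht) h3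

/-- the panel of type `v` of the chamber `x` -/
def pan (δ : Δ → Δ → M.Group) (v : S) (x : Δ) : Set Δ := {y | y = x ∨ δ x y = M.simple v}

theorem mem_pan_self (v : S) (x : Δ) : x ∈ pan δ v x := Or.inl rfl

theorem pan_symm (h : IsBuilding M δ) {v : S} {x y : Δ} (hy : y ∈ pan δ v x) : x ∈ pan δ v y := by
  rcases hy with hy | hy
  · exact Or.inl hy.symm
  · exact Or.inr (h.symm_simple hy)

theorem pan_trans (h : IsBuilding M δ) {v : S} {x y z : Δ} (hy : y ∈ pan δ v x)
    (hz : z ∈ pan δ v y) : z ∈ pan δ v x := by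
  rcases hy with rfl | hy
  · exact hz
  · rcases hz with rfl | hz
    · exact Or.inr hy
    · rcases h.step v y x z hy with h1 | h1
      · left
        rw [hz, simple_sq] at h1
        exact ((h.eq_one x z).1 h1).symm
      · right
        rw [h1, hz]

theorem pan_eq (h : IsBuilding M δ) {v : S} {x y : Δ} (hy : y ∈ pan δ v x) :
    pan δ v y = pan δ v x :=
  Set.Subset.antisymm (fun _ hz => pan_trans h hy hz)
    (fun _ hz => pan_trans h (pan_symm h hy) hz)

/-- the projection of `c` on a panel -/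
theorem exists_proj (h : IsBuilding M δ) (c : Δ) (v : S) (x : Δ) :
    ∃ x₀ ∈ pan δ v x, len M (δ c x₀ * M.simple v) = len M (δ c x₀) + 1 := by
  rcases len_mul_simple M (δ c x) v with h1 | h1
  · exact ⟨x, mem_pan_self v x, h1⟩
  · obtain ⟨x₀, h2, h3⟩ := h.exists_stepR v c x
    refine ⟨x₀, Or.inr h2, ?_⟩
    rw [h3, mul_assoc, simple_sq, mul_one]
    omega

/-- PARITY: every panel has an even number of compatible chambers of the set `C`. -/
theorem even_panel (h : IsBuilding M δ) {c : Δ} {Z : Finset S} {a : S → Δ}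
    (ha : ∀ t ∈ Z, δ c (a t) = M.simple t) {K : Set M.Group} {v : S}
    (hK : ∀ w ∈ K, w * M.simple v ∈ K) (hZ : ∀ w ∈ K, fl M w ⊆ Z) {C : Set Δ}
    (hC0 : ∀ x₀ y, δ x₀ y = M.simple v → len M (δ c x₀ * M.simple v) = len M (δ c x₀) + 1 →
      y ∈ C → x₀ ∈ C)
    (hC1 : ∀ x₀ y, δ x₀ y = M.simple v → len M (δ c x₀ * M.simple v) = len M (δ c x₀) + 1 →
      x₀ ∈ C → ¬ fl M (δ c x₀ * M.simple v) ⊆ fl M (δ c x₀) → y ∈ C)
    (hC2 : ∀ x₀, len M (δ c x₀ * M.simple v) = len M (δ c x₀) + 1 → x₀ ∈ C →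
      fl M (δ c x₀ * M.simple v) ⊆ fl M (δ c x₀) →
      Odd {y | δ x₀ y = M.simple v ∧ y ∈ C}.ncard) (x : Δ) :
    Even {y | y ∈ pan δ v x ∧ y ∈ C ∧ δ c y ∈ K ∧ Gd δ c Z a y}.ncard := by
  obtain ⟨x₀, hx₀, hl⟩ := exists_proj h c v x
  rw [← pan_eq h hx₀]
  have hK' : ∀ w, w * M.simple v ∈ K → w ∈ K := by
    intro w hw
    have h1 := hK _ hw
    rwa [mul_assoc, simple_sq, mul_one] at h1
  have hc : ∀ y, δ x₀ y = M.simple v → δ c y = δ c x₀ * M.simple v := fun y hy => h.stepR_up hy hl
  have hne : ∀ y, δ x₀ y = M.simple v → y ≠ x₀ := by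
    rintro y hy rfl
    rw [h.self] at hy
    have h1 := len_simple M v
    rw [← hy, len_one] at h1
    omega
  by_cases hA : x₀ ∈ C ∧ δ c x₀ ∈ K ∧ Gd δ c Z a x₀
  · obtain ⟨hA0, hA1, hA2⟩ := hA
    by_cases hB : fl M (δ c x₀ * M.simple v) ⊆ fl M (δ c x₀)
    · -- no new letter
      have h1 : {y | y ∈ pan δ v x₀ ∧ y ∈ C ∧ δ c y ∈ K ∧ Gd δ c Z a y} =
          insert x₀ {y | δ x₀ y = M.simple v ∧ y ∈ C} := by
        ext y
        rw [Set.mem_insert_iff]
        refine ⟨fun hy => ?_, fun hy => ?_⟩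
        · rcases hy.1 with h1 | h1
          · exact Or.inl h1
          · exact Or.inr ⟨h1, hy.2.1⟩
        · rcases hy with rfl | hy
          · exact ⟨mem_pan_self v y, hA0, hA1, hA2⟩
          · refine ⟨Or.inr hy.1, hy.2, by rw [hc y hy.1]; exact hK _ hA1, fun t ht => ?_⟩
            by_cases htF : t ∈ fl M (δ c y)
            · rw [hc y hy.1] at htF
              exact gd_down h hy.1 hl (hB htF) (hA2 t ht)
            · exact gd_up h (ha t ht) htF
      have h2 := hC2 x₀ hl hA0 hB
      have h3 : {y | δ x₀ y = M.simple v ∧ y ∈ C}.Finite := by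
        refine Set.finite_of_ncard_ne_zero fun h0 => ?_
        rw [h0] at h2
        exact absurd h2 (by decide)
      rw [h1, Set.ncard_insert_of_notMem (fun h4 => hne x₀ h4.1 rfl) h3]
      exact h2.add_one
    · -- a new letter
      have hB' := hB
      rw [not_subset] at hB
      obtain ⟨t, ht1, ht0⟩ := hB
      have htw := fold M ht0 ht1
      have htZ : t ∈ Z := hZ _ (hK _ hA1) ht1
      have hat : δ (a t) x₀ = δ c x₀ * M.simple v := (hA2 t htZ).trans htw
      obtain ⟨y₁, hy1, hy2⟩ := h.exists_stepR v (a t) x₀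
      rw [hat, mul_assoc, simple_sq, mul_one] at hy2
      have hle : Le M (δ c x₀) (δ (a t) x₀) := by
        unfold Le
        rw [hat, inv_mul_cancel_left, len_simple, hl]
      have h1 : {y | y ∈ pan δ v x₀ ∧ y ∈ C ∧ δ c y ∈ K ∧ Gd δ c Z a y} = {x₀, y₁} := by
        ext y
        rw [Set.mem_insert_iff, Set.mem_singleton_iff]
        constructor
        · rintro ⟨hy | hy, -, -, hg⟩
          · exact Or.inl hy
          · right
            refine h.geo_unique (a := a t) (c := x₀) hle ?_ ?_ hy2 ?_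
            · rw [hg t htZ, hc y hy, ← mul_assoc, htw, mul_assoc, simple_sq, mul_one]
            · rw [hat, inv_mul_cancel_left]
              exact h.symm_simple hy
            · rw [hat, inv_mul_cancel_left]
              exact h.symm_simple hy1
        · rintro (rfl | rfl)
          · exact ⟨mem_pan_self v y, hA0, hA1, hA2⟩
          · refine ⟨Or.inr hy1, hC1 x₀ y hy1 hl hA0 hB', by rw [hc y hy1]; exact hK _ hA1,
              fun t' ht' => ?_⟩
            by_cases htF : t' ∈ fl M (δ c y)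
            · rw [hc y hy1] at htF
              by_cases ht0' : t' ∈ fl M (δ c x₀)
              · exact gd_down h hy1 hl ht0' (hA2 t' ht')
              · have h3 := fold M ht0' htF
                have h4 : t' = t := simple_inj M (mul_right_cancel (h3.trans htw.symm))
                subst h4
                rw [hc y hy1, ← mul_assoc, h3, mul_assoc, simple_sq, mul_one, hy2]
            · exact gd_up h (ha t' ht') htF
      rw [h1, Set.ncard_pair (hne y₁ hy1).symm]
      exact even_two
  · have h1 : {y | y ∈ pan δ v x₀ ∧ y ∈ C ∧ δ c y ∈ K ∧ Gd δ c Z a y} = ∅ := by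
      refine Set.eq_empty_of_forall_notMem ?_
      rintro y ⟨hy | hy, hy0, hy1, hy2⟩
      · subst hy
        exact hA ⟨hy0, hy1, hy2⟩
      · refine hA ⟨hC0 x₀ y hy hl hy0, hK' _ ?_, fun t ht => ?_⟩
        · rw [← hc y hy]
          exact hy1
        · exact gd_proj h (ha t ht) hy hl (hy2 t ht)
    rw [h1, Set.ncard_empty]
    exact Even.zero

/-! ### Labels -/

theorem mem_par_single {v : S} {w : M.Group} : w ∈ par M {v} ↔ w = 1 ∨ w = M.simple v := by
  constructor
  · refine par_induction M {v} (p := fun w => w = 1 ∨ w = M.simple v) (Or.inl rfl) ?_ w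
    intro u hu w hw
    rw [mem_singleton] at hu
    subst hu
    rcases hw with rfl | rfl
    · right
      rw [mul_one]
    · left
      exact simple_sq M u
  · rintro (rfl | rfl)
    · exact one_mem _
    · exact simple_mem_par M (mem_singleton_self v)

theorem mem_par_empty {w : M.Group} : w ∈ par M (∅ : Finset S) ↔ w = 1 := by
  constructor
  · exact par_induction M ∅ (p := fun w => w = 1) rfl
      (fun v hv => absurd hv (notMem_empty v)) w
  · rintro rfl
    exact one_mem _

theorem mem_pan_iff (h : IsBuilding M δ) {v : S} {x y : Δ} :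
    y ∈ pan δ v x ↔ δ x y ∈ par M {v} := by
  rw [mem_par_single]
  refine or_congr_left ?_
  rw [h.eq_one]
  exact eq_comm

variable {Lb : Type} [DecidableEq Lb] [VLb S Lb]

/-- the labels of a cell as a function -/
theorem exists_gd {c : Δ} {lab : S × Lb → Δ} (hL : LabOk M δ c lab) {A : Finset S}
    {a : Finset (S × Lb)} (ha : Lab A a) : ∃ a' : S → Δ, (∀ t ∈ A, δ c (a' t) = M.simple t) ∧
      ∀ x, (∀ q ∈ a, δ (lab q) x = M.simple q.1 * δ c x) ↔ Gd δ c A a' x := by
  have h1 : ∀ t, ∃ b : Δ, t ∈ A → ∃ j, (t, j) ∈ a ∧ (∀ j', (t, j') ∈ a → j' = j) ∧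
      b = lab (t, j) := by
    intro t
    by_cases ht : t ∈ A
    · obtain ⟨j, hj, hu⟩ := ha.2 t ht
      exact ⟨lab (t, j), fun _ => ⟨j, hj, hu, rfl⟩⟩
    · exact ⟨c, fun h => absurd h ht⟩
  choose f hf using h1
  refine ⟨f, fun t ht => ?_, fun x => ?_⟩
  · obtain ⟨j, -, -, h2⟩ := hf t ht
    rw [h2]
    exact hL.1 _
  · constructor
    · intro h t ht
      obtain ⟨j, h1, -, h2⟩ := hf t ht
      rw [h2]
      exact h _ h1
    · rintro h ⟨t, j⟩ hq
      have ht : t ∈ A := ha.1 _ hq
      obtain ⟨j', -, h2, h3⟩ := hf t ht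
      have h1 := h t ht
      rw [h3, ← h2 j hq] at h1
      exact h1

/-- PARITY of the panels of the set of chambers of a cell -/
theorem even_XX (h : IsBuilding M δ) {c : Δ} {C : Set Δ} (hS : Sel M δ c C) {lab : S × Lb → Δ}
    (hL : LabOk M δ c lab) {e : Cel M Lb} (he : Vld M e) {v : S} (hv : v ∈ e.2.1) (x : Δ) :
    Even {y | y ∈ XX M δ c lab C e ∧ δ x y ∈ par M {v}}.ncard := by
  obtain ⟨a, ha1, ha2⟩ := exists_gd hL he.2.2.1
  have h1 := even_panel h ha1 (K := {w | e.1⁻¹ * w ∈ par M e.2.1}) (v := v) (fun w hw => by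
    show e.1⁻¹ * (w * M.simple v) ∈ par M e.2.1
    rw [← mul_assoc]
    exact mul_mem hw (simple_mem_par M hv)) (fun w hw => fl_coset he.2.1 hw)
    (C := C) (fun x₀ y hy hl hyC => hS.down x₀ y v hy (by rw [h.stepR_up hy hl, hl]) hyC)
    (fun x₀ y hy hl hx hn => by
      rw [not_subset] at hn
      obtain ⟨t, ht1, ht2⟩ := hn
      exact hS.new x₀ hx v t y hy hl (fold M ht2 ht1))
    (fun x₀ hl hx hn => by
      have h2 := hS.odd x₀ hx v hl (fun t ht => by
        have h3 := new_of_eq M ht hl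
        exact h3.1 (hn h3.2))
      have h3 : {y | δ x₀ y = M.simple v ∧ y ∈ C} = {y | y ∈ C ∧ δ x₀ y = M.simple v} := by
        ext y
        exact and_comm
      rw [h3]
      exact h2) x
  have h2 : {y | y ∈ XX M δ c lab C e ∧ δ x y ∈ par M {v}} =
      {y | y ∈ pan δ v x ∧ y ∈ C ∧ δ c y ∈ {w | e.1⁻¹ * w ∈ par M e.2.1} ∧
        Gd δ c (fl M e.1) a y} := by
    ext y
    constructor
    · rintro ⟨⟨h3, h4, h5⟩, h6⟩
      exact ⟨(mem_pan_iff h).2 h6, h3, h4, (ha2 y).1 h5⟩
    · rintro ⟨h6, h3, h4, h5⟩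
      exact ⟨⟨h3, h4, (ha2 y).2 h5⟩, (mem_pan_iff h).1 h6⟩
  rw [h2]
  exact h1

/-! ### Finiteness -/

theorem sphere_finite (h : IsBuilding M δ) {q : S → Δ → ℕ} (hq : Reg M δ q) (c : Δ) (w : M.Group) :
    {x | δ c x = w}.Finite := by
  obtain ⟨n, hn⟩ : ∃ n, len M w = n := ⟨_, rfl⟩
  induction n generalizing w with
  | zero =>
    refine (Set.finite_singleton c).subset fun x hx => ?_
    have h1 : δ c x = 1 := by
      rw [show δ c x = w from hx]
      exact (len_eq_zero M).1 hn
    exact ((h.eq_one c x).1 h1).symm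
  | succ n ih =>
    have h1 : w ≠ 1 := by
      rintro rfl
      rw [len_one] at hn
      omega
    obtain ⟨u, hu⟩ := exists_right M h1
    have h2 := ih (w * M.simple u) (by omega)
    refine (h2.biUnion fun x' _ => (hq u x').1).subset fun x hx => ?_
    obtain ⟨x', h3, h4⟩ := h.exists_stepR u c x
    rw [Set.mem_iUnion₂]
    refine ⟨x', ?_, h.symm_simple h3⟩
    show δ c x' = w * M.simple u
    rw [h4, show δ c x = w from hx]

theorem XX_finite (h : IsBuilding M δ) {q : S → Δ → ℕ} (hq : Reg M δ q) {c : Δ} {C : Set Δ}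
    {lab : S × Lb → Δ} {e : Cel M Lb} (he : Sph M e.2.1) : (XX M δ c lab C e).Finite := by
  classical
  have h1 : {w | e.1⁻¹ * w ∈ par M e.2.1}.Finite := by
    have h2 : {w | e.1⁻¹ * w ∈ par M e.2.1} ⊆ (((parF M e.2.1).image fun u => e.1 * u :
        Finset M.Group) : Set M.Group) := by
      intro w hw
      rw [coe_image]
      exact ⟨e.1⁻¹ * w, (mem_parF he _).2 hw, mul_inv_cancel_left _ _⟩
    exact (finite_toSet _).subset h2
  refine (h1.biUnion fun w _ => sphere_finite h hq c w).subset fun x hx => ?_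
  rw [Set.mem_iUnion₂]
  exact ⟨δ c x, hx.2.1, rfl⟩

/-- functions which are constant on the panels of type `v` have sum zero -/
theorem sum_XX_const (h : IsBuilding M δ) {q : S → Δ → ℕ} (hq : Reg M δ q) {c : Δ} {C : Set Δ}
    (hS : Sel M δ c C) {lab : S × Lb → Δ} (hL : LabOk M δ c lab) {e : Cel M Lb} (he : Vld M e)
    {v : S} (hv : v ∈ e.2.1) (g : Δ → ZMod 2) (hg : ∀ x y, δ x y ∈ par M {v} → g x = g y) :
    ∑ᶠ x ∈ XX M δ c lab C e, g x = 0 := by
  classical
  have hfin := XX_finite h hq (C := C) (lab := lab) (c := c) he.1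
  rw [finsum_mem_eq_finite_toFinset_sum _ hfin,
    ← sum_fiberwise_of_maps_to (t := hfin.toFinset.image fun x => residue M δ {v} x)
      (g := fun x => residue M δ {v} x) (fun x hx => mem_image_of_mem _ hx)]
  refine sum_eq_zero fun R hR => ?_
  rw [mem_image] at hR
  obtain ⟨x, -, rfl⟩ := hR
  have h1 : ∀ y, residue M δ {v} y = residue M δ {v} x ↔ δ x y ∈ par M {v} := by
    intro y
    constructor
    · intro h2
      have h3 : x ∈ residue M δ {v} y := by
        rw [h2]
        show δ x x ∈ par M {v}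
        rw [h.self]
        exact one_mem _
      have h4 : δ y x ∈ par M {v} := h3
      rw [h.symm]
      exact inv_mem h4
    · intro h2
      ext z
      constructor
      · intro h3
        exact h.par_trans h2 h3
      · intro h3
        refine h.par_trans ?_ h3
        rw [h.symm]
        exact inv_mem h2
  have h2 : (hfin.toFinset.filter fun y => residue M δ {v} y = residue M δ {v} x).card =
      {y | y ∈ XX M δ c lab C e ∧ δ x y ∈ par M {v}}.ncard := by
    rw [← Set.ncard_coe_finset]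
    congr 1
    ext y
    rw [mem_coe, mem_filter, Set.Finite.mem_toFinset]
    exact and_congr_right fun _ => h1 y
  have h3 : ∀ y ∈ hfin.toFinset.filter fun y => residue M δ {v} y = residue M δ {v} x,
      g y = g x := by
    intro y hy
    rw [mem_filter] at hy
    exact (hg x y ((h1 y).1 hy.2)).symm
  rw [sum_congr rfl h3, sum_const, h2, nsmul_eq_mul]
  have h4 := even_XX h hS hL he hv x
  rw [(ZMod.natCast_eq_zero_iff_even).2 h4, zero_mul]

/-! ### Faces -/

theorem XX_face (h : IsBuilding M δ) {c : Δ} {C : Set Δ} {lab : S × Lb → Δ}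
    (hL : LabOk M δ c lab) {e : Cel M Lb} (he : Vld M e) {v : S} {y : M.Group}
    (hy : y ∈ cs M e.1 e.2.1 (e.2.1.erase v)) {x : Δ} :
    x ∈ XX M δ c lab C (face M e v y) ↔
      x ∈ XX M δ c lab C e ∧ y⁻¹ * δ c x ∈ par M (e.2.1.erase v) := by
  rw [mem_cs he.1] at hy
  constructor
  · rintro ⟨h1, h2, h3⟩
    refine ⟨⟨h1, ?_, fun q hq => ?_⟩, h2⟩
    · have h4 : e.1⁻¹ * δ c x = e.1⁻¹ * y * (y⁻¹ * δ c x) := by group
      rw [h4]
      exact mul_mem hy.1 (par_mono M (erase_subset _ _) h2)
    · by_cases h4 : q.1 ∈ fl M y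
      · exact h3 q (mem_filter.2 ⟨hq, h4⟩)
      · exact gd_up h (hL.1 q) fun h5 => h4 (fl_coset hy.2 h2 h5)
  · rintro ⟨⟨h1, h2, h3⟩, h4⟩
    exact ⟨h1, h4, fun q hq => h3 q (mem_filter.1 hq).1⟩

/-- the chambers of a cell are the chambers of its faces in the direction `v` -/
theorem sum_XX_face (h : IsBuilding M δ) {q : S → Δ → ℕ} (hq : Reg M δ q) {c : Δ} {C : Set Δ}
    {lab : S × Lb → Δ} (hL : LabOk M δ c lab) {e : Cel M Lb} (he : Vld M e) (v : S)
    (g : Δ → ZMod 2) :
    ∑ᶠ x ∈ XX M δ c lab C e, g x =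
      ∑ y ∈ cs M e.1 e.2.1 (e.2.1.erase v), ∑ᶠ x ∈ XX M δ c lab C (face M e v y), g x := by
  have hs' : Sph M (e.2.1.erase v) := he.1.mono (erase_subset _ _)
  have h1 : XX M δ c lab C e = ⋃ y ∈ (cs M e.1 e.2.1 (e.2.1.erase v) : Set M.Group),
      XX M δ c lab C (face M e v y) := by
    ext x
    rw [Set.mem_iUnion₂]
    constructor
    · intro hx
      obtain ⟨y, hy1, hy2⟩ := exists_mx hs' (δ c x)
      have hy : y ∈ cs M e.1 e.2.1 (e.2.1.erase v) := by
        rw [mem_cs he.1]
        refine ⟨?_, hy1⟩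
        have h4 : e.1⁻¹ * y = e.1⁻¹ * δ c x * (y⁻¹ * δ c x)⁻¹ := by group
        rw [h4]
        exact mul_mem hx.2.1 (inv_mem (par_mono M (erase_subset _ _) hy2))
      exact ⟨y, hy, (XX_face h hL he hy).2 ⟨hx, hy2⟩⟩
    · rintro ⟨y, hy, hx⟩
      exact ((XX_face h hL he hy).1 hx).1
  have h5 : (cs M e.1 e.2.1 (e.2.1.erase v) : Set M.Group).PairwiseDisjoint
      fun y => XX M δ c lab C (face M e v y) := by
    intro y hy y' hy' hne
    refine Set.disjoint_left.2 fun x hx hx' => hne ?_
    have h2 := ((XX_face h hL he hy).1 hx).2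
    have h3 := ((XX_face h hL he hy').1 hx').2
    have hy2 := ((mem_cs he.1).1 hy).2
    have hy2' := ((mem_cs he.1).1 hy').2
    refine hy2.unique hy2' ?_
    have h4 : y⁻¹ * y' = y⁻¹ * δ c x * (y'⁻¹ * δ c x)⁻¹ := by group
    rw [h4]
    exact mul_mem h2 (inv_mem h3)
  rw [h1, finsum_mem_biUnion h5 (finite_toSet _) fun y _ => XX_finite h hq hs']
  exact finsum_mem_coe_finset _ _

/-- the chambers of the base cell -/
theorem XX_base (h : IsBuilding M δ) {c : Δ} {C : Set Δ} (hS : Sel M δ c C)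
    {lab : S × Lb → Δ} : XX M δ c lab C (b0 M Lb) = {c} := by
  ext x
  rw [Set.mem_singleton_iff]
  constructor
  · rintro ⟨-, h1, -⟩
    have h2 : (1 : M.Group)⁻¹ * δ c x ∈ par M (∅ : Finset S) := h1
    rw [inv_one, one_mul, mem_par_empty, h.eq_one] at h2
    exact h2.symm
  · rintro rfl
    refine ⟨hS.base, ?_, fun q hq => absurd hq (notMem_empty q)⟩
    show (1 : M.Group)⁻¹ * δ x x ∈ par M (∅ : Finset S)
    rw [h.self, inv_one, one_mul]
    exact one_mem _

end Pool.Agent.H4.BD
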