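import Pool.Agent.H4.BD.SelB
import Pool.Agent.H4.BD.Pan
import Pool.Agent.H4.BD.SelP
import Pool.Agent.H4.FC.SphIff
import Pool.Agent.H78.RC.RootA

/-!
# Project BD: the set of chambers, with right-angled letters with an even `q`

PROOF. `q v b + 1` is the number of chambers of the `v`-panel of `b`. If `q v b` is even for some `b` then `M s v ∈ {2, 0}` for `s ≠ v`;
`v^⊥ = {s ≠ v | M s v = 2}`. In every residue `R` of type `{v} ∪ v^⊥` which does not contain `c` choose a chamber `e_R ∈ R` such that `v` is a
right descent of `δ c (e_R)`, `Bad v = {b | the residue R of b does not contain c, δ (e_R) b ∈ par (v^⊥), q v b even}` (`q v` is constant on `R`: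
parallel panels). `C = {x | ∀ b, Le M (δ c b) (δ c x) → δ b x = (δ c b)⁻¹ δ c x → ∀ v, b ∉ Bad v}`.
`base`, `down`: clear. KEY: if `w_b` has the only right descent `v`, `Le M w_b y`, `u` a right descent of `y`, then `Le M w_b (y u)` or (`u = v` and
`w_b⁻¹ y ∈ par (v^⊥)`); induction on `len (w_b⁻¹ y)`, last letter `u'` of `w_b⁻¹ y`: `u' = u` clear, else `u`, `u'` are both right descents of `y`, so
`y = y₁ w_(u,u')` (finite dihedral), and `m = 2` if one of them is `v`; go down with the induction hypothesis.
A bad chamber `b` can be replaced by the chamber of its `v^⊥`-residue closest to `c`: then `v` is the only right descent. So for `x ∈ C` and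
an outer chamber `y` of a `u`-panel, `x` its projection: `y ∈ C` iff `u` is not even or `y ∉ Bad u`. `new`, `u` even: `t w₀ = w₀ u` gives
`w₀ ∈ par (u^⊥)`, so the residue of `x` contains `c`, and no outer chamber is bad. `odd`, `u` even: `c` is not in `R` (else `w₀ ∈ par (u^⊥)`,
`u` is new) and exactly one outer chamber of the panel is in the class of `e_R`.
-/

set_option autoImplicit false
set_option linter.unusedSectionVars false

open Finset

namespace Pool.Agent.H4.BD

open Pool.Agent.H4.FC Pool.Agent.H78.RC Pool.Agent.H97.BLD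

variable {S Δ : Type} [Fintype S] [DecidableEq S] {M : CoxeterMatrix S} {δ : Δ → Δ → M.Group}
  {q : S → Δ → ℕ}

/-! ### Right-angled letters -/

/-- the letters orthogonal to `v` -/
private def selR_pp (M : CoxeterMatrix S) (v : S) : Finset S :=
  univ.filter fun s => s ≠ v ∧ M v s = 2

private theorem selR_mem {v s : S} : s ∈ selR_pp M v ↔ s ≠ v ∧ M v s = 2 := by
  unfold selR_pp
  rw [mem_filter, and_iff_right (mem_univ s)]

private theorem selR_comm2 {u v : S} (h : M u v = 2) :
    M.simple u * M.simple v = M.simple v * M.simple u := by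
  have h1 := M.toCoxeterSystem.simple_mul_simple_pow u v
  rw [M.toCoxeterSystem_simple, h, pow_two] at h1
  have h2 : M.simple u * M.simple v = (M.simple u * M.simple v)⁻¹ := eq_inv_of_mul_eq_one_left h1
  rw [mul_inv_rev, simple_inv, simple_inv] at h2
  exact h2

private theorem selR_T {v : S} {p : M.Group} (hp : p ∈ par M (selR_pp M v)) :
    T M p (Pi.single v 1) = Pi.single v 1 := by
  refine par_induction M (selR_pp M v) (p := fun p => T M p (Pi.single v 1) = Pi.single v 1) ?_ ?_
    p hp
  · exact T_one M _
  · intro s hs w ih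
    rw [selR_mem] at hs
    have h1 : kR M s v = 0 := by
      rw [kR_symm]
      exact (kR_zero M (Ne.symm hs.1)).2 hs.2
    show T M (M.simple s * w) (Pi.single v 1) = Pi.single v 1
    rw [T_mul, ih, T_simple, bf_single, h1, zero_smul, sub_zero]

private theorem selR_par_comm {v : S} {p : M.Group} (hp : p ∈ par M (selR_pp M v)) :
    p * M.simple v = M.simple v * p := by
  refine par_induction M (selR_pp M v) (p := fun p => p * M.simple v = M.simple v * p) ?_ ?_
    p hp
  · show (1 : M.Group) * M.simple v = M.simple v * 1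
    rw [one_mul, mul_one]
  · intro s hs w ih
    rw [selR_mem] at hs
    show M.simple s * w * M.simple v = M.simple v * (M.simple s * w)
    rw [mul_assoc, ih, ← mul_assoc, ← mul_assoc, selR_comm2 hs.2]

private theorem selR_up {v : S} {p : M.Group} (hp : p ∈ par M (selR_pp M v)) (w : M.Group) :
    len M (w * p * M.simple v) = len M (w * p) + 1 ↔ len M (w * M.simple v) = len M w + 1 := by
  rw [len_up_iff, len_up_iff, T_mul, selR_T hp]

private theorem selR_down {v : S} {p : M.Group} (hp : p ∈ par M (selR_pp M v)) (w : M.Group) :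
    len M (w * p * M.simple v) + 1 = len M (w * p) ↔ len M (w * M.simple v) + 1 = len M w := by
  rw [len_down_iff, len_down_iff, T_mul, selR_T hp]

private theorem selR_insert {v : S} {w : M.Group} (hw : w ∈ par M (insert v (selR_pp M v))) :
    w ∈ par M (selR_pp M v) ∨ w * M.simple v ∈ par M (selR_pp M v) := by
  refine par_induction M (insert v (selR_pp M v)) (p := fun w => w ∈ par M (selR_pp M v) ∨
    w * M.simple v ∈ par M (selR_pp M v)) (Or.inl (one_mem _)) ?_ w hw
  intro s hs w ih
  rw [mem_insert] at hs
  rcases hs with rfl | hs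
  · rcases ih with h1 | h1
    · right
      rw [← selR_par_comm h1, mul_assoc, simple_sq, mul_one]
      exact h1
    · left
      have h2 : M.simple s * w = w * M.simple s := by
        have h3 := selR_par_comm h1
        rw [mul_assoc, simple_sq, mul_one] at h3
        have h4 : M.simple s * w = M.simple s * (w * M.simple s) * M.simple s := by
          rw [← mul_assoc, mul_assoc, simple_sq, mul_one]
        rw [h4, ← h3]
      rw [h2]
      exact h1
  · rcases ih with h1 | h1
    · exact Or.inl (mul_mem (simple_mem_par M hs) h1)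
    · right
      rw [mul_assoc]
      exact mul_mem (simple_mem_par M hs) h1

private theorem selR_not_mem {v : S} : M.simple v ∉ par M (selR_pp M v) := by
  intro h
  have h1 : v ∈ selR_pp M v := descent_par M h (by
    rw [simple_sq, len_one, len_simple])
  exact (selR_mem.1 h1).1 rfl

/-- an element of `W_(v, v^⊥)` without the descent `v` -/
private theorem selR_insert_up {v : S} {w : M.Group} (hw : w ∈ par M (insert v (selR_pp M v)))
    (hl : len M (w * M.simple v) = len M w + 1) : w ∈ par M (selR_pp M v) := by
  rcases selR_insert hw with h | h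
  · exact h
  · exfalso
    have h1 : ¬ len M (w * M.simple v * M.simple v) + 1 = len M (w * M.simple v) := fun h2 =>
      (selR_mem.1 (descent_par M h h2)).1 rfl
    apply h1
    rw [mul_assoc, simple_sq, mul_one, hl]

/-- two right descents -/
private theorem selR_ne_zero {y : M.Group} {s t : S} (hst : s ≠ t)
    (hs : len M (y * M.simple s) + 1 = len M y) (ht : len M (y * M.simple t) + 1 = len M y) :
    Mx M {s, t} y ∧ M s t ≠ 0 := by
  have h1 : Mx M {s, t} y := by
    rw [mx_iff]
    intro x hx
    rw [mem_insert, mem_singleton] at hx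
    rcases hx with rfl | rfl
    · exact hs
    · exact ht
  refine ⟨h1, ?_⟩
  exact ((sph_cl M _ h1.sph) s (by simp) t (by simp) hst).2

/-! ### Right descents and the weak order -/

private theorem selR_le_step {w y : M.Group} {s : S} (h : Le M w y)
    (hs : len M (w⁻¹ * y * M.simple s) + 1 = len M (w⁻¹ * y)) :
    len M (y * M.simple s) + 1 = len M y ∧ Le M w (y * M.simple s) := by
  unfold Le at h ⊢
  have h1 : w⁻¹ * (y * M.simple s) = w⁻¹ * y * M.simple s := by group
  have h2 : len M (y * M.simple s) ≤ len M w + len M (w⁻¹ * (y * M.simple s)) := by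
    have h3 := len_mul_le M w (w⁻¹ * (y * M.simple s))
    rwa [mul_inv_cancel_left] at h3
  rw [h1] at h2 ⊢
  rcases len_mul_simple M y s with h3 | h3 <;> omega

private theorem selR_key {v : S} (hv : ∀ t, t ≠ v → M v t = 2 ∨ M v t = 0) {w : M.Group}
    (hw : ∀ s, len M (w * M.simple s) + 1 = len M w → s = v) (n : ℕ) :
    ∀ y, Le M w y → len M (w⁻¹ * y) = n → ∀ u, len M (y * M.simple u) + 1 = len M y →
      Le M w (y * M.simple u) ∨ (u = v ∧ w⁻¹ * y ∈ par M (selR_pp M v)) := by
  induction n using Nat.strong_induction_on with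
  | _ n ih =>
    intro y hy hn u hu
    by_cases h1 : w⁻¹ * y = 1
    · right
      have h2 : y = w := (inv_mul_eq_one.1 h1).symm
      rw [h1]
      rw [h2] at hu
      exact ⟨hw u hu, one_mem _⟩
    obtain ⟨u', hu'⟩ := exists_right M h1
    obtain ⟨h2, h3⟩ := selR_le_step hy hu'
    by_cases huu : u' = u
    · left
      rw [← huu]
      exact h3
    obtain ⟨hmx, hM0⟩ := selR_ne_zero (Ne.symm huu) hu h2
    have hlt : len M (w⁻¹ * (y * M.simple u')) < n := by
      have h4 : w⁻¹ * (y * M.simple u') = w⁻¹ * y * M.simple u' := by group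
      rw [h4]
      omega
    by_cases hM2 : M u u' = 2
    · -- orthogonal letters
      have hc : M.simple u * M.simple u' = M.simple u' * M.simple u := selR_comm2 hM2
      have hlen : len M (y * (M.simple u * M.simple u')) + 2 = len M y := by
        have h4 := hmx.len_add (u := M.simple u * M.simple u') (mul_mem
          (simple_mem_par M (by simp)) (simple_mem_par M (by simp)))
        have h5 : len M (M.simple u * M.simple u') = 2 := by
          rcases len_mul_simple M (M.simple u) u' with h6 | h6
          · rw [h6, len_simple]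
          · exfalso
            rw [len_simple] at h6
            have h7 : M.simple u * M.simple u' = 1 := (len_eq_zero M).1 (by omega)
            have h8 : M.simple u = M.simple u' := by
              rw [← simple_inv M u']
              exact eq_inv_of_mul_eq_one_left h7
            exact huu (simple_inj M h8).symm
        omega
      have h4 : len M (y * M.simple u' * M.simple u) + 1 = len M (y * M.simple u') := by
        rw [mul_assoc, ← hc]
        omega
      rcases ih _ hlt (y * M.simple u') h3 rfl u h4 with h5 | ⟨h5, h6⟩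
      · left
        refine le_trans' M h5 ?_
        unfold Le
        have h6 : (y * M.simple u' * M.simple u)⁻¹ * (y * M.simple u) = M.simple u' := by
          have h7 : y * M.simple u' * M.simple u = y * M.simple u * M.simple u' := by
            rw [mul_assoc, ← hc, ← mul_assoc]
          rw [h7, mul_inv_rev, simple_inv]
          group
        rw [h6, len_simple, mul_assoc, ← hc]
        omega
      · right
        refine ⟨h5, ?_⟩
        have h7 : u' ∈ selR_pp M v := by
          rw [selR_mem, ← h5]
          exact ⟨huu, hM2⟩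
        have h8 : w⁻¹ * y = w⁻¹ * (y * M.simple u') * M.simple u' := by
          rw [mul_assoc, mul_assoc, simple_sq, mul_one]
        rw [h8]
        exact mul_mem h6 (simple_mem_par M h7)
    · -- a dihedral group without the letter `v`
      have huv : u ≠ v := by
        rintro rfl
        rcases hv u' huu with h4 | h4
        · exact hM2 h4
        · exact hM0 h4
      have hu'v : u' ≠ v := by
        rintro rfl
        have h5 : M u' u = M u u' := M.symmetric u' u
        rcases hv u (Ne.symm huu) with h4 | h4
        · exact hM2 (h5 ▸ h4)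
        · exact hM0 (h5 ▸ h4)
      left
      have claim : ∀ k, ∀ p ∈ par M {u, u'}, len M p = k →
          len M (M.simple u' * p) = len M p + 1 → Le M w (y * (M.simple u' * p)) := by
        intro k
        induction k with
        | zero =>
          intro p _ hp _
          rw [(len_eq_zero M).1 hp, mul_one]
          exact h3
        | succ k ihk =>
          intro p hpp hp hl
          have hp1 : p ≠ 1 := by
            rintro rfl
            rw [len_one] at hp
            omega
          obtain ⟨s, hs⟩ := exists_right M hp1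
          have hsJ : s ∈ ({u, u'} : Finset S) := descent_par M hpp hs
          have hps : p * M.simple s ∈ par M {u, u'} := mul_mem hpp (simple_mem_par M hsJ)
          have h4 : len M (M.simple u' * (p * M.simple s)) = len M (p * M.simple s) + 1 := by
            rcases len_simple_mul M (p * M.simple s) u' with h5 | h5
            · exact h5
            · exfalso
              have h6 := len_mul_simple M (M.simple u' * (p * M.simple s)) s
              have h7 : M.simple u' * (p * M.simple s) * M.simple s = M.simple u' * p := by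
                rw [mul_assoc, mul_assoc, simple_sq, mul_one]
              rw [h7] at h6
              omega
          have h5 := ihk (p * M.simple s) hps (by omega) h4
          have h6 : len M (M.simple u' * p) + len M (y * (M.simple u' * p)) = len M y := by
            have h7 := hmx.len_add (u := M.simple u' * p) (mul_mem
              (simple_mem_par M (by simp)) hpp)
            omega
          have h7 : len M (M.simple u' * (p * M.simple s)) +
              len M (y * (M.simple u' * (p * M.simple s))) = len M y := by
            have h8 := hmx.len_add (u := M.simple u' * (p * M.simple s)) (mul_mem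
              (simple_mem_par M (by simp)) hps)
            omega
          have h8 : y * (M.simple u' * (p * M.simple s)) * M.simple s = y * (M.simple u' * p) := by
            rw [mul_assoc, mul_assoc, mul_assoc, simple_sq, mul_one]
          have h9 : s ≠ v := by
            rw [mem_insert, mem_singleton] at hsJ
            rcases hsJ with rfl | rfl
            · exact huv
            · exact hu'v
          have h10 : len M (w⁻¹ * (y * (M.simple u' * (p * M.simple s)))) < n := by
            unfold Le at h5 hy
            omega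
          rcases ih _ h10 _ h5 rfl s (by rw [h8]; omega) with h11 | h11
          · rw [h8] at h11
            exact h11
          · exact absurd h11.1 h9
      obtain ⟨z, hz, hz1⟩ := exists_mx hmx.sph 1
      rw [mul_one] at hz1
      rw [mx_iff] at hz
      have hdes : ∀ t ∈ ({u, u'} : Finset S), len M (M.simple t * z⁻¹) + 1 = len M z⁻¹ := by
        intro t ht
        have h4 := hz t ht
        rw [← len_inv M (z * M.simple t), mul_inv_rev, simple_inv] at h4
        rw [h4, len_inv]
      have h4 := claim _ (M.simple u' * z⁻¹) (mul_mem (simple_mem_par M (by simp)) hz1) rfl (by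
        rw [← mul_assoc, simple_sq, one_mul]
        exact (hdes u' (by simp)).symm)
      rw [← mul_assoc (M.simple u'), simple_sq, one_mul] at h4
      refine le_trans' M h4 ?_
      unfold Le
      have h5 : (y * z⁻¹)⁻¹ * (y * M.simple u) = (M.simple u * z⁻¹)⁻¹ := by
        rw [mul_inv_rev, mul_inv_rev, inv_inv, simple_inv]
        group
      have h6 := hmx.len_add hz1
      have h7 := hdes u (by simp)
      rw [h5, len_inv]
      omega

/-- a letter conjugate to a right-angled letter -/
private theorem selR_conj {u t : S} (hv : ∀ s, s ≠ u → M u s = 2 ∨ M u s = 0) (n : ℕ) :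
    ∀ w : M.Group, len M w = n → len M (w * M.simple u) = len M w + 1 →
      M.simple t * w = w * M.simple u → w ∈ par M (selR_pp M u) := by
  induction n with
  | zero =>
    intro w hw _ _
    rw [(len_eq_zero M).1 hw]
    exact one_mem _
  | succ n ih =>
    intro w hw hl ht
    have hw1 : w ≠ 1 := by
      rintro rfl
      rw [len_one] at hw
      omega
    obtain ⟨s, hs⟩ := exists_right M hw1
    have hsu : s ≠ u := by
      rintro rfl
      omega
    have h1 : M.simple t * (w * M.simple s) = w * M.simple u * M.simple s := by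
      rw [← mul_assoc, ht]
    have h2 : len M (w * M.simple u * M.simple s) + 1 = len M (w * M.simple u) := by
      have h3 := len_simple_mul M (w * M.simple s) t
      have h4 := len_mul_simple M (w * M.simple u) s
      rw [h1] at h3
      omega
    have h3 : len M (w * M.simple u * M.simple u) + 1 = len M (w * M.simple u) := by
      rw [mul_assoc, simple_sq, mul_one, hl]
    have h4 : M u s = 2 := by
      rcases hv s hsu with h5 | h5
      · exact h5
      · exact absurd h5 (selR_ne_zero (Ne.symm hsu) h3 h2).2
    have h5 : M.simple u * M.simple s = M.simple s * M.simple u := selR_comm2 h4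
    have h6 : w * M.simple u * M.simple s = w * M.simple s * M.simple u := by
      rw [mul_assoc, h5, ← mul_assoc]
    have h7 := ih (w * M.simple s) (by omega) (by
      rw [← h6]
      omega) (by rw [h1, h6])
    have h8 : w = w * M.simple s * M.simple s := by rw [mul_assoc, simple_sq, mul_one]
    rw [h8]
    exact mul_mem h7 (simple_mem_par M (selR_mem.2 ⟨hsu, h4⟩))

/-! ### Geodesics from `c` -/

/-- the chamber `b` is on a geodesic from `c` to `x` -/
private def SelRG (M : CoxeterMatrix S) (δ : Δ → Δ → M.Group) (c b x : Δ) : Prop :=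
  Le M (δ c b) (δ c x) ∧ δ b x = (δ c b)⁻¹ * δ c x

private theorem selR_geo_refl (h : IsBuilding M δ) (c x : Δ) : SelRG M δ c x x := by
  refine ⟨?_, ?_⟩
  · unfold Le
    rw [inv_mul_cancel, len_one, add_zero]
  · rw [h.self, inv_mul_cancel]

private theorem selR_geo_trans (h : IsBuilding M δ) {c b b' x : Δ} (h1 : SelRG M δ c b' b)
    (h2 : SelRG M δ c b x) : SelRG M δ c b' x := by
  have h3 := le_trans' M h1.1 h2.1
  refine ⟨h3, ?_⟩
  have h4 : δ b' b * δ b x = (δ c b')⁻¹ * δ c x := by
    rw [h1.2, h2.2]
    group
  rw [← h4]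
  refine h.add ?_
  rw [h4, h1.2, h2.2]
  have h5 := h1.1
  have h6 := h2.1
  unfold Le at h3 h5 h6
  omega

private theorem selR_le_up {w : M.Group} {u : S}
    (hl : len M (w * M.simple u) = len M w + 1) : Le M w (w * M.simple u) := by
  unfold Le
  rw [inv_mul_cancel_left, len_simple, hl]

private theorem selR_geo_up (h : IsBuilding M δ) {c b x y : Δ} {u : S} (hxy : δ x y = M.simple u)
    (hl : len M (δ c x * M.simple u) = len M (δ c x) + 1) (hg : SelRG M δ c b x) :
    SelRG M δ c b y := by
  have h1 := h.stepR_up hxy hl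
  have h2 : Le M (δ c b) (δ c y) := by
    rw [h1]
    exact le_trans' M hg.1 (selR_le_up hl)
  refine ⟨h2, ?_⟩
  have h3 : δ b x * M.simple u = (δ c b)⁻¹ * δ c y := by
    rw [hg.2, h1, mul_assoc]
  rw [← h3]
  refine h.stepR_up hxy ?_
  rw [h3, hg.2]
  have h4 := hg.1
  unfold Le at h2 h4
  rw [h1] at h2 ⊢
  omega

private theorem selR_geo_down (h : IsBuilding M δ) {c b x y : Δ} {u : S}
    (hxy : δ x y = M.simple u) (hl : len M (δ c x * M.simple u) = len M (δ c x) + 1)
    (hg : SelRG M δ c b y) (hle : Le M (δ c b) (δ c x)) : SelRG M δ c b x := by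
  refine ⟨hle, ?_⟩
  have h1 := h.stepR_up hxy hl
  obtain ⟨x', hx1, hx2⟩ := h.exists_stepR u b y
  have h2 : δ b x' = (δ c b)⁻¹ * δ c x := by
    rw [hx2, hg.2, h1, mul_assoc, mul_assoc, simple_sq, mul_one]
  have h3 : δ c x' = δ c x := by
    have h4 : δ c b * δ b x' = δ c x := by rw [h2, mul_inv_cancel_left]
    rw [← h4]
    refine h.add ?_
    rw [h4, h2]
    exact hle.symm
  have h4 : x = x' := by
    have h5 : (δ c x)⁻¹ * δ c y = M.simple u := by rw [h1, inv_mul_cancel_left]
    refine h.geo_unique (a := c) (c := y) (v := δ c x) ?_ rfl ?_ h3 ?_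
    · rw [h1]
      exact selR_le_up hl
    · rw [h5, hxy]
    · rw [h5]
      exact h.symm_simple hx1
  rw [h4, h2, ← h4]

/-- the chamber of the `J`-residue of `b` closest to `c` -/
private theorem selR_near (h : IsBuilding M δ) (J : Finset S) (c b : Δ) :
    ∃ b', SelRG M δ c b' b ∧ δ b' b ∈ par M J ∧
      ∀ s ∈ J, len M (δ c b' * M.simple s) = len M (δ c b') + 1 := by
  obtain ⟨a, ha, g, hg, hd⟩ := par_dec M J (δ c b)⁻¹
  have h1 : δ c b = g⁻¹ * a⁻¹ := by
    rw [← mul_inv_rev, ← hg, inv_inv]
  have h2 : (g⁻¹)⁻¹ * δ c b = a⁻¹ := by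
    rw [h1]
    group
  have h3 : Le M g⁻¹ (δ c b) := by
    unfold Le
    rw [h2, len_inv, len_inv, ← len_inv M (δ c b), hg, len_par_mul M ha hd, add_comm]
  obtain ⟨b', hb1, hb2⟩ := h.exists_geo h3
  refine ⟨b', ⟨?_, ?_⟩, ?_, ?_⟩
  · rw [hb1]
    exact h3
  · rw [hb2, hb1]
  · rw [hb2, h2]
    exact inv_mem ha
  · intro s hs
    rw [hb1, ← len_inv M (g⁻¹ * M.simple s), mul_inv_rev, simple_inv, inv_inv, len_inv]
    exact hd s hs

/-! ### Bad chambers -/

open Classical in
/-- a chosen chamber of the set `R` -/
private noncomputable def selR_e (M : CoxeterMatrix S) (δ : Δ → Δ → M.Group) (c : Δ) (v : S)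
    (R : Set Δ) : Δ :=
  if h : ∃ d, d ∈ R ∧ len M (δ c d * M.simple v) + 1 = len M (δ c d) then h.choose else c

/-- the bad chambers of type `v` -/
private def SelRB (M : CoxeterMatrix S) (δ : Δ → Δ → M.Group) (c : Δ) (v : S) : Set Δ :=
  {b | c ∉ residue M δ (insert v (selR_pp M v)) b ∧
    δ (selR_e M δ c v (residue M δ (insert v (selR_pp M v)) b)) b ∈ par M (selR_pp M v)}

private theorem selR_e_spec (h : IsBuilding M δ) (c : Δ) (v : S) (x : Δ) :
    selR_e M δ c v (residue M δ (insert v (selR_pp M v)) x) ∈
      residue M δ (insert v (selR_pp M v)) x ∧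
    len M (δ c (selR_e M δ c v (residue M δ (insert v (selR_pp M v)) x)) * M.simple v) + 1 =
      len M (δ c (selR_e M δ c v (residue M δ (insert v (selR_pp M v)) x))) := by
  have h1 : ∃ d, d ∈ residue M δ (insert v (selR_pp M v)) x ∧
      len M (δ c d * M.simple v) + 1 = len M (δ c d) := by
    rcases len_mul_simple M (δ c x) v with h2 | h2
    · obtain ⟨x', h3, h4⟩ := h.exists_stepR v c x
      refine ⟨x', ?_, ?_⟩
      · show δ x x' ∈ par M (insert v (selR_pp M v))
        rw [h3]
        exact simple_mem_par M (mem_insert_self _ _)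
      · rw [h4, mul_assoc, simple_sq, mul_one, h2]
    · refine ⟨x, ?_, h2⟩
      show δ x x ∈ par M (insert v (selR_pp M v))
      rw [h.self]
      exact one_mem _
  unfold selR_e
  rw [dif_pos h1]
  exact h1.choose_spec

private theorem selR_symm_par (h : IsBuilding M δ) {J : Finset S} {a b : Δ}
    (hab : δ a b ∈ par M J) : δ b a ∈ par M J := by
  rw [h.symm a b]
  exact inv_mem hab

private theorem selR_res (h : IsBuilding M δ) {J : Finset S} {a b : Δ}
    (hab : δ a b ∈ par M J) : residue M δ J a = residue M δ J b := by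
  ext d
  exact ⟨fun hd => h.par_trans (selR_symm_par h hab) hd, fun hd => h.par_trans hab hd⟩

private theorem selR_bad_class (h : IsBuilding M δ) {c b b' : Δ} {v : S}
    (hb : b ∈ SelRB M δ c v) (hbb : δ b b' ∈ par M (selR_pp M v)) : b' ∈ SelRB M δ c v := by
  have h1 : residue M δ (insert v (selR_pp M v)) b = residue M δ (insert v (selR_pp M v)) b' :=
    selR_res h (par_mono M (subset_insert _ _) hbb)
  obtain ⟨h2, h3⟩ := hb
  rw [h1] at h2 h3
  exact ⟨h2, h.par_trans h3 hbb⟩

private theorem selR_bad_desc (h : IsBuilding M δ) {c b : Δ} {v : S}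
    (hb : b ∈ SelRB M δ c v) : len M (δ c b * M.simple v) + 1 = len M (δ c b) := by
  have h1 := (selR_e_spec h c v b).2
  have h2 := h.mem_mul (a := c) hb.2
  have h3 := (selR_down h2 _).2 h1
  rw [mul_inv_cancel_left] at h3
  exact h3

private theorem selR_main (h : IsBuilding M δ) {c x y b : Δ} {u v : S}
    (hv : ∀ t, t ≠ v → M v t = 2 ∨ M v t = 0) (hxy : δ x y = M.simple u)
    (hl : len M (δ c x * M.simple u) = len M (δ c x) + 1) (hb : b ∈ SelRB M δ c v)
    (hg : SelRG M δ c b y) :
    (∃ b' ∈ SelRB M δ c v, δ b' b ∈ par M (selR_pp M v) ∧ SelRG M δ c b' x) ∨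
      (u = v ∧ δ y b ∈ par M (selR_pp M v) ∧ y ∈ SelRB M δ c v) := by
  obtain ⟨b', h1, h2, h3⟩ := selR_near h (selR_pp M v) c b
  have h4 : b' ∈ SelRB M δ c v := selR_bad_class h hb (selR_symm_par h h2)
  have h5 := selR_geo_trans h h1 hg
  have h6 : δ c y = δ c x * M.simple u := h.stepR_up hxy hl
  have h7 : ∀ s, len M (δ c b' * M.simple s) + 1 = len M (δ c b') → s = v := by
    intro s hs
    by_contra hsv
    have h8 := (selR_ne_zero hsv hs (selR_bad_desc h h4)).2
    rcases hv s hsv with h9 | h9
    · have h10 := h3 s (selR_mem.2 ⟨hsv, h9⟩)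
      omega
    · rw [M.symmetric v s] at h9
      exact h8 h9
  have h8 : len M (δ c y * M.simple u) + 1 = len M (δ c y) := by
    rw [h6, mul_assoc, simple_sq, mul_one, hl]
  rcases selR_key hv h7 _ (δ c y) h5.1 rfl u h8 with h9 | ⟨h9, h10⟩
  · left
    refine ⟨b', h4, h2, selR_geo_down h hxy hl h5 ?_⟩
    rw [h6, mul_assoc, simple_sq, mul_one] at h9
    exact h9
  · right
    rw [← h5.2] at h10
    exact ⟨h9, h.par_trans (selR_symm_par h h10) h2, selR_bad_class h h4 h10⟩

/-- exactly one of the outer chambers is bad -/
private theorem selR_one (h : IsBuilding M δ) {c x : Δ} {u : S}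
    (hl : len M (δ c x * M.simple u) = len M (δ c x) + 1)
    (hn : ∀ t, M.simple t * δ c x ≠ δ c x * M.simple u) :
    ∃ y₀, δ x y₀ = M.simple u ∧ ∀ y, δ x y = M.simple u → (y ∈ SelRB M δ c u ↔ y = y₀) := by
  have hres : ∀ y, δ x y = M.simple u → residue M δ (insert u (selR_pp M u)) y =
      residue M δ (insert u (selR_pp M u)) x := by
    intro y hy
    refine (selR_res h ?_).symm
    rw [hy]
    exact simple_mem_par M (mem_insert_self _ _)
  have hc : c ∉ residue M δ (insert u (selR_pp M u)) x := by
    intro hc
    have h1 : δ c x ∈ par M (insert u (selR_pp M u)) := selR_symm_par h hc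
    have h2 := selR_insert_up h1 hl
    exact hn u (selR_par_comm h2).symm
  obtain ⟨h1, h2⟩ := selR_e_spec h c u x
  obtain ⟨e, he⟩ : ∃ e, e = selR_e M δ c u (residue M δ (insert u (selR_pp M u)) x) := ⟨_, rfl⟩
  rw [← he] at h1 h2
  have h3 : δ x e ∉ par M (selR_pp M u) := by
    intro h3
    have h4 := h.mem_mul (a := c) h3
    have h5 := (selR_down h4 (δ c x)).1 (by
      rw [mul_inv_cancel_left]
      exact h2)
    omega
  have h4 : δ x e * M.simple u ∈ par M (selR_pp M u) := by
    rcases selR_insert h1 with h4 | h4
    · exact absurd h4 h3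
    · exact h4
  have h5 : M.simple u * δ x e ∈ par M (selR_pp M u) := by
    have h6 := selR_par_comm h4
    have h7 : M.simple u * δ x e = δ x e * M.simple u := by
      rw [mul_assoc, simple_sq, mul_one] at h6
      have h8 : M.simple u * δ x e = M.simple u * (δ x e * M.simple u) * M.simple u := by
        rw [← mul_assoc, mul_assoc, simple_sq, mul_one]
      rw [h8, ← h6]
    rw [h7]
    exact h4
  obtain ⟨y₀, h6, h7⟩ := h.exists_step u x e
  have h8 : δ x y₀ = M.simple u := h.symm_simple h6
  have h9 : δ e y₀ ∈ par M (selR_pp M u) := by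
    refine selR_symm_par h ?_
    rw [h7]
    exact h5
  refine ⟨y₀, h8, fun y hy => ⟨fun hb => ?_, fun hb => ?_⟩⟩
  · have h10 : δ e y ∈ par M (selR_pp M u) := by
      have h11 := hb.2
      rw [hres y hy, ← he] at h11
      exact h11
    have h11 : δ y₀ y ∈ par M (selR_pp M u) := h.par_trans (selR_symm_par h h9) h10
    rcases h.step u x y₀ y h6 with h12 | h12
    · rw [hy, simple_sq] at h12
      exact ((h.eq_one _ _).1 h12).symm
    · rw [hy] at h12
      rw [h12] at h11
      exact absurd h11 selR_not_mem
  · rw [hb]
    refine ⟨?_, ?_⟩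
    · rw [hres y₀ h8]
      exact hc
    · rw [hres y₀ h8, ← he]
      exact h9

private theorem selR_size (h : IsBuilding M δ) (hq : Reg M δ q) {b b' : Δ} {v : S}
    (hb : δ b' b ∈ par M (selR_pp M v)) : q v b' = q v b := by
  rw [← (hq v b').2, ← (hq v b).2]
  exact panel_ncard h (fun t ht => selR_mem.1 ht) hb

private theorem selR_panel (h : IsBuilding M δ) (hq : Reg M δ q) {x y : Δ} {u : S}
    (hy : δ x y = M.simple u) : q u y = q u x := by
  have h1 : ∀ z, pan δ u z = insert z {d | δ z d = M.simple u} := by
    intro z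
    ext d
    exact Iff.rfl
  have h2 : ∀ z, (pan δ u z).ncard = q u z + 1 := by
    intro z
    rw [h1, Set.ncard_insert_of_notMem ?_ (hq u z).1, (hq u z).2]
    intro h3
    have h4 : δ z z = M.simple u := h3
    rw [h.self] at h4
    have h5 := congrArg (len M) h4
    rw [len_one, len_simple] at h5
    omega
  have h3 := congrArg Set.ncard (pan_eq h (v := u) (x := x) (y := y) (Or.inr hy))
  rw [h2, h2] at h3
  omega

/-- **The set of chambers.** -/
theorem exists_sel (hδ : IsBuilding M δ) (hq : Reg M δ q) (h1 : ∀ s x, 1 ≤ q s x)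
    (hpar : ∀ s, (∀ x, Odd (q s x)) ∨ ∀ t, t ≠ s → M s t = 2 ∨ M s t = 0) (c : Δ) :
    ∃ C, Sel M δ c C := by
  have hev : ∀ v b, ¬ Odd (q v b) → ∀ t, t ≠ v → M v t = 2 ∨ M v t = 0 := fun v b hv =>
    (hpar v).resolve_left fun h => hv (h b)
  refine ⟨{x | ∀ v, ∀ b ∈ SelRB M δ c v, ¬ Odd (q v b) → ¬ SelRG M δ c b x}, ?_, ?_, ?_, ?_⟩
  · -- base
    intro v b hb _ hg
    have h2 := hg.1
    unfold Le at h2
    rw [hδ.self, len_one] at h2
    have h3 : δ c b = 1 := (len_eq_zero M).1 (by omega)
    have h4 : c = b := (hδ.eq_one c b).1 h3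
    apply hb.1
    rw [← h4]
    show δ c c ∈ par M (insert v (selR_pp M v))
    rw [hδ.self]
    exact one_mem _
  · -- down
    intro x y u hxy hlen hy v b hb hv hg
    have hl : len M (δ c x * M.simple u) = len M (δ c x) + 1 := by
      rcases hδ.stepR (a := c) hxy with h2 | h2
      · rw [← h2]
        exact hlen
      · rw [h2] at hlen
        omega
    exact hy v b hb hv (selR_geo_up hδ hxy hl hg)
  · -- new
    intro x hx u t y hxy hl ht v b hb hv hg
    rcases selR_main hδ (hev v b hv) hxy hl hb hg with ⟨b', h2, h3, h4⟩ | ⟨h2, _, h3⟩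
    · refine hx v b' h2 ?_ h4
      rw [selR_size hδ hq h3]
      exact hv
    · apply h3.1
      have h4 : δ c x ∈ par M (selR_pp M v) := by
        rw [h2] at hl ht
        exact selR_conj (hev v b hv) _ (δ c x) rfl hl ht
      have h5 : δ c y ∈ par M (insert v (selR_pp M v)) := by
        rw [hδ.stepR_up hxy hl, h2]
        exact mul_mem (par_mono M (subset_insert _ _) h4)
          (simple_mem_par M (mem_insert_self _ _))
      exact selR_symm_par hδ h5
  · -- odd
    intro x hx u hl hn
    by_cases hu : Odd (q u x)
    · have h2 : {y | y ∈ {x | ∀ v, ∀ b ∈ SelRB M δ c v, ¬ Odd (q v b) → ¬ SelRG M δ c b x} ∧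
          δ x y = M.simple u} = {y | δ x y = M.simple u} := by
        ext y
        refine ⟨fun hy => hy.2, fun hy => ⟨?_, hy⟩⟩
        intro v b hb hv hg
        rcases selR_main hδ (hev v b hv) hy hl hb hg with ⟨b', h2, h3, h4⟩ | ⟨h2, h3, _⟩
        · refine hx v b' h2 ?_ h4
          rw [selR_size hδ hq h3]
          exact hv
        · apply hv
          rw [← selR_size hδ hq h3, ← h2, selR_panel hδ hq hy]
          exact hu
      rw [h2, (hq u x).2]
      exact hu
    · obtain ⟨y₀, hy0, hy1⟩ := selR_one hδ hl hn
      have h2 : {y | y ∈ {x | ∀ v, ∀ b ∈ SelRB M δ c v, ¬ Odd (q v b) → ¬ SelRG M δ c b x} ∧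
          δ x y = M.simple u} = {y | δ x y = M.simple u} \ {y₀} := by
        ext y
        refine ⟨fun hy => ⟨hy.2, fun h2 => ?_⟩, fun hy => ⟨?_, hy.1⟩⟩
        · rw [Set.mem_singleton_iff] at h2
          refine hy.1 u y ((hy1 y hy.2).2 h2) ?_ (selR_geo_refl hδ c y)
          rw [selR_panel hδ hq hy.2]
          exact hu
        · intro v b hb hv hg
          rcases selR_main hδ (hev v b hv) hy.1 hl hb hg with ⟨b', h2, h3, h4⟩ | ⟨h2, _, h3⟩
          · refine hx v b' h2 ?_ h4
            rw [selR_size hδ hq h3]
            exact hv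
          · rw [← h2] at h3
            exact hy.2 ((hy1 y hy.1).1 h3)
      have h3 : ({y | δ x y = M.simple u} : Set Δ).Finite := (hq u x).1
      have h4 := Set.ncard_sdiff_singleton_add_one (show y₀ ∈ {y | δ x y = M.simple u} from hy0) h3
      rw [h2]
      rw [(hq u x).2] at h4
      have h5 : Even (q u x) := Nat.not_odd_iff_even.1 hu
      obtain ⟨k, hk⟩ := h5
      refine ⟨k - 1, ?_⟩
      have h6 := h1 u x
      omega

end Pool.Agent.H4.BD
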