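import Pool.Agent.H4.BD.MainM
import Pool.Agent.H4.BD.ResB
import Pool.Agent.H4.BD.Orb
import Pool.Agent.H4.BD.SelR

/-!
# Project BD: the manifold side, for all full subcomplexes of the nerve

The residues of type `J` are buildings of type `sub M J`; a letter has two labels if it is right-angled in
`sub M J` and three labels otherwise.
-/

set_option autoImplicit false
set_option linter.unusedSectionVars false

open Finset

namespace Pool.Agent.H4.BD

open Pool.Agent.H4.FC Pool.Agent.H78.RC Pool.Agent.H97.BLD Pool.Agent.H37.TM Pool.Agent.H84.RX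
  Pool.Agent.H93.AA Pool.Agent.H73.LK

theorem hl_all {S Δ P : Type} [Fintype S] [DecidableEq S] [Group P] {M : CoxeterMatrix S}
    {δ : Δ → Δ → M.Group} {q : S → Δ → ℕ} {rr : Finset S → Δ → P} {n k : ℕ}
    {H : List P → List P → ZMod 2} [Nonempty Δ] (hδ : IsBuilding M δ) (hq : Reg M δ q)
    (hth : ∀ s x, 2 ≤ q s x)
    (hpar : ∀ s, (∀ x, Odd (q s x)) ∨ ∀ t, t ≠ s → M s t = 2 ∨ M s t = 0) (hrr : IsRr M δ rr)
    (hH : InterL P n H) (hn : n ≤ 2 * k + 1) (J : Finset S) : HL (sub M J) (k + 1) := by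
  classical
  obtain ⟨c⟩ := ‹Nonempty Δ›
  obtain ⟨Δ', δ', ι, hι, hδ', c', -⟩ := exists_res hδ J c
  have hpar' : ∀ s : {v // v ∈ J}, (∀ x, Odd (q s.1 (ι x))) ∨
      ∀ t, t ≠ s → sub M J s t = 2 ∨ sub M J s t = 0 := by
    intro s
    rcases hpar s.1 with h | h
    · exact Or.inl fun x => h (ι x)
    · exact Or.inr fun t ht => h t.1 fun h' => ht (Subtype.ext h')
  obtain ⟨C, hC⟩ := exists_sel hδ' (hι.reg hq) (fun s x => le_trans (by norm_num) (hth s.1 (ι x)))
    hpar' c'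
  -- the right-angled letters
  obtain ⟨R, hR⟩ : ∃ R : Finset {v // v ∈ J}, R =
      univ.filter fun s => ∀ t, t ≠ s → sub M J s t = 2 ∨ sub M J s t = 0 := ⟨_, rfl⟩
  have hRA : ∀ s ∈ R, ∀ t, t ≠ s → sub M J s t = 2 ∨ sub M J s t = 0 := by
    intro s hs
    rw [hR] at hs
    exact (mem_filter.1 hs).2
  have h3 : ∀ s x, s ∉ R → 3 ≤ q s.1 (ι x) := by
    intro s x hs
    rcases hpar' s with h | h
    · obtain ⟨m, hm⟩ := h x
      have h4 := hth s.1 (ι x)
      omega
    · rw [hR] at hs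
      exact absurd (mem_filter.2 ⟨mem_univ s, h⟩) hs
  obtain ⟨lab, hlab⟩ := exists_lab (hι.reg hq) (R := R) (fun s x => hth s.1 (ι x)) h3 c'
  letI : VLb {v // v ∈ J} (Fin 3) := vlb R
  exact hl_bld (hasCoef_mix hRA) hδ' (hι.reg hq) hlab hC (hι.rr hrr) hH hn

end Pool.Agent.H4.BD
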