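import Pool.Agent.H4.BD.Pan
import Pool.Agent.H97.BLD.Low

/-!
# Project BD: separation

`exists_common`: for all but finitely many `w` the elements of the ball around `w` have a common first letter.
`sep_label`: two chambers at bounded distance which are compatible with the labels `a`, `b` for a common first letter of
a ball: `a = b`. `sep_finite`: only finitely many pairs of cosets have cells without common labelled letters whose
chambers are at bounded distance.
-/

set_option autoImplicit false
set_option linter.unusedSectionVars false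

open Finset

namespace Pool.Agent.H4.BD

open Pool.Agent.H4.FC Pool.Agent.H78.RC Pool.Agent.H97.BLD

variable {S : Type} [Fintype S] [DecidableEq S] {M : CoxeterMatrix S} {Δ : Type}
  {δ : Δ → Δ → M.Group}

/-- the label is transported along a panel if the letter is a first letter of both positions -/
theorem gd_move (h : IsBuilding M δ) {c a x y : Δ} {t v : S} (ha : δ c a = M.simple t)
    (hy : y ∈ pan δ v x) (h1 : t ∈ fl M (δ c x)) (h2 : t ∈ fl M (δ c x * M.simple v))
    (hg : δ a x = M.simple t * δ c x) : δ a y = M.simple t * δ c y := by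
  rcases hy with rfl | hy
  · exact hg
  · rcases len_mul_simple M (δ c x) v with h3 | h3
    · exact gd_down h hy h3 h1 hg
    · obtain ⟨x₀, h4, h5⟩ := h.exists_stepR v c x
      have h6 : len M (δ c x₀ * M.simple v) = len M (δ c x₀) + 1 := by
        rw [h5, mul_assoc, simple_sq, mul_one]
        omega
      have h7 := gd_proj h ha (h.symm_simple h4) h6 hg
      rcases pan_trans h (pan_symm h (Or.inr h4)) (Or.inr hy : y ∈ pan δ v x) with h8 | h8
      · rw [h8]
        exact h7
      · refine gd_down h h8 h6 ?_ h7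
        rw [h5]
        exact h2

/-- the label is transported to a chamber at bounded distance if the letter is a first letter of a ball -/
theorem gd_far (h : IsBuilding M δ) {c a y : Δ} {t : S} (ha : δ c a = M.simple t) (n : ℕ) :
    ∀ x, len M (δ x y) = n → (∀ u, len M u ≤ n → t ∈ fl M (δ c x * u)) →
      δ a x = M.simple t * δ c x → δ a y = M.simple t * δ c y := by
  induction n with
  | zero =>
    intro x hl _ hg
    have h1 := (h.eq_one x y).1 ((len_eq_zero M).1 hl)
    rw [← h1]
    exact hg
  | succ n ih =>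
    intro x hl hb hg
    have h1 : δ x y ≠ 1 := by
      intro h0
      rw [h0, len_one] at hl
      omega
    obtain ⟨v, hv⟩ := exists_left M h1
    obtain ⟨x', h2, h3⟩ := h.exists_step v x y
    have h4 : x' ∈ pan δ v x := Or.inr (h.symm_simple h2)
    have h5 : t ∈ fl M (δ c x) := by
      have := hb 1 (by rw [len_one]; omega)
      rwa [mul_one] at this
    have h6 : t ∈ fl M (δ c x * M.simple v) := hb _ (by rw [len_simple]; omega)
    refine ih x' (by rw [h3]; omega) (fun u hu => ?_) (gd_move h ha h4 h5 h6 hg)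
    rcases h.stepR (a := c) (h.symm_simple h2) with h7 | h7
    · rw [h7, mul_assoc]
      refine hb _ ?_
      rcases len_simple_mul M u v with h8 | h8 <;> omega
    · rw [h7]
      exact hb _ (by omega)

/-- labels with a common compatible position are equal -/
theorem label_unique (h : IsBuilding M δ) {c a b y : Δ} {t : S} (ha : δ c a = M.simple t)
    (hb : δ c b = M.simple t) (ht : t ∈ fl M (δ c y)) (hga : δ a y = M.simple t * δ c y)
    (hgb : δ b y = M.simple t * δ c y) : a = b := by
  have hle : Le M (M.simple t) (δ c y) := by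
    unfold Le
    rw [mem_fl] at ht
    rw [len_simple, simple_inv]
    omega
  refine h.geo_unique hle ha ?_ hb ?_
  · rw [simple_inv]
    exact hga
  · rw [simple_inv]
    exact hgb

/-- the first letters of a ball are first letters of the positions at bounded distance -/
theorem fl_far' (h : IsBuilding M δ) {c y : Δ} {t : S} (n : ℕ) :
    ∀ x, len M (δ x y) = n → (∀ u, len M u ≤ n → t ∈ fl M (δ c x * u)) → t ∈ fl M (δ c y) := by
  induction n with
  | zero =>
    intro x' h3 h4
    have h5 := (h.eq_one x' y).1 ((len_eq_zero M).1 h3)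
    have h6 := h4 1 (by rw [len_one])
    rwa [mul_one, h5] at h6
  | succ n ih =>
    intro x' h3 h4
    have h5 : δ x' y ≠ 1 := by
      intro h0
      rw [h0, len_one] at h3
      omega
    obtain ⟨v, hv⟩ := exists_left M h5
    obtain ⟨x'', h6, h7⟩ := h.exists_step v x' y
    refine ih x'' (by rw [h7]; omega) fun u hu => ?_
    rcases h.stepR (a := c) (h.symm_simple h6) with h8 | h8
    · rw [h8, mul_assoc]
      refine h4 _ ?_
      rcases len_simple_mul M u v with h9 | h9 <;> omega
    · rw [h8]
      exact h4 _ (by omega)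

theorem fl_far (h : IsBuilding M δ) {c x y : Δ} {t : S} {r : ℕ}
    (ht : ∀ u, len M u ≤ r → t ∈ fl M (δ c x * u)) (hl : len M (δ x y) ≤ r) :
    t ∈ fl M (δ c y) := fl_far' h _ x rfl fun u hu => ht u (hu.trans hl)

/-- the positions of two chambers are as near as the chambers -/
theorem len_near (h : IsBuilding M δ) (c x y : Δ) :
    len M ((δ c x)⁻¹ * δ c y) ≤ len M (δ x y) := by
  obtain ⟨n, hn⟩ : ∃ n, len M (δ x y) = n := ⟨_, rfl⟩
  induction n generalizing x with
  | zero =>
    rw [(h.eq_one x y).1 ((len_eq_zero M).1 hn), inv_mul_cancel, len_one]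
    exact Nat.zero_le _
  | succ n ih =>
    have h5 : δ x y ≠ 1 := by
      intro h0
      rw [h0, len_one] at hn
      omega
    obtain ⟨v, hv⟩ := exists_left M h5
    obtain ⟨x', h6, h7⟩ := h.exists_step v x y
    have h8 := ih x' (by rw [h7]; omega)
    rw [h7] at h8
    rcases h.stepR (a := c) (h.symm_simple h6) with h9 | h9
    · rw [h9, mul_inv_rev, simple_inv, mul_assoc] at h8
      have h10 := len_simple_mul M ((δ c x)⁻¹ * δ c y) v
      omega
    · rw [h9] at h8
      omega

/-- SEPARATION of labels -/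
theorem sep_label (h : IsBuilding M δ) {c a b x y : Δ} {t : S} (ha : δ c a = M.simple t)
    (hb : δ c b = M.simple t) {r : ℕ} (hl : len M (δ x y) ≤ r)
    (hball : ∀ u, len M u ≤ r → t ∈ fl M (δ c x * u))
    (hga : δ a x = M.simple t * δ c x) (hgb : δ b y = M.simple t * δ c y) : a = b :=
  label_unique h ha hb (fl_far h hball hl)
    (gd_far h ha _ x rfl (fun u hu => hball u (hu.trans hl)) hga) hgb

variable (M)

/-- for all but finitely many `w` the ball around `w` has a common first letter -/
theorem exists_common (r : ℕ) :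
    {w : M.Group | ¬ ∃ t, ∀ u, len M u ≤ r → t ∈ fl M (w * u)}.Finite := by
  obtain ⟨F, hF⟩ := exists_lower_set M (2 * r)
  refine (len_finite M F).subset fun w hw => ?_
  obtain ⟨v, hv⟩ := hF {x | len M (w⁻¹ * x) ≤ r} fun x hx y hy => by
    have h1 : x⁻¹ * y = (w⁻¹ * x)⁻¹ * (w⁻¹ * y) := by group
    rw [h1]
    refine (len_mul_le M _ _).trans ?_
    rw [len_inv]
    have h2 : len M (w⁻¹ * x) ≤ r := hx
    have h3 : len M (w⁻¹ * y) ≤ r := hy
    omega
  by_cases h1 : v = 1
  · have h2 := (hv w (by
      show len M (w⁻¹ * w) ≤ r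
      rw [inv_mul_cancel, len_one]
      omega)).2
    rw [h1, inv_one, one_mul] at h2
    exact h2
  · exfalso
    obtain ⟨t, ht⟩ := exists_left M h1
    refine hw ⟨t, fun u hu => ?_⟩
    have h2 := (hv (w * u) (by
      show len M (w⁻¹ * (w * u)) ≤ r
      rw [inv_mul_cancel_left]
      exact hu)).1
    refine fl_mono M h2 ?_
    rw [mem_fl]
    exact ht

variable {M} {Lb : Type} [DecidableEq Lb] [VLb S Lb]

/-- the chambers of cells without a common labelled letter are far from each other -/
theorem sep_XX (h : IsBuilding M δ) {c : Δ} {C : Set Δ} {lab : S × Lb → Δ}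
    (hL : LabOk M δ c lab) {e e' : Cel M Lb} (hO : Ok M e e') {x y : Δ}
    (hx : x ∈ XX M δ c lab C e) (hy : y ∈ XX M δ c lab C e') {r : ℕ} (hl : len M (δ x y) ≤ r) :
    ¬ ∃ t, ∀ u, len M u ≤ r → t ∈ fl M (δ c x * u) := by
  rintro ⟨t, ht⟩
  obtain ⟨he, he', hdis⟩ := hO
  have h1 : t ∈ fl M e.1 := fl_coset he.2.1 hx.2.1 (by
    have := ht 1 (by rw [len_one]; omega)
    rwa [mul_one] at this)
  have h2 : t ∈ fl M e'.1 := fl_coset he'.2.1 hy.2.1 (fl_far h ht hl)
  obtain ⟨j, hj, -⟩ := he.2.2.1.2 t h1
  obtain ⟨j', hj', -⟩ := he'.2.2.1.2 t h2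
  have h3 := sep_label h (hL.1 (t, j)) (hL.1 (t, j')) hl ht (hx.2.2 _ hj) (hy.2.2 _ hj')
  have h4 := hL.2 t j j' (he.2.2.2 _ hj) (he'.2.2.2 _ hj') h3
  subst h4
  exact disjoint_left.1 hdis hj hj'

theorem sep_finite (h : IsBuilding M δ) {c : Δ} {C : Set Δ} {lab : S × Lb → Δ}
    (hL : LabOk M δ c lab) (r : ℕ) :
    {q : M.Group × M.Group | ∃ s a t b, Ok M (q.1, s, a) (q.2, t, b) ∧
      ∃ x ∈ XX M δ c lab C (q.1, s, a), ∃ y ∈ XX M δ c lab C (q.2, t, b),
        len M (δ x y) ≤ r}.Finite := by
  classical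
  have hB := exists_common M r
  -- the elements near to `B`
  have hU : (⋃ s : Finset S, ((parF M s : Finset M.Group) : Set M.Group)).Finite :=
    Set.finite_iUnion fun s => finite_toSet _
  have hB1 := hB.mul hU.inv
  have hB2 := (hB.mul (len_finite M r)).mul hU.inv
  refine (hB1.prod hB2).subset ?_
  rintro ⟨z, z'⟩ ⟨s, a, t, b, hO, x, hx, y, hy, hl⟩
  have h1 := sep_XX h hL hO hx hy hl
  have key : ∀ (s : Finset S) (w z : M.Group), Sph M s → z⁻¹ * w ∈ par M s →
      (z⁻¹ * w)⁻¹ ∈ (⋃ s : Finset S, ((parF M s : Finset M.Group) : Set M.Group))⁻¹ := by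
    intro s w z hs h2
    rw [Set.inv_mem_inv, Set.mem_iUnion]
    exact ⟨s, (mem_parF hs _).2 h2⟩
  constructor
  · refine ⟨δ c x, h1, (z⁻¹ * δ c x)⁻¹, key s _ _ hO.1.1 hx.2.1, ?_⟩
    show δ c x * (z⁻¹ * δ c x)⁻¹ = z
    group
  · refine ⟨δ c y, ⟨δ c x, h1, (δ c x)⁻¹ * δ c y, ?_, ?_⟩, (z'⁻¹ * δ c y)⁻¹,
      key t _ _ hO.2.1.1 hy.2.1, ?_⟩
    · exact (len_near h c x y).trans hl
    · show δ c x * ((δ c x)⁻¹ * δ c y) = δ c y
      group
    · show δ c y * (z'⁻¹ * δ c y)⁻¹ = z'
      group

end Pool.Agent.H4.BD
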