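import Pool.Agent.H4.BD.HHr
import Pool.Agent.H4.BD.Sep
import Pool.Agent.H4.BD.CellB

/-!
# Project BD: the intersection numbers of the cells: base, top, finite support
-/

set_option autoImplicit false
set_option linter.unusedSectionVars false

open Finset

namespace Pool.Agent.H4.BD

open Pool.Agent.H4.FC Pool.Agent.H78.RC Pool.Agent.H97.BLD Pool.Agent.H37.TM Pool.Agent.H84.RX

variable {S Δ P : Type} [Fintype S] [DecidableEq S] [Group P] {M : CoxeterMatrix S}
  {δ : Δ → Δ → M.Group} {Lb : Type} [DecidableEq Lb] [VLb S Lb] {q : S → Δ → ℕ} {c : Δ} {lab : S × Lb → Δ}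
  {C : Set Δ} {rr : Finset S → Δ → P} {n : ℕ} {H : List P → List P → ZMod 2}

theorem hh_base (hδ : IsBuilding M δ) (hC : Sel M δ c C) (hlab : LabOk M δ c lab)
    (hH : InterL P n H) : hh M δ c lab C rr H (b0 M Lb) (b0 M Lb) = 1 := by
  unfold hh
  rw [if_pos ok_b0, XX_base hδ hC, finsum_mem_singleton, finsum_mem_singleton]
  show cb rr c ∅ (fun l => cb rr c ∅ fun l' => H l l') = 1
  rw [cb_empty, cb_empty]
  exact hH.one _

theorem hh_top (hH : InterL P n H) {x y : Cel M Lb} (h : n < x.2.1.card + y.2.1.card) :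
    hh M δ c lab C rr H x y = 0 := by
  unfold hh
  split_ifs with hO
  · refine finsum_mem_eq_zero_of_forall_eq_zero fun a _ => ?_
    refine finsum_mem_eq_zero_of_forall_eq_zero fun b _ => ?_
    have h1 : ∀ l : List P, l.length = x.2.1.card + 1 →
        cb rr b y.2.1 (fun l' => H l l') = 0 := by
      intro l hl
      rw [cb_congr rr b _ y.2.1 rfl (fun l' => H l l') (fun _ => 0) fun l' hl' =>
        hH.top l l' (by rw [hl, hl']; omega)]
      exact cb_zero rr b _ y.2.1 rfl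
    rw [cb_congr rr a _ x.2.1 rfl (fun l => cb rr b y.2.1 fun l' => H l l') (fun _ => 0) h1]
    exact cb_zero rr a _ x.2.1 rfl
  · rfl

/-- a list of the cube on which the function does not vanish -/
private theorem cb_exists (rr : Finset S → Δ → P) (x : Δ) : ∀ (k : ℕ) (s : Finset S),
    s.card = k → ∀ h : List P → ZMod 2, cb rr x s h ≠ 0 →
      ∃ l : List P, l.length = k + 1 ∧ (∀ a ∈ l, ∃ T ⊆ s, a = rr T x) ∧ h l ≠ 0
  | 0, s, hs, h, h0 => by
    rw [card_eq_zero.1 hs, cb_empty] at h0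
    refine ⟨[rr ∅ x], rfl, fun a ha => ⟨∅, empty_subset _, ?_⟩, h0⟩
    rwa [List.mem_singleton] at ha
  | k + 1, s, hs, h, h0 => by
    have hne : s ≠ ∅ := by
      rintro rfl
      simp at hs
    rw [cb_ne rr x hne] at h0
    obtain ⟨v, hv, h1⟩ := exists_ne_zero_of_sum_ne_zero h0
    obtain ⟨l, h2, h3, h4⟩ := cb_exists rr x k (s.erase v)
      (by rw [card_erase_of_mem hv, hs]; rfl) _ h1
    refine ⟨l ++ [rr s x], by rw [List.length_append, h2]; rfl, fun a ha => ?_, h4⟩
    rw [List.mem_append, List.mem_singleton] at ha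
    rcases ha with ha | ha
    · obtain ⟨T, hT, h5⟩ := h3 a ha
      exact ⟨T, hT.trans (erase_subset _ _), h5⟩
    · exact ⟨s, Subset.rfl, ha⟩

/-- the lists of bounded length with entries in a finite set -/
private theorem lists_finite (E : Finset P) (N : ℕ) :
    {l : List P | l.length ≤ N ∧ ∀ a ∈ l, a ∈ E}.Finite := by
  have h1 : {l : List E | l.length ≤ N}.Finite := List.finite_length_le E N
  refine (h1.image (List.map Subtype.val)).subset ?_
  rintro l ⟨h2, h3⟩
  refine ⟨l.pmap (fun a h => (⟨a, h⟩ : E)) h3, ?_, ?_⟩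
  · show (l.pmap _ h3).length ≤ N
    rw [List.length_pmap]
    exact h2
  · rw [List.map_pmap]
    exact (List.pmap_eq_map _).trans (List.map_id _)

theorem hh_finS (hδ : IsBuilding M δ) (hq : Reg M δ q) (hlab : LabOk M δ c lab)
    (hrr : IsRr M δ rr) (hH : InterL P n H) : FinS (hh M δ c lab C rr H) := by
  classical
  obtain ⟨E, hE⟩ := hrr.near
  obtain ⟨E', hE'⟩ := hH.fin (lists_finite E (Fintype.card S + 1)).toFinset
  obtain ⟨N, hN⟩ := hrr.far E'
  refine (sep_finite (C := C) hδ hlab N).subset ?_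
  rintro ⟨z, z'⟩ ⟨s, a, t, b, h0⟩
  unfold hh at h0
  split_ifs at h0 with hO
  swap
  · exact absurd rfl h0
  obtain ⟨x, hx, h1⟩ := exists_ne_zero_of_finsum_mem_ne_zero h0
  obtain ⟨y, hy, h2⟩ := exists_ne_zero_of_finsum_mem_ne_zero h1
  obtain ⟨l, hl1, hl2, h3⟩ := cb_exists rr x _ s rfl _ h2
  obtain ⟨l', hl1', hl2', h4⟩ := cb_exists rr y _ t rfl _ h3
  refine ⟨s, a, t, b, hO, x, hx, y, hy, hN x y (hE' (l.map ((rr ∅ x)⁻¹ * ·)) ?_
    (l'.map ((rr ∅ y)⁻¹ * ·)) ?_ (rr ∅ x) (rr ∅ y) ?_)⟩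
  · rw [Set.Finite.mem_toFinset]
    refine ⟨?_, fun g hg => ?_⟩
    · rw [List.length_map, hl1]
      exact Nat.succ_le_succ (card_le_univ s)
    · obtain ⟨g', h5, rfl⟩ := List.mem_map.1 hg
      obtain ⟨T, hT, rfl⟩ := hl2 g' h5
      exact hE T x (hO.1.1.mono hT)
  · rw [Set.Finite.mem_toFinset]
    refine ⟨?_, fun g hg => ?_⟩
    · rw [List.length_map, hl1']
      exact Nat.succ_le_succ (card_le_univ t)
    · obtain ⟨g', h5, rfl⟩ := List.mem_map.1 hg
      obtain ⟨T, hT, rfl⟩ := hl2' g' h5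
      exact hE T y (hO.2.1.1.mono hT)
  · have h5 : ∀ (p : P) (l : List P), (l.map (p⁻¹ * ·)).map (p * ·) = l := by
      intro p l
      rw [List.map_map]
      have : ((p * ·) ∘ (p⁻¹ * ·) : P → P) = id := by
        funext g
        exact mul_inv_cancel_left p g
      rw [this, List.map_id]
    rw [h5, h5]
    exact h4

end Pool.Agent.H4.BD
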