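import Pool.Agent.H4.BD.Tup
import Pool.Agent.H4.BD.Pan

/-!
# Project BD: the relation of the intersection numbers of the cells
-/

set_option autoImplicit false

open Finset

namespace Pool.Agent.H4.BD

open Pool.Agent.H4.FC Pool.Agent.H78.RC Pool.Agent.H97.BLD Pool.Agent.H93.AA Pool.Agent.H37.TM
  Pool.Agent.H84.RX

variable {S Δ : Type} [Fintype S] [DecidableEq S] {Lb : Type} [DecidableEq Lb] [VLb S Lb]

/-- the facts about the sets `XX` -/
structure PanOk (M : CoxeterMatrix S) (δ : Δ → Δ → M.Group) (X : Cel M Lb → Set Δ) : Prop where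
  fin : ∀ e, Vld M e → (X e).Finite
  even : ∀ e, Vld M e → ∀ v ∈ e.2.1, ∀ f : Δ → ZMod 2,
    (∀ x y, δ x y ∈ par M {v} → f x = f y) → ∑ᶠ x ∈ X e, f x = 0
  part : ∀ e, Vld M e → ∀ v ∈ e.2.1, ∀ f : Δ → ZMod 2, ∑ᶠ x ∈ X e, f x =
    ∑ y ∈ cs M e.1 e.2.1 (e.2.1.erase v), ∑ᶠ x ∈ X (face M e v y), f x
  vld : ∀ e : Cel M Lb, Vld M e → ∀ v ∈ e.2.1, ∀ y ∈ cs M e.1 e.2.1 (e.2.1.erase v),
    Vld M (face M e v y)

omit [DecidableEq Lb] in
theorem hh_lin_bdC (M : CoxeterMatrix S) (F : Cel M Lb → ZMod 2) (e : Cel M Lb) :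
    lin F (bdC M e) = ∑ v ∈ e.2.1, ∑ y ∈ cs M e.1 e.2.1 (e.2.1.erase v), F (face M e v y) := by
  unfold bdC
  rw [map_sum]
  refine sum_congr rfl fun v _ => ?_
  rw [map_sum]
  exact sum_congr rfl fun y _ => lin_single _ _

omit [DecidableEq Lb] in
theorem ok_face_left (M : CoxeterMatrix S) {δ : Δ → Δ → M.Group} {X : Cel M Lb → Set Δ}
    (hX : PanOk M δ X) {e e' : Cel M Lb} (h : Ok M e e') {v : S} (hv : v ∈ e.2.1) {y : M.Group}
    (hy : y ∈ cs M e.1 e.2.1 (e.2.1.erase v)) : Ok M (face M e v y) e' := by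
  refine ⟨hX.vld e h.1 v hv y hy, h.2.1, ?_⟩
  refine disjoint_left.2 fun q hq => disjoint_left.1 h.2.2 ?_
  exact (mem_filter.1 (show q ∈ e.2.2.filter fun q => q.1 ∈ fl M y from hq)).1

omit [DecidableEq Lb] in
theorem hh_ok_symm (M : CoxeterMatrix S) {e e' : Cel M Lb} (h : Ok M e e') : Ok M e' e :=
  ⟨h.2.1, h.1, h.2.2.symm⟩

/-- **The relation of the intersection numbers.** -/
theorem hh_rel_of {P : Type} [Group P] (M : CoxeterMatrix S) (δ : Δ → Δ → M.Group) (c : Δ)
    (lab : S × Lb → Δ) (C : Set Δ) (rr : Finset S → Δ → P) {n : ℕ} {H : List P → List P → ZMod 2}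
    (hH : InterL P n H) (hrr : ∀ T x y, δ x y ∈ par M T → rr T x = rr T y)
    (hmono : ∀ (T T' : Finset S), T ⊆ T' → ∀ w, w ∈ par M T → w ∈ par M T')
    (hX : PanOk M δ (XX M δ c lab C)) (e e' : Cel M Lb) (hok : Ok M e e') :
    dX (bdC M) (hh M δ c lab C rr H) e e' =
      hh M δ c lab C rr H e e' + hh M δ c lab C rr H e' e := by
  classical
  obtain ⟨s, hs⟩ : ∃ s, s = e.2.1 := ⟨_, rfl⟩
  obtain ⟨t, ht⟩ : ∃ t, t = e'.2.1 := ⟨_, rfl⟩
  have fX := hX.fin e hok.1
  have fY := hX.fin e' hok.2.1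
  -- the panels
  have hpan : ∀ (v : S) (x y : Δ), δ x y ∈ par M {v} → ∀ T : Finset S, v ∈ T →
      rr T x = rr T y := fun v x y h T hT =>
    hrr T x y (hmono {v} T (singleton_subset_iff.2 hT) _ h)
  -- the left side
  have L1 : lin (fun x' => hh M δ c lab C rr H x' e') (bdC M e) =
      ∑ v ∈ s, ∑ᶠ x ∈ XX M δ c lab C e, ∑ᶠ y ∈ XX M δ c lab C e',
        cb rr x (s.erase v) (fun l => cb rr y t (fun l' => H l l')) := by
    rw [hh_lin_bdC, ← hs]
    refine sum_congr rfl fun v hv => ?_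
    rw [hs] at hv
    rw [hs, hX.part e hok.1 v hv]
    refine sum_congr rfl fun z hz => ?_
    unfold hh
    rw [if_pos (ok_face_left M hX hok hv hz), ht]
    rfl
  have L2 : lin (fun y' => hh M δ c lab C rr H e y') (bdC M e') =
      ∑ v ∈ t, ∑ᶠ x ∈ XX M δ c lab C e, ∑ᶠ y ∈ XX M δ c lab C e',
        cb rr x s (fun l => cb rr y (t.erase v) (fun l' => H l l')) := by
    rw [hh_lin_bdC, ← ht]
    refine sum_congr rfl fun v hv => ?_
    rw [ht] at hv
    have h1 : ∀ x, ∑ᶠ y ∈ XX M δ c lab C e',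
        cb rr x s (fun l => cb rr y (t.erase v) (fun l' => H l l')) =
        ∑ z ∈ cs M e'.1 e'.2.1 (e'.2.1.erase v), ∑ᶠ y ∈ XX M δ c lab C (face M e' v z),
          cb rr x s (fun l => cb rr y (t.erase v) (fun l' => H l l')) := fun x =>
      hX.part e' hok.2.1 v hv _
    rw [finsum_mem_congr rfl fun x _ => h1 x, finsum_mem_eq_finite_toFinset_sum _ fX,
      sum_comm, ht]
    refine sum_congr rfl fun z hz => ?_
    have h2 := hh_ok_symm M (ok_face_left M hX (hh_ok_symm M hok) hv hz)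
    unfold hh
    rw [if_pos h2, finsum_mem_eq_finite_toFinset_sum _ fX, hs]
    rfl
  -- the right side
  have R1 : hh M δ c lab C rr H e e' = ∑ᶠ x ∈ XX M δ c lab C e, ∑ᶠ y ∈ XX M δ c lab C e',
      cb rr x s (fun l => cb rr y t (fun l' => H l l')) := by
    unfold hh
    rw [if_pos hok, hs, ht]
  have R2 : hh M δ c lab C rr H e' e = ∑ᶠ x ∈ XX M δ c lab C e, ∑ᶠ y ∈ XX M δ c lab C e',
      cb rr x s (fun l => cb rr y t (fun l' => H l' l)) := by
    unfold hh
    rw [if_pos (hh_ok_symm M hok), finsum_mem_eq_finite_toFinset_sum _ fX,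
      finsum_mem_eq_finite_toFinset_sum _ fY]
    have h1 : ∀ y, ∑ᶠ x ∈ XX M δ c lab C e,
        cb rr y e'.2.1 (fun l' => cb rr x e.2.1 (fun l => H l' l)) =
        ∑ x ∈ fX.toFinset, cb rr y e'.2.1 (fun l' => cb rr x e.2.1 (fun l => H l' l)) := fun y =>
      finsum_mem_eq_finite_toFinset_sum _ fX
    have h2 : ∀ x, ∑ᶠ y ∈ XX M δ c lab C e',
        cb rr x s (fun l => cb rr y t (fun l' => H l' l)) =
        ∑ y ∈ fY.toFinset, cb rr x s (fun l => cb rr y t (fun l' => H l' l)) := fun x =>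
      finsum_mem_eq_finite_toFinset_sum _ fY
    rw [sum_congr rfl fun y _ => h1 y, sum_congr rfl fun x _ => h2 x, sum_comm]
    refine sum_congr rfl fun x _ => sum_congr rfl fun y _ => ?_
    rw [hs, ht]
    exact cb_comm rr rr y x e.2.1 _ e'.2.1 rfl fun l' l => H l' l
  unfold dX
  rw [L1, L2, R1, R2]
  -- finite sums
  have hfin : ∀ G : Δ → Δ → ZMod 2, ∑ᶠ x ∈ XX M δ c lab C e, ∑ᶠ y ∈ XX M δ c lab C e', G x y =
      ∑ x ∈ fX.toFinset, ∑ y ∈ fY.toFinset, G x y := by
    intro G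
    rw [finsum_mem_eq_finite_toFinset_sum _ fX]
    exact sum_congr rfl fun x _ => finsum_mem_eq_finite_toFinset_sum _ fY
  simp only [hfin]
  -- one pair of chambers
  have key : ∀ x y : Δ,
      cb rr x s (fun l => cb rr y t (fun l' => H l l')) +
        cb rr x s (fun l => cb rr y t (fun l' => H l' l)) =
      (cb rr x s (fun l => (fun m => cb rr y t (fun l' => H m l')) (l.eraseIdx 0)) +
        ∑ v ∈ s, cb rr x (s.erase v) (fun l => cb rr y t (fun l' => H l l'))) +
      (cb rr x s (fun l => cb rr y t (fun l' => H l (l'.eraseIdx 0))) +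
        ∑ v ∈ t, cb rr x s (fun l => cb rr y (t.erase v) (fun l' => H l l'))) := by
    intro x y
    have a1 : cb rr x s (fun l => (fun m => cb rr y t (fun l' => H m l')) (l.eraseIdx 0)) +
        ∑ v ∈ s, cb rr x (s.erase v) (fun l => cb rr y t (fun l' => H l l')) =
        cb rr x s (dL fun m => cb rr y t (fun l' => H m l')) :=
      (cb_dL rr x _ s rfl (fun m => cb rr y t (fun l' => H m l'))).symm
    have a2 : ∑ v ∈ t, cb rr x s (fun l => cb rr y (t.erase v) (fun l' => H l l')) =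
        cb rr x s (fun l => ∑ v ∈ t, cb rr y (t.erase v) (fun l' => H l l')) :=
      (cb_sum rr x s t fun v l => cb rr y (t.erase v) (fun l' => H l l')).symm
    rw [a1, a2, ← cb_add rr x _ s rfl, ← cb_add rr x _ s rfl, ← cb_add rr x _ s rfl]
    refine cb_congr' rr x s _ _ fun l hl => ?_
    have h1 : cb rr y t (fun l' => H l (l'.eraseIdx 0)) +
        ∑ v ∈ t, cb rr y (t.erase v) (fun l' => H l l') = cb rr y t (dL (H l)) :=
      (cb_dL rr y _ t rfl (H l)).symm
    have h2 : dL (fun m => cb rr y t (fun l' => H m l')) l =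
        cb rr y t (fun l' => ∑ i ∈ range l.length, H (l.eraseIdx i) l') := by
      unfold dL
      rw [cb_sum]
    rw [h1, h2, ← cb_add rr y _ t rfl, ← cb_add rr y _ t rfl]
    refine cb_congr' rr y t _ _ fun l' hl' => ?_
    exact (hH.rel l l' hl hl').symm
  have key2 : ∑ x ∈ fX.toFinset, ∑ y ∈ fY.toFinset,
      cb rr x s (fun l => (fun m => cb rr y t (fun l' => H m l')) (l.eraseIdx 0)) = 0 := by
    rw [sum_comm]
    refine sum_eq_zero fun y _ => ?_
    rcases s.eq_empty_or_nonempty with h0 | h0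
    · refine sum_eq_zero fun x _ => ?_
      rw [h0, cb_empty]
      change cb rr y t (fun l' => H [] l') = 0
      rw [cb_congr' rr y t _ (fun _ => 0) fun l' _ => hH.nil_left l']
      exact cb_zero rr y _ t rfl
    · obtain ⟨k, hk⟩ : ∃ k, s.card = k + 1 := ⟨s.card - 1, by
        have := card_pos.2 h0
        omega⟩
      rw [sum_congr rfl fun x _ => cb_tail rr x k s hk fun m => cb rr y t fun l' => H m l',
        sum_comm]
      refine sum_eq_zero fun v hv => ?_
      rw [← finsum_mem_eq_finite_toFinset_sum]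
      refine hX.even e hok.1 v (hs ▸ hv) _ fun x x' hxx => ?_
      exact cb1_local rr x x' v _ s rfl hv (hpan v x x' hxx) _
  have key3 : ∑ x ∈ fX.toFinset, ∑ y ∈ fY.toFinset,
      cb rr x s (fun l => cb rr y t (fun l' => H l (l'.eraseIdx 0))) = 0 := by
    refine sum_eq_zero fun x _ => ?_
    rcases t.eq_empty_or_nonempty with h0 | h0
    · refine sum_eq_zero fun y _ => ?_
      rw [h0]
      have h1 : ∀ l : List P, l ≠ [] → cb rr y ∅ (fun l' => H l (l'.eraseIdx 0)) = 0 := by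
        intro l _
        rw [cb_empty]
        exact hH.nil_right l
      rw [cb_congr' rr x s _ (fun _ => 0) h1]
      exact cb_zero rr x _ s rfl
    · obtain ⟨k, hk⟩ : ∃ k, t.card = k + 1 := ⟨t.card - 1, by
        have := card_pos.2 h0
        omega⟩
      have h1 : ∀ y, cb rr x s (fun l => cb rr y t (fun l' => H l (l'.eraseIdx 0))) =
          ∑ v ∈ t, cb rr x s (fun l => cb1 rr y v t (fun l' => H l l')) := by
        intro y
        rw [← cb_sum]
        refine cb_congr' rr x s _ _ fun l _ => ?_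
        exact cb_tail rr y k t hk fun l' => H l l'
      rw [sum_congr rfl fun y _ => h1 y, sum_comm]
      refine sum_eq_zero fun v hv => ?_
      rw [← finsum_mem_eq_finite_toFinset_sum]
      refine hX.even e' hok.2.1 v (ht ▸ hv) _ fun y y' hyy => ?_
      refine cb_congr' rr x s _ _ fun l _ => ?_
      exact cb1_local rr y y' v _ t rfl hv (hpan v y y' hyy) _
  have key4 : ∑ x ∈ fX.toFinset, ∑ y ∈ fY.toFinset,
      (cb rr x s (fun l => cb rr y t (fun l' => H l l')) +
        cb rr x s (fun l => cb rr y t (fun l' => H l' l))) =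
      ∑ x ∈ fX.toFinset, ∑ y ∈ fY.toFinset,
        ∑ v ∈ s, cb rr x (s.erase v) (fun l => cb rr y t (fun l' => H l l')) +
      ∑ x ∈ fX.toFinset, ∑ y ∈ fY.toFinset,
        ∑ v ∈ t, cb rr x s (fun l => cb rr y (t.erase v) (fun l' => H l l')) := by
    rw [sum_congr rfl fun x _ => sum_congr rfl fun y _ => key x y]
    simp only [sum_add_distrib]
    simp only at key2
    rw [key2, key3, zero_add, zero_add]
  have key5 : ∀ (I : Finset S) (F : S → Δ → Δ → ZMod 2),
      ∑ x ∈ fX.toFinset, ∑ y ∈ fY.toFinset, ∑ v ∈ I, F v x y =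
        ∑ v ∈ I, ∑ x ∈ fX.toFinset, ∑ y ∈ fY.toFinset, F v x y := by
    intro I F
    rw [sum_congr rfl fun x _ => sum_comm, sum_comm]
  rw [key5, key5] at key4
  rw [← key4]
  simp only [sum_add_distrib]

omit [DecidableEq Lb] in
theorem hh_vld_face (M : CoxeterMatrix S) {e : Cel M Lb} (he : Vld M e) {v : S} {y : M.Group}
    (hy : y ∈ cs M e.1 e.2.1 (e.2.1.erase v)) : Vld M (face M e v y) := by
  rw [mem_cs he.1] at hy
  have hfl : fl M y ⊆ fl M e.1 := fl_coset he.2.1 hy.1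
  refine ⟨he.1.mono (erase_subset _ _), hy.2, ⟨?_, ?_⟩, fun q hq => he.2.2.2 q
    (mem_filter.1 (show q ∈ e.2.2.filter fun q => q.1 ∈ fl M y from hq)).1⟩
  · intro q hq
    exact (mem_filter.1 (show q ∈ e.2.2.filter fun q => q.1 ∈ fl M y from hq)).2
  · intro t ht
    obtain ⟨j, hj, hu⟩ := he.2.2.1.2 t (hfl ht)
    refine ⟨j, mem_filter.2 ⟨hj, ht⟩, fun j' hj' => hu j' ?_⟩
    exact (mem_filter.1 (show (t, j') ∈ e.2.2.filter fun q => q.1 ∈ fl M y from hj')).1

/-- **The relation of the intersection numbers of the cells.** -/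
theorem hh_rel {P : Type} [Group P] {M : CoxeterMatrix S} {δ : Δ → Δ → M.Group}
    (h : IsBuilding M δ) {q : S → Δ → ℕ} (hq : Reg M δ q) {c : Δ} {C : Set Δ} (hS : Sel M δ c C)
    {lab : S × Lb → Δ} (hL : LabOk M δ c lab) {rr : Finset S → Δ → P}
    (hrr : ∀ T x y, δ x y ∈ par M T → rr T x = rr T y) {n : ℕ} {H : List P → List P → ZMod 2}
    (hH : InterL P n H) (e e' : Cel M Lb) (hok : Ok M e e') :
    dX (bdC M) (hh M δ c lab C rr H) e e' =
      hh M δ c lab C rr H e e' + hh M δ c lab C rr H e' e :=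
  hh_rel_of M δ c lab C rr hH hrr (fun T T' hT w hw => par_mono M hT hw)
    ⟨fun e he => XX_finite h hq he.1, fun e he v hv f hf => sum_XX_const h hq hS hL he hv f hf,
      fun e he v _ f => sum_XX_face h hq hL he v f, fun e he v _ y hy => hh_vld_face M he hy⟩
    e e' hok

end Pool.Agent.H4.BD
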