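import Pool.Agent.H4.BD.Defs

/-!
# Project BD: the homotopy, abstract form

PROOF. Recursion on `sz x + sz y`: `φ x y = if WellOrderingRel x y ∧ Ok x y then D x y + dX bd φ x y else 0` (the faces have
smaller `sz`; for example construct by induction on `m` functions `φ_m` which are correct for `sz x + sz y ≤ m`, or
`WellFounded.fix`). For `Ok x y`, `x ≠ y`, one of the two orders holds; say `x < y`: `φ x y = D x y + dX φ x y`, `φ y x = 0`.
The identity for `(x, y)` is the definition; for `(y, x)`: `D y x = D x y + dX D x y` (`hD`),
`dX D x y = ∑ (D f f') over the faces = ∑ (φ f f' + φ f' f + dX φ f f') = dX φ x y + dX φ y x + 0` (`dX (dX φ) = 0` from `hbd`, the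
mixed terms cancel in pairs; induction for the faces, which are Ok by `hface`, `hsymm`). `x = y`: `x = b`, `dX φ b b = 0`.
Support: induction: `φ x y ≠ 0` gives `D x y ≠ 0` or a face pair with `φ ≠ 0`. (Compare H65/BU/Half, H65/RM/Sys.)
-/

set_option autoImplicit false

open Finset

namespace Pool.Agent.H4.BD

open Pool.Agent.H37.TM

/-- the order of the summations -/
private theorem lin_comm {X Y : Type} (f : X → Y → ZMod 2) (a : X →₀ ZMod 2) (b : Y →₀ ZMod 2) :
    lin (fun x => lin (fun y => f x y) b) a = lin (fun y => lin (fun x => f x y) a) b := by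
  unfold lin
  simp only [Finsupp.linearCombination_apply, Finsupp.sum, smul_sum]
  rw [sum_comm]
  refine sum_congr rfl fun y _ => sum_congr rfl fun x _ => ?_
  simp only [smul_eq_mul]
  ring

private theorem lin_ne {X : Type} {f : X → ZMod 2} {a : X →₀ ZMod 2} (h : lin f a ≠ 0) :
    ∃ x, a x ≠ 0 ∧ f x ≠ 0 := by
  by_contra hc
  push Not at hc
  refine h ?_
  have h1 : lin f a = lin (fun _ : X => (0 : ZMod 2)) a :=
    lin_congr fun c hc' => (hc c hc').symm ▸ rfl
  rw [h1]
  unfold lin
  rw [Finsupp.linearCombination_apply]
  exact sum_eq_zero fun x _ => smul_zero _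

private theorem dX_congr {X : Type} {bd : X → (X →₀ ZMod 2)} {φ ψ : X → X → ZMod 2} {x y : X}
    (h1 : ∀ x', bd x x' ≠ 0 → φ x' y = ψ x' y) (h2 : ∀ y', bd y y' ≠ 0 → φ x y' = ψ x y') :
    dX bd φ x y = dX bd ψ x y := by
  unfold dX
  rw [lin_congr fun c hc => h1 c hc, lin_congr fun c hc => h2 c hc]

theorem exists_halfX {X : Type} (sz : X → ℕ) (bd : X → (X →₀ ZMod 2)) (Ok : X → X → Prop)
    (hsymm : ∀ x y, Ok x y → Ok y x) (hface : ∀ x y x', Ok x y → bd x x' ≠ 0 → Ok x' y)
    (hsz : ∀ x y x', Ok x y → bd x x' ≠ 0 → sz x' < sz x)
    (hbd : ∀ x y, Ok x y → lin bd (bd x) = 0)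
    (b : X) (hfix : ∀ x, Ok x x → x = b) (hb : bd b = 0)
    (D : X → X → ZMod 2) (hD : ∀ x y, Ok x y → dX bd D x y = D x y + D y x) (h0 : D b b = 0) :
    ∃ φ : X → X → ZMod 2,
      (∀ x y, Ok x y → D x y = φ x y + φ y x + dX bd φ x y) ∧
      ∀ x y, φ x y ≠ 0 → ∃ x' y', Rch bd x x' ∧ Rch bd y y' ∧ D x' y' ≠ 0 := by
  classical
  -- the function, by recursion
  obtain ⟨φ, hφ⟩ : ∃ φ : X → X → ZMod 2, ∀ x y, φ x y =
      if WellOrderingRel x y ∧ Ok x y then D x y + dX bd φ x y else 0 := by
    let wf : WellFounded fun p q : X × X => sz p.1 + sz p.2 < sz q.1 + sz q.2 :=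
      (measure fun p : X × X => sz p.1 + sz p.2).wf
    let F : (p : X × X) → ((q : X × X) → sz q.1 + sz q.2 < sz p.1 + sz p.2 → ZMod 2) → ZMod 2 :=
      fun p rec => if WellOrderingRel p.1 p.2 ∧ Ok p.1 p.2 then
        D p.1 p.2 + dX bd (fun x' y' => if h : sz x' + sz y' < sz p.1 + sz p.2 then
          rec (x', y') h else 0) p.1 p.2 else 0
    refine ⟨fun x y => wf.fix F (x, y), fun x y => ?_⟩
    show wf.fix F (x, y) = _
    rw [wf.fix_eq]
    by_cases hc : WellOrderingRel x y ∧ Ok x y
    · rw [if_pos hc]
      show (if WellOrderingRel x y ∧ Ok x y then _ else _) = _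
      rw [if_pos hc]
      congr 1
      refine dX_congr (fun x' hx' => ?_) fun y' hy' => ?_
      · have h1 := hsz x y x' hc.2 hx'
        show (if h : sz x' + sz y < sz x + sz y then _ else _) = _
        rw [dif_pos (by omega)]
      · have h1 := hsz y x y' (hsymm _ _ hc.2) hy'
        show (if h : sz x + sz y' < sz x + sz y then _ else _) = _
        rw [dif_pos (by omega)]
    · rw [if_neg hc]
      show (if WellOrderingRel x y ∧ Ok x y then _ else _) = _
      rw [if_neg hc]
  refine ⟨φ, ?_, ?_⟩
  · -- the identity
    have key : ∀ n x y, sz x + sz y = n → Ok x y →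
        D x y = φ x y + φ y x + dX bd φ x y := by
      intro n
      induction n using Nat.strong_induction_on with
      | _ n ih =>
        intro x y hn hok
        rcases eq_or_ne x y with rfl | hne
        · have hx := hfix x hok
          subst hx
          have h1 : dX bd φ x x = 0 := by
            unfold dX
            rw [hb, map_zero, map_zero, add_zero]
          rw [h0, h1, add_zero, add_self_mod]
        rcases trichotomous_of (WellOrderingRel (α := X)) x y with hlt | heq | hgt
        · have h1 : φ y x = 0 := by
            rw [hφ, if_neg]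
            exact fun h => asymm hlt h.1
          have h2 : φ x y = D x y + dX bd φ x y := by
            rw [hφ x y, if_pos ⟨hlt, hok⟩]
          have h3 := add_self_mod (dX bd φ x y)
          rw [h1, h2, add_zero, add_assoc, h3, add_zero]
        · exact absurd heq hne
        · have hok' := hsymm _ _ hok
          have h1 : φ x y = 0 := by
            rw [hφ, if_neg]
            exact fun h => asymm hgt h.1
          have h2 : φ y x = D y x + dX bd φ y x := by
            rw [hφ y x, if_pos ⟨hgt, hok'⟩]
          have h3 : dX bd D x y = dX bd φ x y + dX bd φ y x := by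
            have e1 : lin (fun x' => D x' y) (bd x) =
                lin (fun x' => φ x' y + φ y x' + dX bd φ x' y) (bd x) := by
              refine lin_congr fun c hc => ?_
              have := hsz x y c hok hc
              exact ih (sz c + sz y) (by omega) c y rfl (hface x y c hok hc)
            have e2 : lin (fun y' => D x y') (bd y) =
                lin (fun y' => φ x y' + φ y' x + dX bd φ x y') (bd y) := by
              refine lin_congr fun c hc => ?_
              have := hsz y x c hok' hc
              exact ih (sz x + sz c) (by omega) x c rfl (hsymm _ _ (hface y x c hok' hc))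
            have e3 : lin (fun x' => dX bd φ x' y) (bd x) =
                lin (fun x' => lin (fun y' => φ x' y') (bd y)) (bd x) := by
              unfold dX
              rw [lin_add, lin_lin (f := fun x' => φ x' y) (e := bd), hbd x y hok, map_zero,
                zero_add]
            have e4 : lin (fun y' => dX bd φ x y') (bd y) =
                lin (fun y' => lin (fun x' => φ x' y') (bd x)) (bd y) := by
              unfold dX
              rw [lin_add, lin_lin (f := fun y' => φ x y') (e := bd), hbd y x hok', map_zero,
                add_zero]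
            have e5 := lin_comm φ (bd x) (bd y)
            show lin (fun x' => D x' y) (bd x) + lin (fun y' => D x y') (bd y) = _
            rw [e1, e2, lin_add, lin_add, lin_add, lin_add, e3, e4, e5]
            have h4 := add_self_mod (lin (fun y' => lin (fun x' => φ x' y') (bd x)) (bd y))
            unfold dX
            linear_combination h4
          have h4 := hD x y hok
          have h5 := add_self_mod (D y x)
          rw [h1, h2]
          linear_combination h3 - h4 - h5
    exact fun x y hok => key _ x y rfl hok
  · have key : ∀ n x y, sz x + sz y = n → φ x y ≠ 0 →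
        ∃ x' y', Rch bd x x' ∧ Rch bd y y' ∧ D x' y' ≠ 0 := by
      intro n
      induction n using Nat.strong_induction_on with
      | _ n ih =>
        intro x y hn hne
        rw [hφ] at hne
        by_cases hc : WellOrderingRel x y ∧ Ok x y
        · rw [if_pos hc] at hne
          by_cases hDz : D x y = 0
          · rw [hDz, zero_add] at hne
            unfold dX at hne
            by_cases h1 : lin (fun x' => φ x' y) (bd x) = 0
            · rw [h1, zero_add] at hne
              obtain ⟨y', hy', hφ'⟩ := lin_ne hne
              have := hsz y x y' (hsymm _ _ hc.2) hy'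
              obtain ⟨x1, y1, r1, r2, r3⟩ := ih (sz x + sz y') (by omega) x y' rfl hφ'
              exact ⟨x1, y1, r1, Relation.ReflTransGen.head hy' r2, r3⟩
            · obtain ⟨x', hx', hφ'⟩ := lin_ne h1
              have := hsz x y x' hc.2 hx'
              obtain ⟨x1, y1, r1, r2, r3⟩ := ih (sz x' + sz y) (by omega) x' y rfl hφ'
              exact ⟨x1, y1, Relation.ReflTransGen.head hx' r1, r2, r3⟩
          · exact ⟨x, y, Relation.ReflTransGen.refl, Relation.ReflTransGen.refl, hDz⟩
        · rw [if_neg hc] at hne
          exact absurd rfl hne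
    exact fun x y h => key _ x y rfl h

end Pool.Agent.H4.BD
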