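import Pool.Agent.H4.BD.CellB
import Pool.Agent.H65.BU.Main

/-!
# Project BD: the sums over all pairs of cells

`KK M Q φ s t` = sum over all pairs of cells of the types `s`, `t`. `KK_dX`: the coboundary; every coset of `W_(s - v)` is in
exactly one coset of `W_s`.
-/

set_option autoImplicit false
set_option linter.unusedSectionVars false

open Finset

namespace Pool.Agent.H4.BD

open Pool.Agent.H4.FC Pool.Agent.H78.RC Pool.Agent.H97.BLD Pool.Agent.H37.TM

variable {S : Type} [Fintype S] [DecidableEq S] {M : CoxeterMatrix S}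
  {Lb : Type} [DecidableEq Lb] [VLb S Lb]

/-- the first letters form a spherical set -/
theorem sph_fl (w : M.Group) : Sph M (fl M w) := by
  have h1 : Mx M (fl M w) w⁻¹ := by
    rw [mx_iff]
    intro v hv
    rw [mem_fl] at hv
    have h2 : w⁻¹ * M.simple v = (M.simple v * w)⁻¹ := by
      rw [mul_inv_rev, simple_inv]
    rw [h2, len_inv, len_inv]
    exact hv
  exact h1.sph

/-- sums over fibres -/
theorem finsum_fib {α β N : Type} [AddCommMonoid N] (π : β → α) (P : α → Prop) (Pb : β → Prop)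
    (F : α → Finset β) (g : β → N) (hg : (Function.support g).Finite)
    (hF : ∀ a, P a → ∀ b, b ∈ F a ↔ Pb b ∧ π b = a) (hP : ∀ b, Pb b → P (π b))
    (hg0 : ∀ b, ¬ Pb b → g b = 0) (T : α → N) (hT : ∀ a, P a → T a = ∑ b ∈ F a, g b)
    (hT0 : ∀ a, ¬ P a → T a = 0) : ∑ᶠ a, T a = ∑ᶠ b, g b := by
  classical
  have hPb : ∀ b, g b ≠ 0 → Pb b := fun b hb => by
    by_contra h
    exact hb (hg0 b h)
  rw [finsum_eq_sum_of_support_subset (s := hg.toFinset) g (by rw [Set.Finite.coe_toFinset]),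
    finsum_eq_sum_of_support_subset (s := hg.toFinset.image π) T ?_,
    ← sum_fiberwise_of_maps_to (g := π) (t := hg.toFinset.image π)
      fun b hb => mem_image_of_mem π hb]
  · refine sum_congr rfl fun a ha => ?_
    rw [mem_image] at ha
    obtain ⟨b, hb, rfl⟩ := ha
    rw [Set.Finite.mem_toFinset, Function.mem_support] at hb
    have h1 : P (π b) := hP b (hPb b hb)
    rw [hT _ h1]
    symm
    refine sum_subset ?_ ?_
    · intro b' hb'
      rw [mem_filter, Set.Finite.mem_toFinset, Function.mem_support] at hb'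
      exact (hF _ h1 b').2 ⟨hPb b' hb'.1, hb'.2⟩
    · intro b' hb' hn
      by_contra h2
      refine hn ?_
      rw [mem_filter, Set.Finite.mem_toFinset, Function.mem_support]
      exact ⟨h2, ((hF _ h1 b').1 hb').2⟩
  · intro a ha
    rw [Function.mem_support] at ha
    have h1 : P a := by
      by_contra h
      exact ha (hT0 a h)
    rw [hT a h1] at ha
    obtain ⟨b, hb, hb'⟩ := exists_ne_zero_of_sum_ne_zero ha
    rw [coe_image]
    refine ⟨b, ?_, ((hF a h1 b).1 hb).2⟩
    rw [mem_coe, Set.Finite.mem_toFinset]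
    exact hb'

variable {Q : (Finset (S × Lb) → Finset (S × Lb) → ZMod 2) → Finset S → Finset S → ZMod 2}

theorem IsCoef.zero (hQ : IsCoef M Q) (A B : Finset S) : Q (fun _ _ => 0) A B = 0 := by
  have h1 := hQ.add (fun _ _ => 0) (fun _ _ => 0) A B
  rw [show (fun _ _ => (0 : ZMod 2) + 0 : Finset (S × Lb) → Finset (S × Lb) → ZMod 2) =
    fun _ _ => 0 from by funext a b; exact add_zero 0] at h1
  exact left_eq_add.1 h1

theorem IsCoef.sum (hQ : IsCoef M Q) {ι : Type} (I : Finset ι)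
    (g : ι → Finset (S × Lb) → Finset (S × Lb) → ZMod 2) (A B : Finset S) :
    Q (fun a b => ∑ i ∈ I, g i a b) A B = ∑ i ∈ I, Q (g i) A B := by
  classical
  induction I using Finset.induction_on with
  | empty => exact hQ.zero A B
  | insert i I hi ih =>
    rw [sum_insert hi, ← ih, ← hQ.add]
    congr 1
    funext a b
    rw [sum_insert hi]

theorem kk_supp (hQ : IsCoef M Q) {φ : Cel M Lb → Cel M Lb → ZMod 2} (hφ : FinS φ)
    (s t : Finset S) (P : M.Group × M.Group → Prop) [DecidablePred P] :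
    (Function.support fun q : M.Group × M.Group => if P q then
      Q (fun a b => φ (q.1, s, a) (q.2, t, b)) (fl M q.1) (fl M q.2) else 0).Finite := by
  have hφ' : {q : M.Group × M.Group | ∃ s a t b, φ (q.1, s, a) (q.2, t, b) ≠ 0}.Finite := hφ
  refine hφ'.subset fun q hq => ?_
  rw [Function.mem_support] at hq
  by_contra h
  refine hq ?_
  have h1 : (fun a b => φ (q.1, s, a) (q.2, t, b)) = fun _ _ => (0 : ZMod 2) := by
    funext a b
    by_contra h2
    exact h ⟨s, a, t, b, h2⟩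
  rw [h1, hQ.zero]
  split_ifs <;> rfl

theorem kk_add (hQ : IsCoef M Q) {φ ψ : Cel M Lb → Cel M Lb → ZMod 2} (hφ : FinS φ)
    (hψ : FinS ψ) (s t : Finset S) :
    KK M Q (fun x y => φ x y + ψ x y) s t = KK M Q φ s t + KK M Q ψ s t := by
  classical
  unfold KK
  rw [← finsum_add_distrib (kk_supp hQ hφ s t _) (kk_supp hQ hψ s t _)]
  refine finsum_congr fun q => ?_
  split_ifs
  · exact hQ.add _ _ _ _
  · exact (add_zero 0).symm

theorem kk_congr (hQ : IsCoef M Q) {φ ψ : Cel M Lb → Cel M Lb → ZMod 2}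
    (h : ∀ x y, Ok M x y → φ x y = ψ x y) (s t : Finset S) :
    KK M Q φ s t = KK M Q ψ s t := by
  classical
  unfold KK
  refine finsum_congr fun q => ?_
  split_ifs with h1
  · refine hQ.congr _ _ _ _ (sph_fl _) (sph_fl _) fun a b ha hb ha' hb' hab => ?_
    have hx : Vld M ((q.1, s, a) : Cel M Lb) := ⟨h1.1.sph, h1.1, ha, ha'⟩
    have hy : Vld M ((q.2, t, b) : Cel M Lb) := ⟨h1.2.sph, h1.2, hb, hb'⟩
    have hO : Ok M ((q.1, s, a) : Cel M Lb) (q.2, t, b) := ⟨hx, hy, hab⟩
    exact h _ _ hO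
  · rfl

theorem kk_swap (hQ : IsCoef M Q) (φ : Cel M Lb → Cel M Lb → ZMod 2) (s t : Finset S) :
    KK M Q (fun x y => φ y x) s t = KK M Q φ t s := by
  classical
  unfold KK
  rw [← finsum_comp_equiv (Equiv.prodComm M.Group M.Group)]
  refine finsum_congr fun q => ?_
  show (if Mx M s q.2 ∧ Mx M t q.1 then
    Q (fun a b => φ (q.1, t, b) (q.2, s, a)) (fl M q.2) (fl M q.1) else 0) = _
  by_cases h1 : Mx M t q.1 ∧ Mx M s q.2
  · rw [if_pos h1, if_pos h1.symm, hQ.swap]
  · rw [if_neg h1, if_neg fun h2 => h1 h2.symm]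

theorem kk_zero (hQ : IsCoef M Q) {φ : Cel M Lb → Cel M Lb → ZMod 2} {s t : Finset S}
    (h : ∀ z a z' b, φ (z, s, a) (z', t, b) = 0) : KK M Q φ s t = 0 := by
  classical
  unfold KK
  refine (finsum_congr fun q => ?_).trans finsum_zero
  have h1 : (fun a b => φ (q.1, s, a) (q.2, t, b)) = fun _ _ => (0 : ZMod 2) := by
    funext a b
    exact h _ _ _ _
  rw [h1, hQ.zero]
  split_ifs <;> rfl

/-- the first half of the coboundary -/
theorem kk_left (hQ : IsCoef M Q) {φ : Cel M Lb → Cel M Lb → ZMod 2} (hφ : FinS φ)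
    {s t : Finset S} (hs : Sph M s) :
    KK M Q (fun x y => lin (fun x' => φ x' y) (bdC M x)) s t =
      ∑ v ∈ s, KK M Q φ (s.erase v) t := by
  classical
  -- the function on pairs
  have key : ∀ v ∈ s, KK M Q φ (s.erase v) t = ∑ᶠ q : M.Group × M.Group,
      if Mx M s q.1 ∧ Mx M t q.2 then ∑ y ∈ cs M q.1 s (s.erase v),
        Q (fun a b => φ (y, s.erase v, a) (q.2, t, b)) (fl M y) (fl M q.2) else 0 := by
    intro v _
    have hs' : Sph M (s.erase v) := hs.mono (erase_subset _ _)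
    unfold KK
    symm
    refine finsum_fib (fun q => ((exists_mx hs q.1).choose, q.2))
      (fun q => Mx M s q.1 ∧ Mx M t q.2) (fun q => Mx M (s.erase v) q.1 ∧ Mx M t q.2)
      (fun q => (cs M q.1 s (s.erase v)).image fun y => (y, q.2)) _ (kk_supp hQ hφ _ _ _) ?_ ?_ ?_
      _ ?_ ?_
    · rintro ⟨z, z'⟩ ⟨hz, hz'⟩ ⟨y, y'⟩
      rw [mem_image]
      have h1 := (exists_mx hs y).choose_spec
      constructor
      · rintro ⟨y₀, hy₀, h2⟩
        obtain ⟨rfl, rfl⟩ := Prod.mk.inj h2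
        rw [mem_cs hs] at hy₀
        refine ⟨⟨hy₀.2, hz'⟩, Prod.ext ?_ rfl⟩
        refine h1.1.unique hz ?_
        have h3 : (exists_mx hs y₀).choose⁻¹ * z =
          (exists_mx hs y₀).choose⁻¹ * y₀ * (z⁻¹ * y₀)⁻¹ := by group
        show (exists_mx hs y₀).choose⁻¹ * z ∈ par M s
        rw [h3]
        exact mul_mem h1.2 (inv_mem hy₀.1)
      · rintro ⟨⟨hy, hy'⟩, h2⟩
        obtain ⟨h3, h4⟩ := Prod.mk.inj h2
        refine ⟨y, ?_, Prod.ext rfl h4.symm⟩
        rw [mem_cs hs]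
        refine ⟨?_, hy⟩
        show z⁻¹ * y ∈ par M s
        rw [← h3]
        exact h1.2
    · rintro ⟨y, y'⟩ ⟨hy, hy'⟩
      exact ⟨(exists_mx hs y).choose_spec.1, hy'⟩
    · intro q hq
      exact if_neg hq
    · rintro ⟨z, z'⟩ hz
      rw [if_pos hz, sum_image fun y _ y' _ h => (Prod.mk.inj h).1]
      refine sum_congr rfl fun y hy => ?_
      rw [mem_cs hs] at hy
      exact (if_pos ⟨hy.2, hz.2⟩).symm
    · intro q hq
      exact if_neg hq
  rw [sum_congr rfl key]
  -- the sum over the directions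
  have hfin : ∀ v ∈ s, (Function.support fun q : M.Group × M.Group =>
      if Mx M s q.1 ∧ Mx M t q.2 then ∑ y ∈ cs M q.1 s (s.erase v),
        Q (fun a b => φ (y, s.erase v, a) (q.2, t, b)) (fl M y) (fl M q.2) else 0).Finite := by
    intro v _
    have h0 : {q : M.Group × M.Group | ∃ s a t b, φ (q.1, s, a) (q.2, t, b) ≠ 0}.Finite := hφ
    have h1 := h0.image2 (fun (q : M.Group × M.Group) (u : M.Group) => (q.1 * u⁻¹, q.2))
      (finite_toSet (parF M s))
    refine h1.subset fun q hq => ?_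
    rw [Function.mem_support] at hq
    split_ifs at hq with h2
    · obtain ⟨y, hy, hne⟩ := exists_ne_zero_of_sum_ne_zero hq
      rw [mem_cs hs] at hy
      refine ⟨(y, q.2), ?_, q.1⁻¹ * y, (mem_parF hs _).2 hy.1, ?_⟩
      · by_contra h3
        refine hne ?_
        have h4 : (fun a b => φ (y, s.erase v, a) (q.2, t, b)) = fun _ _ => (0 : ZMod 2) := by
          funext a b
          by_contra h5
          exact h3 ⟨_, a, _, b, h5⟩
        rw [h4, hQ.zero]
      · exact Prod.ext (by show y * (q.1⁻¹ * y)⁻¹ = q.1; group) rfl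
    · exact absurd rfl hq
  rw [← finsum_sum_comm s _ hfin]
  unfold KK
  refine finsum_congr fun q => ?_
  split_ifs with h1
  · have h2 : (fun a b => lin (fun x' => φ x' (q.2, t, b)) (bdC M ((q.1, s, a) : Cel M Lb))) =
        fun a b => ∑ v ∈ s, ∑ y ∈ cs M q.1 s (s.erase v),
          φ (y, s.erase v, rs (fl M y) a) (q.2, t, b) := by
      funext a b
      exact lin_bdC _ _
    show Q (fun a b => lin (fun x' => φ x' (q.2, t, b)) (bdC M ((q.1, s, a) : Cel M Lb)))
      (fl M q.1) (fl M q.2) = _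
    rw [h2, hQ.sum]
    refine sum_congr rfl fun v _ => ?_
    rw [hQ.sum]
    refine sum_congr rfl fun y hy => ?_
    rw [mem_cs hs] at hy
    exact hQ.left (fun a b => φ (y, s.erase v, a) (q.2, t, b)) _ _ _ (sph_fl _) (sph_fl _)
      (fl_coset h1.1 hy.1)
  · exact (sum_const_zero).symm

theorem FinS.swap {φ : Cel M Lb → Cel M Lb → ZMod 2} (hφ : FinS φ) :
    FinS fun x y => φ y x := by
  have h0 : {q : M.Group × M.Group | ∃ s a t b, φ (q.1, s, a) (q.2, t, b) ≠ 0}.Finite := hφ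
  refine (h0.image Prod.swap).subset ?_
  rintro ⟨z, z'⟩ ⟨s, a, t, b, h⟩
  exact ⟨(z', z), ⟨t, b, s, a, h⟩, rfl⟩

theorem lin_ne {N : Type} [AddCommGroup N] [Module (ZMod 2) N] {A : Type} {f : A → N}
    {x : A →₀ ZMod 2} (h : lin f x ≠ 0) : ∃ c, x c ≠ 0 ∧ f c ≠ 0 := by
  by_contra hn
  refine h ?_
  have h1 : lin f x = lin (fun _ => (0 : N)) x := lin_congr fun c hc => by
    by_contra h2
    exact hn ⟨c, hc, h2⟩
  rw [h1]
  unfold lin
  rw [Finsupp.linearCombination_apply]
  exact sum_eq_zero fun c _ => smul_zero _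

theorem FinS.left {φ : Cel M Lb → Cel M Lb → ZMod 2} (hφ : FinS φ) :
    FinS fun x y => lin (fun x' => φ x' y) (bdC M x) := by
  refine finS_rch hφ fun x y h => ?_
  obtain ⟨x', h1, h2⟩ := lin_ne h
  exact ⟨x', y, Relation.ReflTransGen.single h1, Relation.ReflTransGen.refl, h2⟩

theorem FinS.dX {φ : Cel M Lb → Cel M Lb → ZMod 2} (hφ : FinS φ) : FinS (dX (bdC M) φ) := by
  refine finS_rch hφ fun x y h => ?_
  unfold Pool.Agent.H4.BD.dX at h
  by_cases h1 : lin (fun x' => φ x' y) (bdC M x) = 0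
  · rw [h1, zero_add] at h
    obtain ⟨y', h2, h3⟩ := lin_ne h
    exact ⟨x, y', Relation.ReflTransGen.refl, Relation.ReflTransGen.single h2, h3⟩
  · obtain ⟨x', h2, h3⟩ := lin_ne h1
    exact ⟨x', y, Relation.ReflTransGen.single h2, Relation.ReflTransGen.refl, h3⟩

/-- the coboundary -/
theorem kk_dX (hQ : IsCoef M Q) {φ : Cel M Lb → Cel M Lb → ZMod 2} (hφ : FinS φ)
    {s t : Finset S} (hs : Sph M s) (ht : Sph M t) :
    KK M Q (dX (bdC M) φ) s t =
      ∑ v ∈ s, KK M Q φ (s.erase v) t + ∑ v ∈ t, KK M Q φ s (t.erase v) := by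
  have h1 := kk_left hQ hφ (t := t) hs
  have h2 := kk_left hQ hφ.swap (t := s) ht
  have h3 : KK M Q (fun x y => lin (fun y' => φ x y') (bdC M y)) s t =
      ∑ v ∈ t, KK M Q φ s (t.erase v) := by
    rw [kk_swap hQ (fun x y => lin (fun x' => φ y x') (bdC M x)) s t, h2]
    exact sum_congr rfl fun v _ => kk_swap hQ φ _ _
  rw [← h1, ← h3]
  exact kk_add hQ hφ.left (FinS.swap (φ := fun x y => lin (fun x' => φ y x') (bdC M x))
    hφ.swap.left) s t

/-- Pairing with a cycle of pairs: the coboundary of `φ` and the symmetric part of `φ` give nothing. -/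
theorem kk_cycle (hQ : IsCoef M Q) {D φ : Cel M Lb → Cel M Lb → ZMod 2} (hφ : FinS φ)
    (hD : ∀ x y, Ok M x y → D x y = φ x y + φ y x + dX (bdC M) φ x y)
    {z : Finset S → ZMod 2} (hz : ∀ T, z T ≠ 0 → Sph M T)
    (hdz : ∀ T, ∑ v ∈ Tᶜ, z (insert v T) = 0) :
    ∑ s, ∑ t, z s * z t * KK M Q D s t = 0 := by
  have h1 : ∀ s t, z s * z t * KK M Q D s t = z s * z t *
      ((∑ v ∈ s, KK M Q φ (s.erase v) t + ∑ v ∈ t, KK M Q φ s (t.erase v)) +
        (KK M Q φ s t + KK M Q φ t s)) := by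
    intro s t
    by_cases hs : z s = 0
    · rw [hs, zero_mul, zero_mul, zero_mul]
    · by_cases ht : z t = 0
      · rw [ht, mul_zero, zero_mul, zero_mul]
      · rw [kk_congr hQ hD s t, kk_add hQ (φ := fun x y => φ x y + φ y x) ?_ hφ.dX,
          kk_add hQ hφ hφ.swap, kk_swap hQ φ s t, kk_dX hQ hφ (hz s hs) (hz t ht), add_comm
            (KK M Q φ s t + KK M Q φ t s)]
        have h0 : {q : M.Group × M.Group | ∃ s a t b, φ (q.1, s, a) (q.2, t, b) ≠ 0}.Finite := hφ
        have h0' : {q : M.Group × M.Group | ∃ s a t b, φ (q.2, t, b) (q.1, s, a) ≠ 0}.Finite :=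
          hφ.swap
        refine (h0.union h0').subset ?_
        rintro q ⟨s, a, t, b, h⟩
        by_cases h2 : φ (q.1, s, a) (q.2, t, b) = 0
        · right
          refine ⟨s, a, t, b, fun h3 => h ?_⟩
          show φ (q.1, s, a) (q.2, t, b) + φ (q.2, t, b) (q.1, s, a) = 0
          rw [h2, h3, add_zero]
        · exact Or.inl ⟨s, a, t, b, h2⟩
  rw [sum_congr rfl fun s _ => sum_congr rfl fun t _ => h1 s t]
  exact Pool.Agent.H65.BU.double_sum z hdz (fun s t => KK M Q φ s t) fun s t => KK M Q φ s t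

end Pool.Agent.H4.BD
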