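import Pool.Agent.H4.BD.AAb
import Pool.Agent.H4.BD.HHf
import Pool.Agent.H4.BD.CoefJ
import Pool.Agent.H4.BD.Dual
import Pool.Agent.H4.BD.HalfX

/-!
# Project BD: the manifold side

The intersection numbers `hh` of the cells and the alternating function `AA` satisfy the same relation and have the same
value on the base cell, so their sum is the coboundary of a function `φ` plus its symmetric part (`exists_halfX`). In
the degree `k + 1`, `2 (k + 1) > n`, the intersection numbers are zero, so the pairing of a cocycle with a cycle of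
the nerve, computed with the alternating function (`hasCoef_mix`), is zero (`kk_cycle`).
-/

set_option autoImplicit false
set_option linter.unusedSectionVars false

open Finset

namespace Pool.Agent.H4.BD

open Pool.Agent.H4.FC Pool.Agent.H78.RC Pool.Agent.H97.BLD Pool.Agent.H37.TM Pool.Agent.H84.RX
  Pool.Agent.H93.AA

variable {S Δ P : Type} [Fintype S] [DecidableEq S] [Group P] {M : CoxeterMatrix S}
  {δ : Δ → Δ → M.Group} {q : S → Δ → ℕ} {c : Δ} {C : Set Δ} {rr : Finset S → Δ → P} {n k : ℕ}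
  {H : List P → List P → ZMod 2}

/-- enough neighbours give labels -/
theorem exists_lab (hq : Reg M δ q) {R : Finset S} (h2 : ∀ s x, 2 ≤ q s x)
    (h3 : ∀ s x, s ∉ R → 3 ≤ q s x) (c : Δ) :
    ∃ lab : S × Fin 3 → Δ, @LabOk S Δ (Fin 3) (vlb R) M δ c lab := by
  classical
  have h0 : ∀ (s : S) (m : ℕ), m ≤ q s c →
      ∃ f : Fin m → Δ, (∀ j, δ c (f j) = M.simple s) ∧ Function.Injective f := by
    intro s m hm
    obtain ⟨hf, hc⟩ := hq s c
    have hF : Fintype {d | δ c d = M.simple s} := hf.fintype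
    have h2 : Fintype.card (Fin m) ≤ Fintype.card {d | δ c d = M.simple s} := by
      rw [← Nat.card_eq_fintype_card (α := {d | δ c d = M.simple s}), Nat.card_coe_set_eq, hc,
        Fintype.card_fin]
      exact hm
    obtain ⟨f⟩ := Function.Embedding.nonempty_of_card_le h2
    exact ⟨fun j => (f j).1, fun j => (f j).2, fun i j h => f.injective (Subtype.ext h)⟩
  have h1 : ∀ s : S, ∃ f : Fin 3 → Δ, (∀ j, δ c (f j) = M.simple s) ∧
      ∀ j j', (s ∈ R → j ≠ 2) → (s ∈ R → j' ≠ 2) → f j = f j' → j = j' := by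
    intro s
    by_cases hs : s ∈ R
    · obtain ⟨f, hf1, hf2⟩ := h0 s 2 (h2 s c)
      refine ⟨fun j => if j = 0 then f 0 else f 1, fun j => ?_, fun j j' hj hj' h => ?_⟩
      · by_cases hj : j = 0
        · simp only [if_pos hj]
          exact hf1 0
        · simp only [if_neg hj]
          exact hf1 1
      · have h4 : f 0 ≠ f 1 := fun h' => absurd (hf2 h') (by decide)
        have key : ∀ i : Fin 3, i ≠ 2 → i = 0 ∨ i = 1 := by decide
        have h5 : (if j = 0 then f 0 else f 1) = if j' = 0 then f 0 else f 1 := h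
        rcases key j (hj hs) with rfl | rfl <;> rcases key j' (hj' hs) with rfl | rfl
        · rfl
        · rw [if_pos rfl, if_neg (by decide)] at h5
          exact absurd h5 h4
        · rw [if_neg (by decide), if_pos rfl] at h5
          exact absurd h5.symm h4
        · rfl
    · obtain ⟨f, hf1, hf2⟩ := h0 s 3 (h3 s c hs)
      exact ⟨f, hf1, fun j j' _ _ h => hf2 h⟩
  choose f hf1 hf2 using h1
  exact ⟨fun p => f p.1 p.2, fun p => hf1 p.1 p.2, fun t j j' hj hj' h => hf2 t j j' hj hj' h⟩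

theorem hl_bld {Lb : Type} [DecidableEq Lb] [VLb S Lb] (hco : HasCoef M Lb)
    (hδ : IsBuilding M δ) (hq : Reg M δ q) {lab : S × Lb → Δ} (hlab : LabOk M δ c lab)
    (hC : Sel M δ c C) (hrr : IsRr M δ rr)
    (hH : InterL P n H) (hn : n ≤ 2 * k + 1) : HL M (k + 1) := by
  classical
  refine hl_of_pairing M (k + 1) fun x z hx hz hdz => ?_
  obtain ⟨Q, hQ, μ, hμ, hval⟩ := hco k x hx
  rw [← hval z hz hdz]
  -- the sum of the two functions
  obtain ⟨D, hDef⟩ : ∃ D : Cel M Lb → Cel M Lb → ZMod 2,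
      D = fun e e' => hh M δ c lab C rr H e e' + AA M μ e e' := ⟨_, rfl⟩
  have hF1 : FinS (hh M δ c lab C rr H) := hh_finS hδ hq hlab hrr hH
  have hF2 : FinS (AA M μ) := AA_finS μ
  have hFD : FinS D := by
    have h1 : {q : M.Group × M.Group | ∃ s a t b,
      hh M δ c lab C rr H (q.1, s, a) (q.2, t, b) ≠ 0}.Finite := hF1
    have h2 : {q : M.Group × M.Group | ∃ s a t b, AA M μ (q.1, s, a) (q.2, t, b) ≠ 0}.Finite := hF2
    refine (h1.union h2).subset ?_
    rintro q ⟨s, a, t, b, h⟩
    rw [hDef] at h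
    by_cases h3 : hh M δ c lab C rr H (q.1, s, a) (q.2, t, b) = 0
    · right
      refine ⟨s, a, t, b, fun h4 => h ?_⟩
      show hh M δ c lab C rr H (q.1, s, a) (q.2, t, b) + AA M μ (q.1, s, a) (q.2, t, b) = 0
      rw [h3, h4, add_zero]
    · exact Or.inl ⟨s, a, t, b, h3⟩
  have hD : ∀ e e', Ok M e e' → dX (bdC M) D e e' = D e e' + D e' e := by
    intro e e' hok
    have h1 := hh_rel hδ hq hC hlab hrr.const hH e e' hok
    have h2 := AA_rel hμ hok
    have h3 : dX (bdC M) D e e' =
        dX (bdC M) (hh M δ c lab C rr H) e e' + dX (bdC M) (AA M μ) e e' := by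
      rw [hDef]
      unfold dX
      rw [lin_add, lin_add]
      ring
    rw [h3, h1, h2, hDef]
    ring
  have h0 : D (b0 M Lb) (b0 M Lb) = 0 := by
    rw [hDef]
    show hh M δ c lab C rr H (b0 M Lb) (b0 M Lb) +
      AA M μ (b0 M Lb) (b0 M Lb) = 0
    rw [hh_base hδ hC hlab hH, AA_base μ]
    rfl
  obtain ⟨φ, hφ1, hφ2⟩ := exists_halfX (fun e : Cel M Lb => e.2.1.card) (bdC M) (Ok M)
    (fun _ _ h => h.symm) (fun _ _ _ h h' => ok_face h h') (fun _ _ _ _ h' => sz_face h')
    (fun _ _ h => bdC_bdC h.1) (b0 M Lb) (fun _ h => ok_self h) bdC_b0 D hD h0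
  have hFφ : FinS φ := finS_rch hFD hφ2
  have key := kk_cycle hQ (D := D) hFφ hφ1 (z := z) (fun T hT => (hz T hT).1) hdz
  rw [← key]
  refine sum_congr rfl fun A _ => sum_congr rfl fun B _ => ?_
  by_cases hA : z A = 0
  · rw [hA, zero_mul, zero_mul, zero_mul]
  by_cases hB : z B = 0
  · rw [hB, mul_zero, zero_mul, zero_mul]
  congr 1
  have h1 : KK M Q D A B = KK M Q (hh M δ c lab C rr H) A B + KK M Q (AA M μ) A B := by
    rw [hDef]
    exact kk_add hQ hF1 hF2 A B
  have h2 : KK M Q (hh M δ c lab C rr H) A B = 0 := by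
    refine kk_zero hQ fun w a w' b => hh_top hH ?_
    show n < A.card + B.card
    rw [(hz A hA).2, (hz B hB).2]
    omega
  rw [h1, h2, zero_add, KK_AA hQ μ (hz A hA).1 (hz B hB).1]

end Pool.Agent.H4.BD
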