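import Pool.Agent.H4.BD.AAb

/-!
# Project BD: right descents and right-angled letters

`key_descent`: let `v` be a right-angled letter (`M s v ∈ {2, 0}`), `b` an element with `v` as its only right descent, `b ≤ y`,
and `u` a right descent of `y`. Then `b ≤ y u`, or `u = v` and `b⁻¹ y` is in the subgroup of the letters which commute
with `v`.
-/

set_option autoImplicit false
set_option linter.unusedSectionVars false

open Finset

namespace Pool.Agent.H4.BD

open Pool.Agent.H4.FC Pool.Agent.H78.RC Pool.Agent.H97.BLD

variable {S : Type} [Fintype S] [DecidableEq S] {M : CoxeterMatrix S}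

/-- a spherical pair has a finite label -/
theorem sph_pair {s t : S} (hst : s ≠ t) (h : Sph M {s, t}) : M s t ≠ 0 := by
  intro h0
  obtain ⟨w, hw, hm⟩ : ∃ w, w ∈ par M ({s, t} : Finset S) ∧ Mx M {s, t} w := by
    obtain ⟨w, h1, h2⟩ := exists_mx h 1
    exact ⟨w, by simpa using inv_mem h2, h1⟩
  have hk : kR M s t = -2 := by
    unfold kR
    rw [if_pos h0]
  have hk' : kR M t s = -2 := by rw [kR_symm, hk]
  -- the vector fixed by the group
  have hfix : ∀ u ∈ ({s, t} : Finset S),
      bf (kR M) (Pi.single u 1) (Pi.single s 1 + Pi.single t 1) = 0 := by
    intro u hu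
    rw [mem_insert, mem_singleton] at hu
    rw [bf_add_right, bf_single, bf_single]
    rcases hu with rfl | rfl
    · rw [kR_self, hk]
      norm_num
    · rw [kR_self, hk']
      norm_num
  have h1 : T M w (Pi.single s 1 + Pi.single t 1) = Pi.single s 1 + Pi.single t 1 := by
    refine par_induction M {s, t}
      (p := fun w => T M w (Pi.single s 1 + Pi.single t 1) = Pi.single s 1 + Pi.single t 1)
      (T_one M _) ?_ w hw
    intro u hu w ih
    rw [T_mul, ih, T_simple, hfix u hu, zero_smul, sub_zero]
  have h2 := (len_down_iff M w s).1 ((mx_iff.1 hm) s (mem_insert_self s _)) s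
  have h3 := (len_down_iff M w t).1 ((mx_iff.1 hm) t (mem_insert_of_mem (mem_singleton_self t))) s
  have h4 := congrFun h1 s
  rw [T_add, Pi.add_apply, Pi.add_apply, Pi.single_eq_same, Pi.single_eq_of_ne hst] at h4
  linarith

/-- the minimal element of a coset -/
theorem le_of_min {J : Finset S} {z x : M.Group}
    (hz : ∀ t ∈ J, len M (z * M.simple t) = len M z + 1) (hx : x ∈ par M J) :
    Le M z (z * x) := by
  have h1 := len_par_mul M (J := J) (u := x⁻¹) (b := z⁻¹) (inv_mem hx) fun t ht => by
    have h2 : M.simple t * z⁻¹ = (z * M.simple t)⁻¹ := by
      rw [mul_inv_rev, simple_inv]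
    rw [h2, len_inv, len_inv, hz t ht]
  rw [← mul_inv_rev, len_inv, len_inv, len_inv] at h1
  unfold Le
  rw [inv_mul_cancel_left, h1]
  omega

/-- the subgroup of two commuting letters -/
theorem mem_par_pair {v t : S} (hc : M.simple v * M.simple t = M.simple t * M.simple v)
    {x : M.Group} (hx : x ∈ par M {v, t}) :
    x = 1 ∨ x = M.simple v ∨ x = M.simple t ∨ x = M.simple v * M.simple t := by
  refine par_induction M {v, t} (p := fun x => x = 1 ∨ x = M.simple v ∨ x = M.simple t ∨
    x = M.simple v * M.simple t) (Or.inl rfl) ?_ x hx
  intro u hu w hw
  rw [mem_insert, mem_singleton] at hu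
  rcases hu with rfl | rfl
  · rcases hw with rfl | rfl | rfl | rfl
    · exact Or.inr (Or.inl (mul_one _))
    · exact Or.inl (simple_sq M u)
    · exact Or.inr (Or.inr (Or.inr rfl))
    · refine Or.inr (Or.inr (Or.inl ?_))
      rw [← mul_assoc, simple_sq, one_mul]
  · rcases hw with rfl | rfl | rfl | rfl
    · exact Or.inr (Or.inr (Or.inl (mul_one _)))
    · exact Or.inr (Or.inr (Or.inr hc.symm))
    · exact Or.inl (simple_sq M u)
    · refine Or.inr (Or.inl ?_)
      rw [hc, ← mul_assoc, simple_sq, one_mul]

/-- letters with the label two commute -/
theorem simple_comm {v t : S} (h : M v t = 2) :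
    M.simple v * M.simple t = M.simple t * M.simple v := by
  have h1 := M.toCoxeterSystem.simple_mul_simple_pow v t
  rw [M.toCoxeterSystem_simple, h, pow_two] at h1
  have h2 : M.simple v * M.simple t = (M.simple v * M.simple t)⁻¹ :=
    eq_inv_of_mul_eq_one_left h1
  rw [mul_inv_rev, simple_inv, simple_inv] at h2
  exact h2

/-- the letters which commute with `v` -/
def perp (M : CoxeterMatrix S) (v : S) : Finset S := univ.filter fun s => s ≠ v ∧ M s v = 2

theorem mem_perp {v s : S} : s ∈ perp M v ↔ s ≠ v ∧ M s v = 2 := by
  unfold perp
  rw [mem_filter]
  exact and_iff_right (mem_univ s)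

/-- **The key lemma.** -/
theorem key_descent {v : S} (hv : ∀ s, s ≠ v → M s v = 2 ∨ M s v = 0) {b y : M.Group}
    (hb : ∀ s, len M (b * M.simple s) + 1 = len M b → s = v) (hle : Le M b y) {u : S}
    (hu : len M (y * M.simple u) + 1 = len M y) :
    Le M b (y * M.simple u) ∨ (u = v ∧ b⁻¹ * y ∈ par M (perp M v)) := by
  obtain ⟨n, hn⟩ : ∃ n, len M (b⁻¹ * y) = n := ⟨_, rfl⟩
  induction n using Nat.strong_induction_on generalizing y u with
  | _ n ih =>
    by_cases h1 : b⁻¹ * y = 1
    · right
      have h2 : y = b := (inv_mul_eq_one.1 h1).symm
      subst h2
      refine ⟨hb u hu, ?_⟩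
      rw [h1]
      exact one_mem _
    · -- the last letter of `b⁻¹ y`
      obtain ⟨u', hu'⟩ := exists_right M h1
      have h2 : Le M b (y * M.simple u') := by
        unfold Le at hle ⊢
        rw [← mul_assoc]
        have h3 := len_mul_le M b (b⁻¹ * y * M.simple u')
        rw [← mul_assoc, mul_inv_cancel_left] at h3
        rcases len_mul_simple M y u' with h4 | h4 <;> omega
      have h3 : len M (y * M.simple u') + 1 = len M y := by
        unfold Le at hle h2
        rw [← mul_assoc] at h2
        omega
      by_cases huu : u' = u
      · subst huu
        exact Or.inl h2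
      · -- two right descents
        have hT : Mx M {u, u'} y := by
          rw [mx_iff]
          intro t ht
          rw [mem_insert, mem_singleton] at ht
          rcases ht with rfl | rfl
          · exact hu
          · exact h3
        have hsph := hT.sph
        obtain ⟨Z, hZ⟩ : ∃ Z : Finset M.Group, ∀ z, z ∈ Z ↔
            y⁻¹ * z ∈ par M {u, u'} ∧ Le M b z ∧ len M z < len M y := by
          classical
          refine ⟨(cs M y {u, u'} ∅).filter fun z => Le M b z ∧ len M z < len M y, fun z => ?_⟩
          rw [mem_filter, mem_cs hsph]
          exact ⟨fun h => ⟨h.1.1, h.2⟩, fun h => ⟨⟨h.1, mx_empty z⟩, h.2⟩⟩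
        have hne : Z.Nonempty := by
          refine ⟨y * M.simple u', (hZ _).2 ⟨?_, h2, by omega⟩⟩
          rw [inv_mul_cancel_left]
          exact simple_mem_par M (mem_insert_of_mem (mem_singleton_self u'))
        obtain ⟨z, hz, hmin⟩ := exists_min_image Z (len M) hne
        obtain ⟨hz1, hz2, hz3⟩ := (hZ z).1 hz
        by_cases hm : ∀ t ∈ ({u, u'} : Finset S), len M (z * M.simple t) = len M z + 1
        · left
          refine le_trans' M hz2 ?_
          have h4 : z⁻¹ * (y * M.simple u) ∈ par M {u, u'} := by
            have h5 : z⁻¹ * (y * M.simple u) = (y⁻¹ * z)⁻¹ * M.simple u := by group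
            rw [h5]
            exact mul_mem (inv_mem hz1) (simple_mem_par M (mem_insert_self u _))
          have h5 := le_of_min hm h4
          rwa [mul_inv_cancel_left] at h5
        · rw [not_forall] at hm
          obtain ⟨t, hm⟩ := hm
          rw [Classical.not_imp] at hm
          obtain ⟨ht, htne⟩ := hm
          have h4 : len M (z * M.simple t) + 1 = len M z := by
            rcases len_mul_simple M z t with h5 | h5
            · exact absurd h5 htne
            · exact h5
          have h5 : y⁻¹ * (z * M.simple t) ∈ par M {u, u'} := by
            rw [← mul_assoc]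
            exact mul_mem hz1 (simple_mem_par M ht)
          have h6 : ¬ Le M b (z * M.simple t) := by
            intro h7
            have h8 := hmin _ ((hZ _).2 ⟨h5, h7, by omega⟩)
            omega
          have h7 : len M (b⁻¹ * z) < n := by
            unfold Le at hz2 hle
            omega
          rcases ih _ h7 hz2 h4 rfl with h8 | ⟨h8, h9⟩
          · exact absurd h8 h6
          · subst h8
            -- the other letter
            obtain ⟨r, hr, hrt, hpar⟩ : ∃ r ∈ ({u, u'} : Finset S), r ≠ t ∧
                par M {u, u'} = par M {t, r} := by
              rw [mem_insert, mem_singleton] at ht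
              rcases ht with rfl | rfl
              · exact ⟨u', mem_insert_of_mem (mem_singleton_self _), huu, rfl⟩
              · refine ⟨u, mem_insert_self _ _, Ne.symm huu, ?_⟩
                rw [pair_comm]
            have hM : M r t = 2 := by
              rcases hv r hrt with h10 | h10
              · exact h10
              · exfalso
                have h11 : Sph M {t, r} := by
                  have h12 : Finite (par M {u, u'}) := hsph
                  rw [hpar] at h12
                  exact h12
                refine sph_pair hrt.symm h11 ?_
                rw [M.symmetric]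
                exact h10
            have hM' : M t r = 2 := by rw [M.symmetric]; exact hM
            have hdr : len M (y * M.simple r) + 1 = len M y := (mx_iff.1 hT) r hr
            rw [hpar] at hz1
            have hz : z = y * (y⁻¹ * z) := by group
            rcases mem_par_pair (simple_comm hM') hz1 with h10 | h10 | h10 | h10
            · rw [h10, mul_one] at hz
              rw [hz] at hz3
              omega
            · rw [h10] at hz
              rw [hz, mul_assoc, simple_sq, mul_one] at h4
              rw [hz] at hz3
              omega
            · rw [h10] at hz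
              rw [mem_insert, mem_singleton] at hr ht
              by_cases hut : u = t
              · right
                refine ⟨hut, ?_⟩
                have h11 : b⁻¹ * y = b⁻¹ * z * M.simple r := by
                  rw [hz, ← mul_assoc, mul_assoc, simple_sq, mul_one]
                rw [h11]
                exact mul_mem h9 (simple_mem_par M (mem_perp.2 ⟨hrt, hM⟩))
              · left
                have h11 : r = u := by
                  rcases hr with h12 | h12
                  · exact h12
                  · exfalso
                    rcases ht with h13 | h13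
                    · exact hut h13.symm
                    · exact hrt (h12.trans h13.symm)
                rw [← h11, ← hz]
                exact hz2
            · exfalso
              rw [h10] at hz
              have h11 : z * M.simple t = y * M.simple r := by
                rw [hz, simple_comm hM', mul_assoc, mul_assoc, simple_sq, mul_one]
              rw [h11] at h4
              omega

end Pool.Agent.H4.BD
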