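import Pool.Agent.H4.BD.Cox

/-!
# Project BD: the set of chambers, odd case
-/

set_option autoImplicit false
set_option linter.unusedSectionVars false

open Finset

namespace Pool.Agent.H4.BD

open Pool.Agent.H4.FC Pool.Agent.H78.RC Pool.Agent.H97.BLD

variable {S Δ : Type} [Fintype S] [DecidableEq S] {M : CoxeterMatrix S} {δ : Δ → Δ → M.Group}
  {q : S → Δ → ℕ}

/-- all panels have an even number of chambers -/
theorem sel_univ (hq : Reg M δ q) (hodd : ∀ s x, Odd (q s x)) (c : Δ) : Sel M δ c Set.univ := by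
  refine ⟨Set.mem_univ c, fun _ _ _ _ _ _ => Set.mem_univ _, fun _ _ _ _ _ _ _ _ => Set.mem_univ _,
    fun x _ u _ _ => ?_⟩
  have h1 : {y | y ∈ (Set.univ : Set Δ) ∧ δ x y = M.simple u} = {y | δ x y = M.simple u} := by
    ext y
    simp
  rw [h1, (hq u x).2]
  exact hodd u x

end Pool.Agent.H4.BD
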