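import Pool.Agent.H4.BD.Defs

/-!
# Project BD: the sums over the maximal flags of a cube

`cb rr x s h` is the sum of `h` over the simplices of the cube of `x` in the directions `s`.  The boundary of
this sum of simplices is the same for the directions `s \ v` plus the simplices without the vertex `∅`, which
only depend on the `v`-panels of `x` (`cb1`).
-/

set_option autoImplicit false

open Finset

namespace Pool.Agent.H4.BD

variable {S Δ P : Type} [DecidableEq S]

theorem cb_empty (rr : Finset S → Δ → P) (x : Δ) (h : List P → ZMod 2) :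
    cb rr x ∅ h = h [rr ∅ x] := by
  rw [cb, if_pos rfl]

theorem cb_ne (rr : Finset S → Δ → P) (x : Δ) {s : Finset S} (hs : s ≠ ∅)
    (h : List P → ZMod 2) :
    cb rr x s h = ∑ v ∈ s, cb rr x (s.erase v) fun l => h (l ++ [rr s x]) := by
  rw [cb, if_neg hs]
  exact sum_attach s fun v => cb rr x (s.erase v) fun l => h (l ++ [rr s x])

theorem cb_congr (rr : Finset S → Δ → P) (x : Δ) : ∀ (k : ℕ) (s : Finset S), s.card = k →
    ∀ h h' : List P → ZMod 2, (∀ l, l.length = k + 1 → h l = h' l) →
    cb rr x s h = cb rr x s h'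
  | 0, s, hs, h, h', he => by
    rw [card_eq_zero.1 hs, cb_empty, cb_empty]
    exact he _ rfl
  | k + 1, s, hs, h, h', he => by
    have h0 : s ≠ ∅ := by
      rintro rfl
      simp at hs
    rw [cb_ne rr x h0, cb_ne rr x h0]
    refine sum_congr rfl fun v hv => ?_
    refine cb_congr rr x k (s.erase v) (by rw [card_erase_of_mem hv, hs]; rfl) _ _ fun l hl => ?_
    exact he _ (by rw [List.length_append, hl]; rfl)

theorem cb_congr' (rr : Finset S → Δ → P) (x : Δ) (s : Finset S) (h h' : List P → ZMod 2)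
    (he : ∀ l, l ≠ [] → h l = h' l) : cb rr x s h = cb rr x s h' :=
  cb_congr rr x s.card s rfl h h' fun l hl => he l fun h0 => by rw [h0] at hl; simp at hl

theorem cb_zero (rr : Finset S → Δ → P) (x : Δ) : ∀ (k : ℕ) (s : Finset S), s.card = k →
    cb rr x s (fun _ => 0) = 0
  | 0, s, hs => by
    rw [card_eq_zero.1 hs, cb_empty]
  | k + 1, s, hs => by
    have h0 : s ≠ ∅ := by
      rintro rfl
      simp at hs
    rw [cb_ne rr x h0]
    exact sum_eq_zero fun v hv =>
      cb_zero rr x k (s.erase v) (by rw [card_erase_of_mem hv, hs]; rfl)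

theorem cb_add (rr : Finset S → Δ → P) (x : Δ) : ∀ (k : ℕ) (s : Finset S), s.card = k →
    ∀ h h' : List P → ZMod 2, cb rr x s (fun l => h l + h' l) = cb rr x s h + cb rr x s h'
  | 0, s, hs, h, h' => by
    rw [card_eq_zero.1 hs, cb_empty, cb_empty, cb_empty]
  | k + 1, s, hs, h, h' => by
    have h0 : s ≠ ∅ := by
      rintro rfl
      simp at hs
    rw [cb_ne rr x h0, cb_ne rr x h0, cb_ne rr x h0, ← sum_add_distrib]
    exact sum_congr rfl fun v hv =>
      cb_add rr x k (s.erase v) (by rw [card_erase_of_mem hv, hs]; rfl) _ _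

theorem cb_sum (rr : Finset S → Δ → P) (x : Δ) (s : Finset S) {ι : Type*} (I : Finset ι)
    (h : ι → List P → ZMod 2) :
    cb rr x s (fun l => ∑ i ∈ I, h i l) = ∑ i ∈ I, cb rr x s (h i) := by
  classical
  induction I using Finset.induction_on with
  | empty =>
    simp only [sum_empty]
    exact cb_zero rr x _ s rfl
  | insert i I hi ih =>
    simp only [sum_insert hi]
    rw [cb_add rr x _ s rfl, ih]

theorem cb_comm {Δ' : Type} (rr : Finset S → Δ → P) (rr' : Finset S → Δ' → P) (x : Δ) (y : Δ')
    (t : Finset S) : ∀ (k : ℕ) (s : Finset S), s.card = k → ∀ G : List P → List P → ZMod 2,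
    cb rr x s (fun l => cb rr' y t fun l' => G l l') =
      cb rr' y t (fun l' => cb rr x s fun l => G l l')
  | 0, s, hs, G => by
    rw [card_eq_zero.1 hs, cb_empty]
    exact cb_congr' rr' y t _ _ fun l' _ => (cb_empty rr x fun l => G l l').symm
  | k + 1, s, hs, G => by
    have h0 : s ≠ ∅ := by
      rintro rfl
      simp at hs
    have h1 : (fun l' => cb rr x s fun l => G l l') =
        fun l' => ∑ v ∈ s, cb rr x (s.erase v) fun l => G (l ++ [rr s x]) l' :=
      funext fun l' => cb_ne rr x h0 _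
    rw [cb_ne rr x h0, h1, cb_sum]
    exact sum_congr rfl fun v hv =>
      cb_comm rr rr' x y t k (s.erase v) (by rw [card_erase_of_mem hv, hs]; rfl) _

/-- only the values `rr T x`, `T ⊆ s`, matter -/
theorem cb_local (rr : Finset S → Δ → P) (x y : Δ) : ∀ (k : ℕ) (s : Finset S), s.card = k →
    (∀ T ⊆ s, rr T x = rr T y) → ∀ h : List P → ZMod 2, cb rr x s h = cb rr y s h
  | 0, s, hs, he, h => by
    rw [card_eq_zero.1 hs, cb_empty, cb_empty, he ∅ (empty_subset _)]
  | k + 1, s, hs, he, h => by
    have h0 : s ≠ ∅ := by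
      rintro rfl
      simp at hs
    rw [cb_ne rr x h0, cb_ne rr y h0, he s Subset.rfl]
    exact sum_congr rfl fun v hv => cb_local rr x y k (s.erase v)
      (by rw [card_erase_of_mem hv, hs]; rfl) (fun T hT => he T (hT.trans (erase_subset _ _))) _

/-- The sum over the flags `{v} ⊂ … ⊂ s`. -/
noncomputable def cb1 (rr : Finset S → Δ → P) (x : Δ) (v : S) (s : Finset S)
    (h : List P → ZMod 2) : ZMod 2 :=
  if s ⊆ {v} then h [rr {v} x] else
    ∑ u ∈ (s.erase v).attach, cb1 rr x v (s.erase u.1) (fun l => h (l ++ [rr s x]))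
termination_by s.card
decreasing_by exact card_erase_lt_of_mem (mem_of_mem_erase u.2)

theorem cb1_single (rr : Finset S → Δ → P) (x : Δ) (v : S) (h : List P → ZMod 2) :
    cb1 rr x v {v} h = h [rr {v} x] := by
  rw [cb1, if_pos Subset.rfl]

theorem cb1_ne (rr : Finset S → Δ → P) (x : Δ) {v : S} {s : Finset S} (hs : ¬ s ⊆ {v})
    (h : List P → ZMod 2) :
    cb1 rr x v s h = ∑ u ∈ s.erase v, cb1 rr x v (s.erase u) fun l => h (l ++ [rr s x]) := by
  rw [cb1, if_neg hs]
  exact sum_attach (s.erase v) fun u => cb1 rr x v (s.erase u) fun l => h (l ++ [rr s x])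

/-- `cb1` only depends on the panel. -/
theorem cb1_local (rr : Finset S → Δ → P) (x y : Δ) (v : S) : ∀ (k : ℕ) (s : Finset S),
    s.card = k → v ∈ s → (∀ T, v ∈ T → rr T x = rr T y) →
    ∀ h : List P → ZMod 2, cb1 rr x v s h = cb1 rr y v s h
  | 0, s, hs, hv, _, _ => by
    rw [card_eq_zero.1 hs] at hv
    simp at hv
  | k + 1, s, hs, hv, he, h => by
    by_cases h1 : s ⊆ {v}
    · have h2 : s = {v} := Subset.antisymm h1 (singleton_subset_iff.2 hv)
      rw [h2, cb1_single, cb1_single, he {v} (mem_singleton_self v)]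
    · rw [cb1_ne rr x h1, cb1_ne rr y h1, he s hv]
      refine sum_congr rfl fun u hu => ?_
      rw [mem_erase] at hu
      exact cb1_local rr x y v k (s.erase u) (by rw [card_erase_of_mem hu.2, hs]; rfl)
        (mem_erase.2 ⟨hu.1.symm, hv⟩) he _

/-- the sum over the flags without the vertex `∅` -/
theorem cb_tail (rr : Finset S → Δ → P) (x : Δ) : ∀ (k : ℕ) (s : Finset S), s.card = k + 1 →
    ∀ h : List P → ZMod 2, cb rr x s (fun l => h (l.eraseIdx 0)) = ∑ v ∈ s, cb1 rr x v s h
  | 0, s, hs, h => by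
    obtain ⟨v, rfl⟩ := card_eq_one.1 hs
    rw [cb_ne rr x (singleton_ne_empty v), sum_singleton, sum_singleton, erase_singleton,
      cb_empty, cb1_single]
    rfl
  | k + 1, s, hs, h => by
    have h0 : s ≠ ∅ := by
      rintro rfl
      simp at hs
    rw [cb_ne rr x h0]
    have h1 : ∀ v ∈ s, cb rr x (s.erase v) (fun l => h ((l ++ [rr s x]).eraseIdx 0)) =
        ∑ u ∈ s.erase v, cb1 rr x u (s.erase v) fun l => h (l ++ [rr s x]) := by
      intro v hv
      rw [← cb_tail rr x k (s.erase v) (by rw [card_erase_of_mem hv, hs]; rfl)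
        (fun l => h (l ++ [rr s x]))]
      refine cb_congr' rr x _ _ _ fun l hl => ?_
      cases l with
      | nil => exact absurd rfl hl
      | cons a l => rfl
    rw [sum_congr rfl h1]
    have h2 : ∀ v ∈ s, cb1 rr x v s h =
        ∑ u ∈ s.erase v, cb1 rr x v (s.erase u) fun l => h (l ++ [rr s x]) := by
      intro v hv
      refine cb1_ne rr x (fun h3 => ?_) h
      have := card_le_card h3
      rw [card_singleton] at this
      omega
    rw [sum_congr rfl h2]
    refine sum_comm' fun u v => ?_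
    simp only [mem_erase]
    constructor
    · rintro ⟨h3, h4, h5⟩
      exact ⟨⟨h4.symm, h3⟩, h5⟩
    · rintro ⟨⟨h3, h4⟩, h5⟩
      exact ⟨h4, h3.symm, h5⟩

theorem dL_append {P : Type} (h : List P → ZMod 2) (l : List P) (r : P) :
    dL h (l ++ [r]) = dL (fun m => h (m ++ [r])) l + h l := by
  unfold dL
  rw [List.length_append, List.length_singleton, sum_range_succ]
  congr 1
  · refine sum_congr rfl fun i hi => ?_
    rw [mem_range] at hi
    rw [List.eraseIdx_append_of_lt_length hi]
  · rw [List.eraseIdx_append_of_length_le le_rfl]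
    simp

theorem cb_add_self {N : Type*} [AddCommGroup N] [Module (ZMod 2) N] (a : N) : a + a = 0 := by
  have h : (2 : ZMod 2) • a = 0 := by
    have : (2 : ZMod 2) = 0 := by decide
    rw [this, zero_smul]
  rwa [two_smul] at h

/-- a sum over ordered pairs of different elements of a symmetric function is zero -/
theorem cb_sum_pairs (s : Finset S) (F : S → S → ZMod 2)
    (hF : ∀ u ∈ s, ∀ v ∈ s, u ≠ v → F u v = F v u) : ∑ u ∈ s, ∑ v ∈ s.erase u, F u v = 0 := by
  rw [sum_sigma']
  refine sum_involution (fun p _ => ⟨p.2, p.1⟩) ?_ ?_ ?_ ?_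
  · rintro ⟨u, w⟩ h
    rw [mem_sigma] at h
    have h1 : u ∈ s := h.1
    have h2 : w ∈ s.erase u := h.2
    have h3 := mem_erase.1 h2
    show F u w + F w u = 0
    rw [hF u h1 w h3.2 h3.1.symm]
    exact cb_add_self _
  · rintro ⟨u, w⟩ h _ he
    rw [mem_sigma] at h
    have h1 : w = u := congrArg Sigma.fst he
    exact ne_of_mem_erase h.2 h1
  · rintro ⟨u, w⟩ h
    rw [mem_sigma] at h ⊢
    have h1 : u ∈ s := h.1
    have h2 : w ∈ s.erase u := h.2
    exact ⟨mem_of_mem_erase h2, mem_erase.2 ⟨(ne_of_mem_erase h2).symm, h1⟩⟩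
  · rintro ⟨u, w⟩ _
    rfl

/-- **The boundary of the sum of the flags.** -/
theorem cb_dL (rr : Finset S → Δ → P) (x : Δ) : ∀ (k : ℕ) (s : Finset S), s.card = k →
    ∀ h : List P → ZMod 2, cb rr x s (dL h) =
      cb rr x s (fun l => h (l.eraseIdx 0)) + ∑ v ∈ s, cb rr x (s.erase v) h
  | 0, s, hs, h => by
    rw [card_eq_zero.1 hs, cb_empty, cb_empty, sum_empty, add_zero]
    unfold dL
    simp
  | k + 1, s, hs, h => by
    have h0 : s ≠ ∅ := by
      rintro rfl
      simp at hs
    rw [cb_ne rr x h0, cb_ne rr x h0]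
    have h1 : ∀ v ∈ s, cb rr x (s.erase v) (fun l => dL h (l ++ [rr s x])) =
        cb rr x (s.erase v) (fun l => h ((l ++ [rr s x]).eraseIdx 0)) +
          ∑ u ∈ s.erase v, cb rr x ((s.erase v).erase u) (fun m => h (m ++ [rr s x])) +
          cb rr x (s.erase v) h := by
      intro v hv
      have hc : (s.erase v).card = k := by rw [card_erase_of_mem hv, hs]; rfl
      have h2 : (fun l => dL h (l ++ [rr s x])) =
          fun l => dL (fun m => h (m ++ [rr s x])) l + h l := funext fun l => dL_append h l _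
      rw [h2, cb_add rr x _ _ rfl, cb_dL rr x k (s.erase v) hc]
      congr 2
      refine cb_congr' rr x _ _ _ fun l hl => ?_
      cases l with
      | nil => exact absurd rfl hl
      | cons a l => rfl
    rw [sum_congr rfl h1, sum_add_distrib, sum_add_distrib]
    rw [cb_sum_pairs s (fun v u => cb rr x ((s.erase v).erase u) fun m => h (m ++ [rr s x]))
      (fun u _ v _ _ => by rw [erase_right_comm]), add_zero]

end Pool.Agent.H4.BD
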